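import Pool.Agent.Work.MP_c20ce7_up.Interface

set_option autoImplicit false

/-! The integrable vectors are a stable subspace; commutators of the fields with the coordinates. -/

open MvPolynomial

noncomputable section

namespace Pool.DM

section

variable {ι : Type} [Fintype ι] [DecidableEq ι] {e : ι → ℤ} {L : Type} [AddCommGroup L] [Module ℂ L]

theorem GOO_xo_pos (W : WMod (Co e) L) (p : Co e) : W.x (X p) = W.xo p.1.1 p.1.2 := by
  obtain ⟨⟨a, b⟩, h⟩ := p
  rw [WMod.xo, dif_pos h]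

theorem GOO_dO_pos (W : WMod (Co e) L) (p : Co e) : W.d (X p) = W.dO p.1.1 p.1.2 := by
  obtain ⟨⟨a, b⟩, h⟩ := p
  rw [WMod.dO, dif_pos h]

theorem GOO_xo_neg (W : WMod (Co e) L) {a b : ι} (h : ¬ e a = e b + 1) : W.xo a b = 0 := by
  rw [WMod.xo, dif_neg h]

theorem GOO_dO_neg (W : WMod (Co e) L) {a b : ι} (h : ¬ e a = e b + 1) : W.dO a b = 0 := by
  rw [WMod.dO, dif_neg h]

theorem GOO_xo_xo (W : WMod (Co e) L) (a b c d : ι) : W.xo a b * W.xo c d = W.xo c d * W.xo a b := by
  by_cases h : e a = e b + 1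
  · by_cases h' : e c = e d + 1
    · rw [WMod.xo, WMod.xo, dif_pos h, dif_pos h', ← map_mul, ← map_mul, mul_comm]
    · rw [GOO_xo_neg W h', mul_zero, zero_mul]
  · rw [GOO_xo_neg W h, mul_zero, zero_mul]

theorem GOO_dO_dO (W : WMod (Co e) L) (a b c d : ι) : W.dO a b * W.dO c d = W.dO c d * W.dO a b := by
  by_cases h : e a = e b + 1
  · by_cases h' : e c = e d + 1
    · rw [WMod.dO, WMod.dO, dif_pos h, dif_pos h', ← map_mul, ← map_mul, mul_comm]
    · rw [GOO_dO_neg W h', mul_zero, zero_mul]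
  · rw [GOO_dO_neg W h, mul_zero, zero_mul]

theorem GOO_dO_xo (W : WMod (Co e) L) (a b c d : ι) :
    W.dO a b * W.xo c d = W.xo c d * W.dO a b +
      if a = c ∧ b = d ∧ e c = e d + 1 then 1 else 0 := by
  by_cases h : e a = e b + 1
  · by_cases h' : e c = e d + 1
    · have hc := W.comm ⟨(a, b), h⟩ ⟨(c, d), h'⟩
      rw [WMod.dO, WMod.xo, dif_pos h, dif_pos h', ← sub_eq_iff_eq_add', hc]
      by_cases h1 : a = c
      · by_cases h2 : b = d
        · subst h1; subst h2
          rw [if_pos rfl, if_pos ⟨rfl, rfl, h'⟩]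
        · rw [if_neg, if_neg]
          · rintro ⟨-, h3, -⟩; exact h2 h3
          · intro h3; exact h2 (Prod.mk.inj (Subtype.mk.inj h3)).2
      · rw [if_neg, if_neg]
        · rintro ⟨h3, -, -⟩; exact h1 h3
        · intro h3; exact h1 (Prod.mk.inj (Subtype.mk.inj h3)).1
    · rw [GOO_xo_neg W h', mul_zero, zero_mul, if_neg (fun h3 => h' h3.2.2), add_zero]
  · rw [GOO_dO_neg W h, zero_mul, mul_zero, if_neg, add_zero]
    rintro ⟨rfl, rfl, h3⟩
    exact h h3

/-- `[G a b, x_{kl}]`. -/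
theorem GOO_G_xo (W : WMod (Co e) L) {a b : ι} (hab : e a = e b) (k l : ι) :
    W.G a b * W.xo k l = W.xo k l * W.G a b +
      ((if a = k then W.xo b l else 0) - (if b = l then W.xo k a else 0)) := by
  have h1 : (∑ c, W.xo b c * W.dO a c) * W.xo k l =
      W.xo k l * (∑ c, W.xo b c * W.dO a c) + if a = k then W.xo b l else 0 := by
    rw [Finset.sum_mul, Finset.mul_sum, ← sub_eq_iff_eq_add', ← Finset.sum_sub_distrib]
    rw [Finset.sum_eq_single l]
    · rw [mul_assoc, GOO_dO_xo, mul_add, ← mul_assoc, ← mul_assoc, GOO_xo_xo W b l k l,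
        add_sub_cancel_left]
      by_cases h2 : a = k
      · subst h2
        by_cases h3 : e a = e l + 1
        · rw [if_pos ⟨rfl, rfl, h3⟩, if_pos rfl, mul_one]
        · rw [if_neg (fun h4 => h3 h4.2.2), if_pos rfl, mul_zero, GOO_xo_neg W (hab ▸ h3)]
      · rw [if_neg (fun h4 => h2 h4.1), if_neg h2, mul_zero]
    · intro c _ hc
      rw [mul_assoc, GOO_dO_xo, if_neg (fun h4 => hc h4.2.1), add_zero, ← mul_assoc, ← mul_assoc,
        GOO_xo_xo W b c k l, sub_self]
    · intro h; exact absurd (Finset.mem_univ _) h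
  have h2 : (∑ c, W.xo c a * W.dO c b) * W.xo k l =
      W.xo k l * (∑ c, W.xo c a * W.dO c b) + if b = l then W.xo k a else 0 := by
    rw [Finset.sum_mul, Finset.mul_sum, ← sub_eq_iff_eq_add', ← Finset.sum_sub_distrib]
    rw [Finset.sum_eq_single k]
    · rw [mul_assoc, GOO_dO_xo, mul_add, ← mul_assoc, ← mul_assoc, GOO_xo_xo W k a k l,
        add_sub_cancel_left]
      by_cases h2 : b = l
      · subst h2
        by_cases h3 : e k = e b + 1
        · rw [if_pos ⟨rfl, rfl, h3⟩, if_pos rfl, mul_one]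
        · rw [if_neg (fun h4 => h3 h4.2.2), if_pos rfl, mul_zero, GOO_xo_neg W (hab ▸ h3)]
      · rw [if_neg (fun h4 => h2 h4.2.1), if_neg h2, mul_zero]
    · intro c _ hc
      rw [mul_assoc, GOO_dO_xo, if_neg (fun h4 => hc h4.1), add_zero, ← mul_assoc, ← mul_assoc,
        GOO_xo_xo W c a k l, sub_self]
    · intro h; exact absurd (Finset.mem_univ _) h
  rw [WMod.G, sub_mul, h1, h2, mul_sub]
  abel

/-- `[G a b, d_{kl}]`. -/
theorem GOO_G_dO (W : WMod (Co e) L) {a b : ι} (hab : e a = e b) (k l : ι) :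
    W.G a b * W.dO k l = W.dO k l * W.G a b +
      ((if a = l then W.dO k b else 0) - (if b = k then W.dO a l else 0)) := by
  have h1 : (∑ c, W.xo b c * W.dO a c) * W.dO k l =
      W.dO k l * (∑ c, W.xo b c * W.dO a c) - if b = k then W.dO a l else 0 := by
    rw [Finset.sum_mul, Finset.mul_sum, eq_sub_iff_add_eq, ← eq_sub_iff_add_eq',
      ← Finset.sum_sub_distrib, Finset.sum_eq_single l]
    · rw [← mul_assoc, GOO_dO_xo, add_mul, mul_assoc, mul_assoc, GOO_dO_dO W k l a l,
        add_sub_cancel_left]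
      by_cases h2 : b = k
      · subst h2
        by_cases h3 : e b = e l + 1
        · rw [if_pos rfl, if_pos ⟨rfl, rfl, h3⟩, one_mul]
        · rw [if_pos rfl, if_neg (fun h4 => h3 h4.2.2), zero_mul, GOO_dO_neg W (hab ▸ h3)]
      · rw [if_neg h2, if_neg (fun h4 => h2 h4.1.symm), zero_mul]
    · intro c _ hc
      rw [← mul_assoc, GOO_dO_xo, if_neg (fun h4 => hc h4.2.1.symm), add_zero, mul_assoc, mul_assoc,
        GOO_dO_dO W k l a c, sub_self]
    · intro h; exact absurd (Finset.mem_univ _) h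
  have h2 : (∑ c, W.xo c a * W.dO c b) * W.dO k l =
      W.dO k l * (∑ c, W.xo c a * W.dO c b) - if a = l then W.dO k b else 0 := by
    rw [Finset.sum_mul, Finset.mul_sum, eq_sub_iff_add_eq, ← eq_sub_iff_add_eq',
      ← Finset.sum_sub_distrib, Finset.sum_eq_single k]
    · rw [← mul_assoc, GOO_dO_xo, add_mul, mul_assoc, mul_assoc, GOO_dO_dO W k l k b,
        add_sub_cancel_left]
      by_cases h2 : a = l
      · subst h2
        by_cases h3 : e k = e a + 1
        · rw [if_pos rfl, if_pos ⟨rfl, rfl, h3⟩, one_mul]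
        · rw [if_pos rfl, if_neg (fun h4 => h3 h4.2.2), zero_mul, GOO_dO_neg W (hab ▸ h3)]
      · rw [if_neg h2, if_neg (fun h4 => h2 h4.2.1.symm), zero_mul]
    · intro c _ hc
      rw [← mul_assoc, GOO_dO_xo, if_neg (fun h4 => hc h4.1.symm), add_zero, mul_assoc, mul_assoc,
        GOO_dO_dO W k l c b, sub_self]
    · intro h; exact absurd (Finset.mem_univ _) h
  rw [WMod.G, sub_mul, h1, h2, mul_sub]
  abel

/-- The vectors on which `T` is nilpotent. -/
def GOO_nil (T : Module.End ℂ L) : Submodule ℂ L where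
  carrier := {u | ∃ k : ℕ, (T ^ k) u = 0}
  zero_mem' := ⟨0, by simp⟩
  add_mem' := by
    rintro u v ⟨k, hk⟩ ⟨l, hl⟩
    have h1 : (T ^ (k + l)) u = 0 := by
      rw [add_comm, pow_add, Module.End.mul_apply, hk, map_zero]
    have h2 : (T ^ (k + l)) v = 0 := by
      rw [pow_add, Module.End.mul_apply, hl, map_zero]
    exact ⟨k + l, by rw [map_add, h1, h2, add_zero]⟩
  smul_mem' := by
    rintro c u ⟨k, hk⟩
    exact ⟨k, by rw [map_smul, hk, smul_zero]⟩

theorem GOO_mem_nil (T : Module.End ℂ L) (u : L) : u ∈ GOO_nil T ↔ ∃ k : ℕ, (T ^ k) u = 0 := Iff.rfl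

theorem GOO_nil_step (T A A' : Module.End ℂ L) (h : T * A = A * T + A')
    (h' : ∀ u ∈ GOO_nil T, A' u ∈ GOO_nil T) : ∀ u ∈ GOO_nil T, A u ∈ GOO_nil T := by
  have key : ∀ (k : ℕ) (u : L), (T ^ k) u = 0 → A u ∈ GOO_nil T := by
    intro k
    induction k with
    | zero =>
      intro u hu
      rw [pow_zero, Module.End.one_apply] at hu
      rw [hu, map_zero]
      exact Submodule.zero_mem _
    | succ k ih =>
      intro u hu
      have h1 : A (T u) ∈ GOO_nil T := ih (T u) (by
        rw [← Module.End.mul_apply, ← pow_succ]; exact hu)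
      have h2 : A' u ∈ GOO_nil T := h' u ⟨k + 1, hu⟩
      have h3 : T (A u) = A (T u) + A' u := by
        have := LinearMap.congr_fun h u
        rwa [LinearMap.add_apply, Module.End.mul_apply, Module.End.mul_apply] at this
      have h4 : T (A u) ∈ GOO_nil T := by
        rw [h3]; exact Submodule.add_mem _ h1 h2
      obtain ⟨m, hm⟩ := h4
      exact ⟨m + 1, by rw [pow_succ, Module.End.mul_apply]; exact hm⟩
  rintro u ⟨k, hk⟩
  exact key k u hk

theorem GOO_nil_comm (T A : Module.End ℂ L) (h : T * A = A * T) :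
    ∀ u ∈ GOO_nil T, A u ∈ GOO_nil T :=
  GOO_nil_step T A 0 (by rw [h, add_zero]) (fun _ _ => Submodule.zero_mem _)

theorem GOO_xo_self (W : WMod (Co e) L) {a b : ι} (hab : e a = e b) : W.xo a b = 0 :=
  GOO_xo_neg W (by omega)

theorem GOO_dO_self (W : WMod (Co e) L) {a b : ι} (hab : e a = e b) : W.dO a b = 0 :=
  GOO_dO_neg W (by omega)

theorem GOO_nil_xo (W : WMod (Co e) L) {a b : ι} (hne : a ≠ b) (hab : e a = e b) (k l : ι) :
    ∀ u ∈ GOO_nil (W.G a b), W.xo k l u ∈ GOO_nil (W.G a b) := by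
  refine GOO_nil_step _ _ _ (GOO_G_xo W hab k l) fun u hu => ?_
  have h1 : W.G a b * W.xo b l = W.xo b l * W.G a b := by
    rw [GOO_G_xo W hab b l, if_neg hne, GOO_xo_self W hab.symm, ite_self, sub_zero, add_zero]
  have h2 : W.G a b * W.xo k a = W.xo k a * W.G a b := by
    rw [GOO_G_xo W hab k a, if_neg hne.symm, GOO_xo_self W hab.symm, ite_self, sub_zero, add_zero]
  rw [LinearMap.sub_apply]
  refine Submodule.sub_mem _ ?_ ?_
  · split_ifs
    · exact GOO_nil_comm _ _ h1 u hu
    · exact Submodule.zero_mem _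
  · split_ifs
    · exact GOO_nil_comm _ _ h2 u hu
    · exact Submodule.zero_mem _

theorem GOO_nil_dO (W : WMod (Co e) L) {a b : ι} (hne : a ≠ b) (hab : e a = e b) (k l : ι) :
    ∀ u ∈ GOO_nil (W.G a b), W.dO k l u ∈ GOO_nil (W.G a b) := by
  refine GOO_nil_step _ _ _ (GOO_G_dO W hab k l) fun u hu => ?_
  have h1 : W.G a b * W.dO k b = W.dO k b * W.G a b := by
    rw [GOO_G_dO W hab k b, if_neg hne, GOO_dO_self W hab, ite_self, sub_zero, add_zero]
  have h2 : W.G a b * W.dO a l = W.dO a l * W.G a b := by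
    rw [GOO_G_dO W hab a l, if_neg hne.symm, GOO_dO_self W hab, ite_self, sub_zero, add_zero]
  rw [LinearMap.sub_apply]
  refine Submodule.sub_mem _ ?_ ?_
  · split_ifs
    · exact GOO_nil_comm _ _ h1 u hu
    · exact Submodule.zero_mem _
  · split_ifs
    · exact GOO_nil_comm _ _ h2 u hu
    · exact Submodule.zero_mem _

/-- An operator which shifts the integral weights preserves the sum of the integral eigenspaces. -/
theorem GOO_eig (T A : Module.End ℂ L) (m : ℤ) (h : T * A = A * T + (m : ℂ) • A) :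
    ∀ u ∈ ⨆ n : ℤ, Module.End.eigenspace T (n : ℂ), A u ∈ ⨆ n : ℤ, Module.End.eigenspace T (n : ℂ) := by
  intro u hu
  induction hu using Submodule.iSup_induction' with
  | mem n u hu =>
    rw [Module.End.mem_eigenspace_iff] at hu
    have h3 : T (A u) = A (T u) + (m : ℂ) • A u := by
      have := LinearMap.congr_fun h u
      rwa [LinearMap.add_apply, Module.End.mul_apply, Module.End.mul_apply, LinearMap.smul_apply] at this
    refine Submodule.mem_iSup_of_mem (n + m) ?_
    rw [Module.End.mem_eigenspace_iff, h3, hu, map_smul, ← add_smul]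
    push_cast
    rfl
  | zero => rw [map_zero]; exact Submodule.zero_mem _
  | add u v _ _ hu hv => rw [map_add]; exact Submodule.add_mem _ hu hv

theorem GOO_eig_xo (W : WMod (Co e) L) (a k l : ι) :
    ∀ u ∈ ⨆ n : ℤ, Module.End.eigenspace (W.G a a) (n : ℂ),
      W.xo k l u ∈ ⨆ n : ℤ, Module.End.eigenspace (W.G a a) (n : ℂ) := by
  refine GOO_eig _ _ ((if a = k then 1 else 0) - (if a = l then 1 else 0)) ?_
  rw [GOO_G_xo W rfl k l]
  congr 1
  push_cast
  rw [sub_smul]
  congr 1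
  · split_ifs with h
    · rw [h, one_smul]
    · rw [zero_smul]
  · split_ifs with h
    · rw [h, one_smul]
    · rw [zero_smul]

theorem GOO_eig_dO (W : WMod (Co e) L) (a k l : ι) :
    ∀ u ∈ ⨆ n : ℤ, Module.End.eigenspace (W.G a a) (n : ℂ),
      W.dO k l u ∈ ⨆ n : ℤ, Module.End.eigenspace (W.G a a) (n : ℂ) := by
  refine GOO_eig _ _ ((if a = l then 1 else 0) - (if a = k then 1 else 0)) ?_
  rw [GOO_G_dO W rfl k l]
  congr 1
  push_cast
  rw [sub_smul]
  congr 1
  · split_ifs with h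
    · rw [h, one_smul]
    · rw [zero_smul]
  · split_ifs with h
    · rw [h, one_smul]
    · rw [zero_smul]

end

theorem p_GOO : Stmt_GOO := by
  intro ι _ _ e L _ _ W
  refine ⟨(⨅ a : ι, ⨆ n : ℤ, Module.End.eigenspace (W.G a a) (n : ℂ)) ⊓
    ⨅ a : ι, ⨅ b : ι, ⨅ (_ : a ≠ b), ⨅ (_ : e a = e b), GOO_nil (W.G a b), ?_, ?_⟩
  · intro u hu
    rw [Submodule.mem_inf, Submodule.mem_iInf] at hu
    obtain ⟨h1, h2⟩ := hu
    simp only [Submodule.mem_iInf] at h2
    refine ⟨fun i => ?_, fun i => ?_⟩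
    · rw [GOO_xo_pos, Submodule.mem_inf, Submodule.mem_iInf]
      simp only [Submodule.mem_iInf]
      exact ⟨fun a => GOO_eig_xo W a _ _ u (h1 a),
        fun a b hne hab => GOO_nil_xo W hne hab _ _ u (h2 a b hne hab)⟩
    · rw [GOO_dO_pos, Submodule.mem_inf, Submodule.mem_iInf]
      simp only [Submodule.mem_iInf]
      exact ⟨fun a => GOO_eig_dO W a _ _ u (h1 a),
        fun a b hne hab => GOO_nil_dO W hne hab _ _ u (h2 a b hne hab)⟩
  · intro u
    rw [Submodule.mem_inf, Submodule.mem_iInf]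
    simp only [Submodule.mem_iInf, GOO_mem_nil]
    rfl

end Pool.DM
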