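import Pool.Agent.Work.MP_c20ce7_dm.Main
import Pool.Agent.Work.MP_c20ce7_dm90.T6

set_option autoImplicit false

/-!
# The up-step: language

`e' : ι' → ℤ` are the degrees of a basis, `C` is a finite set of new basis vectors, all of degree `i`;
`addDeg e' C i` are the degrees of the extended basis `ι' ⊕ C`. For a basis vector `b` of degree `i` and a neighbour
`c` (degree `i - 1` or `i + 1`) the pair `ph b c`, `dp b c` is the canonical pair of the entry `(b, c)` of the
matrix `φ : V_(i-1) ⊕ V_(i+1) → V_i` of the orientation in which `i` is a sink: `x_{bc}, ∂_{bc}` if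
`e c = i - 1` and `∂_{cb}, - x_{cb}` if `e c = i + 1`.
-/

open MvPolynomial

noncomputable section

namespace Pool.DM

section Four

variable {σ : Type} [DecidableEq σ] {L : Type} [AddCommGroup L] [Module ℂ L]

/-- `V` is the partial Fourier transform of `W` in the coordinates with `A k`: the new function `x_k` is the old
`∂_k`, the new `∂_k` is `- x_k`. -/
structure IsFour (A : σ → Prop) (W V : WMod σ L) : Prop where
  xA : ∀ k, A k → V.x (X k) = W.d (X k)
  dA : ∀ k, A k → V.d (X k) = - W.x (X k)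
  xN : ∀ k, ¬ A k → V.x (X k) = W.x (X k)
  dN : ∀ k, ¬ A k → V.d (X k) = W.d (X k)

/-- The point `(x, ξ)` is in the characteristic variety of the cyclic module generated by `u`. -/
def WMod.InChAt (W : WMod σ L) (u : L) (x ξ : σ → ℂ) : Prop :=
  ∀ (m : ℕ) (P : MvPolynomial (σ ⊕ σ) ℂ), weightedTotalDegree (wt σ) P ≤ m → W.nf P u = 0 →
    eval (Sum.elim x ξ) (weightedHomogeneousComponent (wt σ) m P) = 0

end Four

section Sink

variable {ι : Type} [Fintype ι] [DecidableEq ι] {L : Type} [AddCommGroup L] [Module ℂ L]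

/-- The coordinates with source of degree `i` (they are Fourier transformed in the sink orientation). -/
def Src (e : ι → ℤ) (i : ℤ) : Co e → Prop := fun p => e p.1.2 = i

/-- The entry `(b, c)` of `φ` as a polynomial in the coordinates of the sink orientation. -/
def pol (e : ι → ℤ) (b c : ι) : MvPolynomial (Co e) ℂ :=
  if h : e b = e c + 1 then X ⟨(b, c), h⟩ else if h : e c = e b + 1 then X ⟨(c, b), h⟩ else 0

/-- The entry `(b, c)` of the vector `x`. -/
def ent (e : ι → ℤ) (x : Co e → ℂ) (b c : ι) : ℂ :=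
  if h : e b = e c + 1 then x ⟨(b, c), h⟩ else if h : e c = e b + 1 then x ⟨(c, b), h⟩ else 0

/-- The maximal minor of `φ` with the columns `J`. -/
def minor (e : ι → ℤ) (i : ℤ) (J : {b // e b = i} → ι) : MvPolynomial (Co e) ℂ :=
  Matrix.det (fun b k : {b // e b = i} => pol e b.1 (J k))

/-- The position part of the point `(x, ξ)` in the sink orientation. -/
def sx (e : ι → ℤ) (i : ℤ) (x ξ : Co e → ℂ) : Co e → ℂ := fun p => if e p.1.2 = i then ξ p else x p

/-- The momentum part of the point `(x, ξ)` in the sink orientation. -/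
def sxi (e : ι → ℤ) (i : ℤ) (x ξ : Co e → ℂ) : Co e → ℂ := fun p => if e p.1.2 = i then - x p else ξ p

variable {e : ι → ℤ}

/-- The entry `(b, c)` of `φ` as an operator (`b` of degree `i`). -/
def WMod.ph (W : WMod (Co e) L) (b c : ι) : Module.End ℂ L := W.xo b c + W.dO c b

/-- The derivation with respect to the entry `(b, c)` of `φ` (`b` of degree `i`). -/
def WMod.dp (W : WMod (Co e) L) (b c : ι) : Module.End ℂ L := W.dO b c - W.xo c b

/-- `u` is an integrable vector. -/
def WMod.Good (W : WMod (Co e) L) (u : L) : Prop :=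
  (∀ a : ι, u ∈ ⨆ n : ℤ, Module.End.eigenspace (W.G a a) (n : ℂ)) ∧
    ∀ a b : ι, a ≠ b → e a = e b → ∃ k : ℕ, (W.G a b ^ k) u = 0

end Sink

section RowExt

variable {ι' C : Type} [Fintype ι'] [DecidableEq ι'] [Fintype C] [DecidableEq C] {e' : ι' → ℤ} {i : ℤ}
variable {L' B : Type} [AddCommGroup L'] [Module ℂ L'] [AddCommGroup B] [Module ℂ B]

/-- The field `∂ / ∂T_{ab}`: the infinitesimal row operation which adds the row `b` to the new row `a`. -/
def WMod.th (W : WMod (Co (addDeg e' C i)) B) (a : C) (b : ι') : Module.End ℂ B :=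
  ∑ c : ι', W.ph (Sum.inl b) (Sum.inl c) * W.dp (Sum.inr a) (Sum.inl c)

/-- `B` is obtained from `L'` by adding the rows `C`, which are combinations `φ_a = ∑ T_{ab} φ_b` of the rows of
degree `i` of `L'`; `lam` is the canonical map `L' → B` (it does not depend on the choice of a chart). -/
structure RowExt (W' : WMod (Co e') L') (W : WMod (Co (addDeg e' C i)) B) where
  T : C → ι' → Module.End ℂ B
  lam : L' →ₗ[ℂ] B
  T_zero : ∀ a b, e' b ≠ i → T a b = 0
  T_comm : ∀ a b a' b', T a b * T a' b' = T a' b' * T a b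
  T_ph : ∀ a b k c, addDeg e' C i k = i → T a b * W.ph k c = W.ph k c * T a b
  T_x : ∀ a b k c, e' k ≠ i → e' c ≠ i →
    T a b * W.xo (Sum.inl k) (Sum.inl c) = W.xo (Sum.inl k) (Sum.inl c) * T a b
  T_d : ∀ a b k c, e' k ≠ i → e' c ≠ i →
    T a b * W.dO (Sum.inl k) (Sum.inl c) = W.dO (Sum.inl k) (Sum.inl c) * T a b
  T_th : ∀ a b a' b', e' b = i → e' b' = i →
    W.th a b * T a' b' - T a' b' * W.th a b = if a = a' ∧ b = b' then 1 else 0
  T_nab : ∀ b c a' b', e' b = i →
    (W.dp (Sum.inl b) (Sum.inl c) + ∑ a, W.dp (Sum.inr a) (Sum.inl c) * T a b) * T a' b' =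
      T a' b' * (W.dp (Sum.inl b) (Sum.inl c) + ∑ a, W.dp (Sum.inr a) (Sum.inl c) * T a b)
  lam_x : ∀ k c, e' k ≠ i → e' c ≠ i → ∀ w, W.xo (Sum.inl k) (Sum.inl c) (lam w) = lam (W'.xo k c w)
  lam_d : ∀ k c, e' k ≠ i → e' c ≠ i → ∀ w, W.dO (Sum.inl k) (Sum.inl c) (lam w) = lam (W'.dO k c w)
  lam_ph1 : ∀ b c, e' b = i → ∀ w, W.ph (Sum.inl b) (Sum.inl c) (lam w) = lam (W'.ph b c w)
  lam_ph2 : ∀ a c w, W.ph (Sum.inr a) (Sum.inl c) (lam w) =
    ∑ b : ι', if e' b = i then T a b (lam (W'.ph b c w)) else 0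
  lam_th : ∀ a b, e' b = i → ∀ w, W.th a b (lam w) = 0
  lam_nab : ∀ b c, e' b = i → ∀ w,
    (W.dp (Sum.inl b) (Sum.inl c) + ∑ a, W.dp (Sum.inr a) (Sum.inl c) * T a b) (lam w) = lam (W'.dp b c w)

end RowExt

end Pool.DM
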