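import Pool.Agent.Work.MP_c20ce7_up.Interface

set_option autoImplicit false

open MvPolynomial

noncomputable section

namespace Pool.DM

section FEX

variable {σ : Type} [DecidableEq σ] {L : Type} [AddCommGroup L] [Module ℂ L]

/-- The new position operators. -/
def FEX_x (W : WMod σ L) (A : σ → Prop) (i : σ) : Module.End ℂ L := by
  classical exact if A i then W.d (X i) else W.x (X i)

/-- The new derivations. -/
def FEX_d (W : WMod σ L) (A : σ → Prop) (i : σ) : Module.End ℂ L := by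
  classical exact if A i then - W.x (X i) else W.d (X i)

theorem FEX_xx (W : WMod σ L) (i j : σ) : W.x (X i) * W.x (X j) = W.x (X j) * W.x (X i) := by
  rw [← map_mul, mul_comm, map_mul]

theorem FEX_dd (W : WMod σ L) (i j : σ) : W.d (X i) * W.d (X j) = W.d (X j) * W.d (X i) := by
  rw [← map_mul, mul_comm, map_mul]

theorem FEX_dx (W : WMod σ L) (i j : σ) :
    W.d (X i) * W.x (X j) = W.x (X j) * W.d (X i) + if i = j then 1 else 0 := by
  rw [← W.comm i j]; abel

theorem FEX_hx (W : WMod σ L) (A : σ → Prop) (i j : σ) :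
    FEX_x W A i * FEX_x W A j = FEX_x W A j * FEX_x W A i := by
  classical
  unfold FEX_x
  by_cases hi : A i <;> by_cases hj : A j
  · rw [if_pos hi, if_pos hj]; exact FEX_dd W i j
  · have hij : i ≠ j := fun h => hj (h ▸ hi)
    rw [if_pos hi, if_neg hj, FEX_dx, if_neg hij, add_zero]
  · have hij : j ≠ i := fun h => hi (h ▸ hj)
    rw [if_neg hi, if_pos hj, FEX_dx, if_neg hij, add_zero]
  · rw [if_neg hi, if_neg hj]; exact FEX_xx W i j

theorem FEX_hd (W : WMod σ L) (A : σ → Prop) (i j : σ) :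
    FEX_d W A i * FEX_d W A j = FEX_d W A j * FEX_d W A i := by
  classical
  unfold FEX_d
  by_cases hi : A i <;> by_cases hj : A j
  · rw [if_pos hi, if_pos hj, neg_mul_neg, neg_mul_neg]; exact FEX_xx W i j
  · have hij : j ≠ i := fun h => hj (h ▸ hi)
    rw [if_pos hi, if_neg hj, mul_neg, neg_mul, FEX_dx, if_neg hij, add_zero]
  · have hij : i ≠ j := fun h => hi (h ▸ hj)
    rw [if_neg hi, if_pos hj, mul_neg, neg_mul, FEX_dx, if_neg hij, add_zero]
  · rw [if_neg hi, if_neg hj]; exact FEX_dd W i j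

theorem FEX_hc (W : WMod σ L) (A : σ → Prop) (i j : σ) :
    FEX_d W A i * FEX_x W A j - FEX_x W A j * FEX_d W A i = if i = j then 1 else 0 := by
  classical
  unfold FEX_d FEX_x
  by_cases hi : A i <;> by_cases hj : A j
  · rw [if_pos hi, if_pos hj, mul_neg, neg_mul, FEX_dx]
    by_cases h : i = j
    · rw [if_pos h, if_pos h.symm]; abel
    · rw [if_neg h, if_neg (Ne.symm h)]; abel
  · have hij : i ≠ j := fun h => hj (h ▸ hi)
    rw [if_pos hi, if_neg hj, if_neg hij, mul_neg, neg_mul, FEX_xx W i j, sub_self]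
  · have hij : i ≠ j := fun h => hi (h ▸ hj)
    rw [if_neg hi, if_pos hj, if_neg hij, FEX_dd W i j, sub_self]
  · rw [if_neg hi, if_neg hj]; exact W.comm i j

end FEX

theorem p_FEX : Stmt_FEX := by
  classical
  intro σ _ _ L _ _ W A
  refine ⟨WMod.mk' (FEX_x W A) (FEX_d W A) (FEX_hx W A) (FEX_hd W A) (FEX_hc W A), ?_⟩
  have hx : ∀ i, (WMod.mk' (FEX_x W A) (FEX_d W A) (FEX_hx W A) (FEX_hd W A) (FEX_hc W A)).x (X i) =
      FEX_x W A i := fun i => homOf_X (FEX_x W A) (FEX_hx W A) i
  have hd : ∀ i, (WMod.mk' (FEX_x W A) (FEX_d W A) (FEX_hx W A) (FEX_hd W A) (FEX_hc W A)).d (X i) =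
      FEX_d W A i := fun i => homOf_X (FEX_d W A) (FEX_hd W A) i
  exact
    { xA := fun k hk => by rw [hx]; unfold FEX_x; rw [if_pos hk]
      dA := fun k hk => by rw [hd]; unfold FEX_d; rw [if_pos hk]
      xN := fun k hk => by rw [hx]; unfold FEX_x; rw [if_neg hk]
      dN := fun k hk => by rw [hd]; unfold FEX_d; rw [if_neg hk] }

end Pool.DM
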