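import Pool.Agent.Work.MP_c20ce7_up.Interface

set_option autoImplicit false

/-!
# Block `SU1`: functions on the row extension
-/

open MvPolynomial

noncomputable section

namespace Pool.DM

section Poly

variable {α τ : Type} {N : Type} [AddCommGroup N] [Module ℂ N]

theorem SU1_split (a : α →₀ ℕ) (b : τ →₀ ℕ) :
    Finsupp.mapDomain Sum.inl a + Finsupp.mapDomain Sum.inr b =
      Finsupp.sumFinsuppEquivProdFinsupp.symm (a, b) := by
  ext s
  rcases s with s | s
  · rw [Finsupp.add_apply, Finsupp.mapDomain_apply Sum.inl_injective,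
      Finsupp.mapDomain_of_notMem_range]
    · simp
    · simp
  · rw [Finsupp.add_apply, Finsupp.mapDomain_apply Sum.inr_injective,
      Finsupp.mapDomain_of_notMem_range]
    · simp
    · simp

/-- Induction principle: a linear statement needs only to be checked for products. -/
theorem SU1_ind (P : MvPolynomial (α ⊕ τ) ℂ → Prop)
    (h0 : ∀ (f : MvPolynomial α ℂ) (g : MvPolynomial τ ℂ), P (rename Sum.inl f * rename Sum.inr g))
    (hadd : ∀ p q, P p → P q → P (p + q)) (p : MvPolynomial (α ⊕ τ) ℂ) : P p := by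
  induction p using MvPolynomial.induction_on' with
  | add p q hp hq => exact hadd p q hp hq
  | monomial m c =>
    have h : (rename Sum.inl (monomial (Finsupp.sumFinsuppEquivProdFinsupp m).1 c) *
        rename Sum.inr (monomial (Finsupp.sumFinsuppEquivProdFinsupp m).2 1) :
          MvPolynomial (α ⊕ τ) ℂ) = monomial m c := by
      rw [rename_monomial, rename_monomial, monomial_mul, mul_one, SU1_split,
        Prod.mk.eta, Equiv.symm_apply_apply]
    rw [← h]
    exact h0 _ _

/-- The linear map on the polynomials in two groups of variables given by a bilinear map. -/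
def SU1_L (Φ : MvPolynomial α ℂ →ₗ[ℂ] MvPolynomial τ ℂ →ₗ[ℂ] N) :
    MvPolynomial (α ⊕ τ) ℂ →ₗ[ℂ] N :=
  (MvPolynomial.basisMonomials (α ⊕ τ) ℂ).constr ℂ fun m =>
    Φ (monomial (Finsupp.sumFinsuppEquivProdFinsupp m).1 1)
      (monomial (Finsupp.sumFinsuppEquivProdFinsupp m).2 1)

theorem SU1_L_mul (Φ : MvPolynomial α ℂ →ₗ[ℂ] MvPolynomial τ ℂ →ₗ[ℂ] N)
    (f : MvPolynomial α ℂ) (g : MvPolynomial τ ℂ) :
    SU1_L Φ (rename Sum.inl f * rename Sum.inr g) = Φ f g := by
  have hm : ∀ (m : α ⊕ τ →₀ ℕ) (c : ℂ), SU1_L Φ (monomial m c) =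
      c • Φ (monomial (Finsupp.sumFinsuppEquivProdFinsupp m).1 1)
        (monomial (Finsupp.sumFinsuppEquivProdFinsupp m).2 1) := by
    intro m c
    have h : (monomial m c : MvPolynomial (α ⊕ τ) ℂ) =
        c • (MvPolynomial.basisMonomials (α ⊕ τ) ℂ) m := by
      rw [coe_basisMonomials, smul_monomial, smul_eq_mul, mul_one]
    rw [h, map_smul, SU1_L, Module.Basis.constr_basis]
  induction f using MvPolynomial.induction_on' with
  | add p q hp hq => simp only [map_add, add_mul, hp, hq, LinearMap.add_apply]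
  | monomial a c =>
    induction g using MvPolynomial.induction_on' with
    | add p q hp hq => simp only [map_add, mul_add, hp, hq]
    | monomial b d =>
      have h : (rename Sum.inl (monomial a c) * rename Sum.inr (monomial b d) :
          MvPolynomial (α ⊕ τ) ℂ) =
          monomial (Finsupp.sumFinsuppEquivProdFinsupp.symm (a, b)) (c * d) := by
        rw [rename_monomial, rename_monomial, monomial_mul, SU1_split]
      rw [h, hm, Equiv.apply_symm_apply]
      have h1 : (monomial a c : MvPolynomial α ℂ) = c • monomial a 1 := by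
        rw [smul_monomial, smul_eq_mul, mul_one]
      have h2 : (monomial b d : MvPolynomial τ ℂ) = d • monomial b 1 := by
        rw [smul_monomial, smul_eq_mul, mul_one]
      rw [h1, h2, map_smul, map_smul Φ, LinearMap.smul_apply, smul_smul, mul_comm d c]

/-- An operator which commutes with the generators commutes with everything. -/
theorem SU1_comm {σ : Type} (φ : MvPolynomial σ ℂ →ₐ[ℂ] Module.End ℂ N) (A : Module.End ℂ N)
    (h : ∀ j, A * φ (X j) = φ (X j) * A) (p : MvPolynomial σ ℂ) : A * φ p = φ p * A := by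
  induction p using MvPolynomial.induction_on with
  | C c =>
    rw [← MvPolynomial.algebraMap_eq, AlgHom.commutes]
    exact (Algebra.commutes c A).symm
  | add p q hp hq => rw [map_add, mul_add, add_mul, hp, hq]
  | mul_X p j hp => rw [map_mul, ← mul_assoc, hp, mul_assoc, h j, mul_assoc]

end Poly

section Main

variable {ι' C : Type} [Fintype ι'] [DecidableEq ι'] [Fintype C] [DecidableEq C] {e' : ι' → ℤ} {i : ℤ}
variable {L' B : Type} [AddCommGroup L'] [Module ℂ L'] [AddCommGroup B] [Module ℂ B]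
variable {W' : WMod (Co e') L'} {W : WMod (Co (addDeg e' C i)) B}

theorem SU1_xx {ι : Type} [DecidableEq ι] {e : ι → ℤ} {L : Type} [AddCommGroup L] [Module ℂ L]
    (W : WMod (Co e) L) (a c a' c' : ι) :
    W.xo a c * W.xo a' c' = W.xo a' c' * W.xo a c := by
  unfold WMod.xo
  by_cases h : e a = e c + 1
  · by_cases h' : e a' = e c' + 1
    · rw [dif_pos h, dif_pos h', ← map_mul, ← map_mul, mul_comm]
    · rw [dif_neg h', mul_zero, zero_mul]
  · rw [dif_neg h, mul_zero, zero_mul]

theorem SU1_x {ι : Type} [DecidableEq ι] {e : ι → ℤ} {L : Type} [AddCommGroup L] [Module ℂ L]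
    (W : WMod (Co e) L) (a c : ι) (h : e a = e c + 1) : W.xo a c = W.x (X ⟨(a, c), h⟩) := by
  unfold WMod.xo
  rw [dif_pos h]

theorem SU1_d0 {ι : Type} [DecidableEq ι] {e : ι → ℤ} {L : Type} [AddCommGroup L] [Module ℂ L]
    (W : WMod (Co e) L) (a c : ι) (h : ¬ e a = e c + 1) : W.dO a c = 0 := by
  unfold WMod.dO
  rw [dif_neg h]

/-- The operators `D_{ac}`, `c` of degree `i + 1`. -/
def SU1_H (W : WMod (Co (addDeg e' C i)) B) (t : C × ι') : Module.End ℂ B :=
  if e' t.2 = i + 1 then W.dp (Sum.inr t.1) (Sum.inl t.2) else 0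

theorem SU1_H_eq (W : WMod (Co (addDeg e' C i)) B) (a : C) (c : ι') (h : e' c = i + 1) :
    SU1_H W (a, c) = - W.xo (Sum.inl c) (Sum.inr a) := by
  unfold SU1_H WMod.dp
  rw [if_pos h, SU1_d0 W (Sum.inr a) (Sum.inl c), zero_sub]
  show ¬ i = e' c + 1
  omega

/-- Functions commute with the `D_{ac}`. -/
theorem SU1_H_x (W : WMod (Co (addDeg e' C i)) B) (p q : ι' ⊕ C) (t : C × ι') :
    W.xo p q * SU1_H W t = SU1_H W t * W.xo p q := by
  obtain ⟨a, c⟩ := t
  by_cases h : e' c = i + 1
  · rw [SU1_H_eq W a c h, mul_neg, neg_mul, SU1_xx]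
  · unfold SU1_H
    rw [if_neg h, mul_zero, zero_mul]

theorem SU1_H_comm (W : WMod (Co (addDeg e' C i)) B) (t t' : C × ι') :
    SU1_H W t * SU1_H W t' = SU1_H W t' * SU1_H W t := by
  obtain ⟨a, c⟩ := t
  by_cases h : e' c = i + 1
  · rw [SU1_H_eq W a c h, neg_mul, mul_neg, SU1_H_x]
  · unfold SU1_H
    rw [if_neg h, mul_zero, zero_mul]

/-- The polynomials in the `D_{ac}`. -/
def SU1_hH (W : WMod (Co (addDeg e' C i)) B) : MvPolynomial (C × ι') ℂ →ₐ[ℂ] Module.End ℂ B :=
  homOf (SU1_H W) (SU1_H_comm W)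

/-- The polynomials in the `T_{ab}`. -/
def SU1_hT (rx : RowExt (C := C) (i := i) W' W) : MvPolynomial (C × ι') ℂ →ₐ[ℂ] Module.End ℂ B :=
  homOf (fun t : C × ι' => rx.T t.1 t.2) (fun t t' => rx.T_comm t.1 t.2 t'.1 t'.2)

theorem SU1_hH_X (W : WMod (Co (addDeg e' C i)) B) (t : C × ι') : SU1_hH W (X t) = SU1_H W t :=
  homOf_X _ _ t

theorem SU1_hT_X (rx : RowExt (C := C) (i := i) W' W) (t : C × ι') :
    SU1_hT rx (X t) = rx.T t.1 t.2 :=
  homOf_X _ _ t

/-- The operator of a polynomial in `T` and `η`. -/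
def SU1_K (rx : RowExt (C := C) (i := i) W' W) :
    MvPolynomial ((C × ι') ⊕ (C × ι')) ℂ →ₗ[ℂ] Module.End ℂ B :=
  SU1_L (LinearMap.mk₂ ℂ (fun g h => SU1_hH W h * SU1_hT rx g)
    (fun g g' h => by rw [map_add, mul_add]) (fun c g h => by rw [map_smul, mul_smul_comm])
    (fun g h h' => by rw [map_add, add_mul]) (fun c g h => by rw [map_smul, smul_mul_assoc]))

theorem SU1_K_mul (rx : RowExt (C := C) (i := i) W' W) (g h : MvPolynomial (C × ι') ℂ) :
    SU1_K rx (rename Sum.inl g * rename Sum.inr h) = SU1_hH W h * SU1_hT rx g :=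
  SU1_L_mul _ g h

/-- The map `Λ`. -/
def SU1_Lam (rx : RowExt (C := C) (i := i) W' W) : SR e' C →ₗ[ℂ] (L' →ₗ[ℂ] B) :=
  SU1_L (LinearMap.mk₂ ℂ
    (fun (f : MvPolynomial (Co e') ℂ) (q : MvPolynomial ((C × ι') ⊕ (C × ι')) ℂ) =>
      (SU1_K rx q).comp (rx.lam.comp (W'.x f : L' →ₗ[ℂ] L')))
    (fun f f' q => by
      ext w
      simp only [LinearMap.comp_apply, map_add, LinearMap.add_apply])
    (fun c f q => by
      ext w
      simp only [LinearMap.comp_apply, map_smul, LinearMap.smul_apply])
    (fun f q q' => by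
      ext w
      simp only [LinearMap.comp_apply, map_add, LinearMap.add_apply])
    (fun c f q => by
      ext w
      simp only [LinearMap.comp_apply, map_smul, LinearMap.smul_apply]))

/-- A product of polynomials in the three groups of variables. -/
def SU1_pr (f : MvPolynomial (Co e') ℂ) (g h : MvPolynomial (C × ι') ℂ) : SR e' C :=
  rename Sum.inl f * rename Sum.inr (rename Sum.inl g * rename Sum.inr h)

theorem SU1_Lam_pr (rx : RowExt (C := C) (i := i) W' W) (f : MvPolynomial (Co e') ℂ)
    (g h : MvPolynomial (C × ι') ℂ) (w : L') :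
    SU1_Lam rx (SU1_pr f g h) w = SU1_hH W h (SU1_hT rx g (rx.lam (W'.x f w))) := by
  unfold SU1_Lam SU1_pr
  rw [SU1_L_mul, LinearMap.mk₂_apply, SU1_K_mul]
  rfl

theorem SU1_pr_ind (P : SR e' C → Prop) (h0 : ∀ f g h, P (SU1_pr f g h))
    (hadd : ∀ p q, P p → P q → P (p + q)) (s : SR e' C) : P s := by
  refine SU1_ind P (fun f q => ?_) hadd s
  refine SU1_ind (fun q => P (rename Sum.inl f * rename Sum.inr q)) (fun g h => h0 f g h) ?_ q
  intro p q hp hq
  show P (rename Sum.inl f * rename Sum.inr (p + q))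
  rw [map_add, mul_add]
  exact hadd _ _ hp hq

theorem SU1_pr1 (c : Co e') (f : MvPolynomial (Co e') ℂ) (g h : MvPolynomial (C × ι') ℂ) :
    (X (Sum.inl c) : SR e' C) * SU1_pr f g h = SU1_pr (X c * f) g h := by
  unfold SU1_pr
  simp only [map_mul, rename_X]
  ring

theorem SU1_pr2 (t : C × ι') (f : MvPolynomial (Co e') ℂ) (g h : MvPolynomial (C × ι') ℂ) :
    (X (Sum.inr (Sum.inl t)) : SR e' C) * SU1_pr f g h = SU1_pr f (X t * g) h := by
  unfold SU1_pr
  simp only [map_mul, rename_X]
  ring

theorem SU1_pr3 (t : C × ι') (f : MvPolynomial (Co e') ℂ) (g h : MvPolynomial (C × ι') ℂ) :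
    (X (Sum.inr (Sum.inr t)) : SR e' C) * SU1_pr f g h = SU1_pr f g (X t * h) := by
  unfold SU1_pr
  simp only [map_mul, rename_X]
  ring

/-- `Λ (X_p-image * s) w = x_p (Λ s w)` for the products `s`. -/
theorem SU1_gen (rx : RowExt (C := C) (i := i) W' W) (p : Co (addDeg e' C i))
    (f : MvPolynomial (Co e') ℂ) (g h : MvPolynomial (C × ι') ℂ) (w : L') :
    W.x (X p) (SU1_Lam rx (SU1_pr f g h) w) = SU1_Lam rx (kap e' C i (X p) * SU1_pr f g h) w := by
  set v : L' := W'.x f w with hv
  -- functions commute with the polynomials in `D`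
  have hH : ∀ (k c : ι' ⊕ C) (u : B), W.xo k c (SU1_hH W h u) = SU1_hH W h (W.xo k c u) := by
    intro k c u
    have h1 := SU1_comm (SU1_hH W) (W.xo k c) (fun t => by rw [SU1_hH_X, SU1_H_x]) h
    exact congrArg (fun A : Module.End ℂ B => A u) h1
  have hHH : ∀ (t : C × ι') (u : B), SU1_H W t (SU1_hH W h u) = SU1_hH W h (SU1_H W t u) := by
    intro t u
    have h1 := SU1_comm (SU1_hH W) (SU1_H W t) (fun t' => by rw [SU1_hH_X, SU1_H_comm]) h
    exact congrArg (fun A : Module.End ℂ B => A u) h1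
  have hTT : ∀ (t : C × ι') (u : B), rx.T t.1 t.2 (SU1_hT rx g u) = SU1_hT rx g (rx.T t.1 t.2 u) := by
    intro t u
    have h1 := SU1_comm (SU1_hT rx) (rx.T t.1 t.2)
      (fun t' => by rw [SU1_hT_X, rx.T_comm]) g
    exact congrArg (fun A : Module.End ℂ B => A u) h1
  -- an operator which commutes with the `T_{ab}`
  have hT : ∀ A : Module.End ℂ B, (∀ a b, rx.T a b * A = A * rx.T a b) → ∀ u : B,
      A (SU1_hT rx g u) = SU1_hT rx g (A u) := by
    intro A hA u
    have h1 := SU1_comm (SU1_hT rx) A (fun t' => by rw [SU1_hT_X, hA]) g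
    exact congrArg (fun A : Module.End ℂ B => A u) h1
  obtain ⟨⟨p1, p2⟩, hp⟩ := p
  have hx : W.x (X ⟨(p1, p2), hp⟩) = W.xo p1 p2 := (SU1_x W p1 p2 hp).symm
  rw [hx]
  rcases p1 with b | a
  · rcases p2 with c | a
    · -- an old entry
      have hbc : e' b = e' c + 1 := hp
      have hk : kap e' C i (X ⟨(Sum.inl b, Sum.inl c), hp⟩) =
          X (Sum.inl ⟨(b, c), hbc⟩) +
            if e' c = i then ∑ a : C, X (Sum.inr (Sum.inr (a, b))) * X (Sum.inr (Sum.inl (a, c)))
            else 0 := by
        unfold kap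
        rw [aeval_X]
      rw [hk, add_mul, map_add, LinearMap.add_apply]
      by_cases hc : e' c = i
      · have hb : e' b = i + 1 := by omega
        rw [if_pos hc, Finset.sum_mul, map_sum, LinearMap.sum_apply]
        have hs : ∀ a : C, SU1_Lam rx (X (Sum.inr (Sum.inr (a, b))) * X (Sum.inr (Sum.inl (a, c))) *
            SU1_pr f g h) w = SU1_hH W h (SU1_H W (a, b) (rx.T a c (SU1_hT rx g (rx.lam v)))) := by
          intro a
          rw [mul_assoc, SU1_pr2, SU1_pr3, SU1_Lam_pr, map_mul, map_mul, SU1_hH_X, SU1_hT_X,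
            Module.End.mul_apply, Module.End.mul_apply, hHH]
        rw [Finset.sum_congr rfl fun a _ => hs a, SU1_pr1, SU1_Lam_pr, SU1_Lam_pr, hH]
        have hnab : W.xo (Sum.inl b) (Sum.inl c) =
            - (W.dp (Sum.inl c) (Sum.inl b) + ∑ a, W.dp (Sum.inr a) (Sum.inl b) * rx.T a c) +
              ∑ a, SU1_H W (a, b) * rx.T a c := by
          have h1 : W.dp (Sum.inl c) (Sum.inl b) = - W.xo (Sum.inl b) (Sum.inl c) := by
            unfold WMod.dp
            rw [SU1_d0 W (Sum.inl c) (Sum.inl b), zero_sub]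
            show ¬ e' c = e' b + 1
            omega
          have h2 : ∀ a : C, SU1_H W (a, b) = W.dp (Sum.inr a) (Sum.inl b) := by
            intro a
            unfold SU1_H
            rw [if_pos hb]
          simp only [h2]
          rw [h1]
          abel
        have hnl : ∀ u : B, (W.dp (Sum.inl c) (Sum.inl b) +
            ∑ a, W.dp (Sum.inr a) (Sum.inl b) * rx.T a c) (SU1_hT rx g u) =
            SU1_hT rx g ((W.dp (Sum.inl c) (Sum.inl b) +
            ∑ a, W.dp (Sum.inr a) (Sum.inl b) * rx.T a c) u) :=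
          hT _ (fun a' b' => (rx.T_nab c b a' b' hc).symm)
        have hW' : W'.dp c b v = - W'.x (X ⟨(b, c), hbc⟩) v := by
          unfold WMod.dp
          rw [SU1_d0 W' c b (by omega), zero_sub, LinearMap.neg_apply, SU1_x W' b c hbc]
        conv_lhs => rw [hnab]
        rw [LinearMap.add_apply, LinearMap.neg_apply, hnl, rx.lam_nab c b hc, hW', map_neg, map_neg,
          neg_neg, LinearMap.sum_apply, map_add, map_sum, map_mul]
        rfl
      · rw [if_neg hc, zero_mul, map_zero, LinearMap.zero_apply, add_zero, SU1_pr1, SU1_Lam_pr,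
          SU1_Lam_pr, hH, map_mul, Module.End.mul_apply, ← SU1_x W' b c hbc]
        refine congrArg (SU1_hH W h) ?_
        by_cases hb : e' b = i
        · have hph : W.xo (Sum.inl b) (Sum.inl c) = W.ph (Sum.inl b) (Sum.inl c) := by
            unfold WMod.ph
            rw [SU1_d0 W (Sum.inl c) (Sum.inl b), add_zero]
            show ¬ e' c = e' b + 1
            omega
          have hph' : W'.ph b c = W'.xo b c := by
            unfold WMod.ph
            rw [SU1_d0 W' c b (by omega), add_zero]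
          rw [hph, hT _ (fun a' b' => rx.T_ph a' b' (Sum.inl b) (Sum.inl c) hb), rx.lam_ph1 b c hb,
            hph']
        · rw [hT _ (fun a' b' => rx.T_x a' b' b c hb hc), rx.lam_x b c hb hc]
    · -- the entries of the new columns
      have hc : e' b = i + 1 := hp
      have hk : kap e' C i (X ⟨(Sum.inl b, Sum.inr a), hp⟩) = - X (Sum.inr (Sum.inr (a, b))) := by
        unfold kap
        rw [aeval_X]
      rw [hk, neg_mul, map_neg, LinearMap.neg_apply, SU1_pr3, SU1_Lam_pr, SU1_Lam_pr, map_mul,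
        SU1_hH_X, Module.End.mul_apply, SU1_H_eq W a b hc, LinearMap.neg_apply, neg_neg]
  · rcases p2 with c | a'
    · -- the entries of the new rows
      have hc : i = e' c + 1 := hp
      have hk : kap e' C i (X ⟨(Sum.inr a, Sum.inl c), hp⟩) =
          ∑ b : ι', if hb : e' b = e' c + 1 then
            X (Sum.inr (Sum.inl (a, b))) * X (Sum.inl ⟨(b, c), hb⟩) else 0 := by
        unfold kap
        rw [aeval_X]
      have hph : W.xo (Sum.inr a) (Sum.inl c) = W.ph (Sum.inr a) (Sum.inl c) := by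
        unfold WMod.ph
        rw [SU1_d0 W (Sum.inl c) (Sum.inr a), add_zero]
        show ¬ e' c = i + 1
        omega
      rw [hk, Finset.sum_mul, map_sum, LinearMap.sum_apply, SU1_Lam_pr, hH, hph,
        hT _ (fun a' b' => rx.T_ph a' b' (Sum.inr a) (Sum.inl c) rfl), rx.lam_ph2, map_sum, map_sum]
      refine Finset.sum_congr rfl fun b _ => ?_
      by_cases hb : e' b = i
      · have hbc : e' b = e' c + 1 := hb.trans hc
        have hph' : W'.ph b c = W'.x (X ⟨(b, c), hbc⟩) := by
          unfold WMod.ph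
          rw [SU1_d0 W' c b (by omega), add_zero, SU1_x W' b c hbc]
        rw [if_pos hb, dif_pos hbc, mul_assoc, SU1_pr1, SU1_pr2, SU1_Lam_pr, map_mul, map_mul,
          SU1_hT_X, Module.End.mul_apply, Module.End.mul_apply, hph']
        exact congrArg (SU1_hH W h) (hTT (a, b) _).symm
      · have hbc : ¬ e' b = e' c + 1 := fun h1 => hb (h1.trans hc.symm)
        rw [if_neg hb, dif_neg hbc, map_zero, map_zero, zero_mul, map_zero, LinearMap.zero_apply]
    · have h1 : i = i + 1 := hp
      omega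

end Main

theorem p_SU1 : Stmt_SU1 := by
  intro ι' C _ _ _ _ e' i L' B _ _ _ _ W' W rx
  have hX : ∀ (p : Co (addDeg e' C i)) (s : SR e' C) (w : L'),
      W.x (X p) (SU1_Lam rx s w) = SU1_Lam rx (kap e' C i (X p) * s) w := by
    intro p s w
    refine SU1_pr_ind (fun s => W.x (X p) (SU1_Lam rx s w) =
      SU1_Lam rx (kap e' C i (X p) * s) w) (fun f g h => SU1_gen rx p f g h w) ?_ s
    intro q q' hq hq'
    show W.x (X p) (SU1_Lam rx (q + q') w) = SU1_Lam rx (kap e' C i (X p) * (q + q')) w
    rw [mul_add, map_add, map_add, LinearMap.add_apply, LinearMap.add_apply, map_add, hq, hq']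
  refine ⟨SU1_Lam rx, ?_, ?_, ?_⟩
  · intro w
    have h1 : (1 : SR e' C) = SU1_pr 1 1 1 := by
      unfold SU1_pr
      simp only [map_one, mul_one]
    rw [h1, SU1_Lam_pr, map_one, map_one, map_one]
    rfl
  · intro f s w
    refine SU1_pr_ind (fun s => SU1_Lam rx (rename Sum.inl f * s) w = SU1_Lam rx s (W'.x f w))
      ?_ ?_ s
    · intro f' g h
      have h1 : rename Sum.inl f * SU1_pr f' g h = (SU1_pr (f' * f) g h : SR e' C) := by
        unfold SU1_pr
        simp only [map_mul]
        ring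
      show SU1_Lam rx (rename Sum.inl f * SU1_pr f' g h) w = SU1_Lam rx (SU1_pr f' g h) (W'.x f w)
      rw [h1, SU1_Lam_pr, SU1_Lam_pr, map_mul, Module.End.mul_apply]
    · intro q q' hq hq'
      show SU1_Lam rx (rename Sum.inl f * (q + q')) w = SU1_Lam rx (q + q') (W'.x f w)
      rw [mul_add, map_add, map_add, LinearMap.add_apply, LinearMap.add_apply, hq, hq']
  · intro g
    induction g using MvPolynomial.induction_on with
    | C c =>
      intro s w
      rw [W.x_C, ← MvPolynomial.algebraMap_eq, AlgHom.commutes, Algebra.algebraMap_eq_smul_one,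
        smul_mul_assoc, one_mul, map_smul]
      rfl
    | add p q hp hq =>
      intro s w
      rw [map_add, LinearMap.add_apply, hp, hq, map_add, add_mul, map_add, LinearMap.add_apply]
    | mul_X p j hp =>
      intro s w
      rw [map_mul, Module.End.mul_apply, hX, hp, map_mul (kap e' C i) p (X j), mul_assoc]

end Pool.DM
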