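import Pool.Agent.Work.MP_c20ce7_up.Interface

set_option autoImplicit false

/-!
# SU2: polynomials which vanish on the extended set
-/

open MvPolynomial

noncomputable section

namespace Pool.DM

/-- A polynomial in two groups of variables as a polynomial in the second group. -/
def SU2_phi (σ τ : Type) : MvPolynomial (σ ⊕ τ) ℂ →ₐ[ℂ] MvPolynomial τ (MvPolynomial σ ℂ) :=
  aeval (Sum.elim (fun c => C (X c)) X)

/-- The inverse map. -/
def SU2_psi (σ τ : Type) : MvPolynomial τ (MvPolynomial σ ℂ) →+* MvPolynomial (σ ⊕ τ) ℂ :=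
  eval₂Hom (rename (R := ℂ) (Sum.inl : σ → σ ⊕ τ)).toRingHom (fun y => X (Sum.inr y))

theorem SU2_phi_C (σ τ : Type) (a : ℂ) : SU2_phi σ τ (C a) = C (C a) := by
  rw [← MvPolynomial.algebraMap_eq, AlgHom.commutes]
  rfl

theorem SU2_phi_inl (σ τ : Type) (c : σ) : SU2_phi σ τ (X (Sum.inl c)) = C (X c) := by
  rw [SU2_phi, aeval_X, Sum.elim_inl]

theorem SU2_phi_inr (σ τ : Type) (y : τ) : SU2_phi σ τ (X (Sum.inr y)) = X y := by
  rw [SU2_phi, aeval_X, Sum.elim_inr]

theorem SU2_psi_C (σ τ : Type) (f : MvPolynomial σ ℂ) : SU2_psi σ τ (C f) = rename Sum.inl f := by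
  rw [SU2_psi, coe_eval₂Hom, eval₂_C]
  rfl

theorem SU2_psi_X (σ τ : Type) (y : τ) : SU2_psi σ τ (X y) = X (Sum.inr y) := by
  rw [SU2_psi, coe_eval₂Hom, eval₂_X]

theorem SU2_psi_phi_X (σ τ : Type) (n : σ ⊕ τ) : SU2_psi σ τ (SU2_phi σ τ (X n)) = X n := by
  cases n with
  | inl c => rw [SU2_phi_inl, SU2_psi_C, rename_X]
  | inr y => rw [SU2_phi_inr, SU2_psi_X]

theorem SU2_psi_phi (σ τ : Type) (p : MvPolynomial (σ ⊕ τ) ℂ) : SU2_psi σ τ (SU2_phi σ τ p) = p := by
  induction p using MvPolynomial.induction_on with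
  | C a => rw [SU2_phi_C, SU2_psi_C, rename_C]
  | add p q hp hq => rw [map_add, map_add, hp, hq]
  | mul_X p n hp => rw [map_mul, map_mul, hp, SU2_psi_phi_X]

theorem SU2_eval_X (σ τ : Type) (x : σ → ℂ) (y : τ → ℂ) (n : σ ⊕ τ) :
    eval y (map (eval x) (SU2_phi σ τ (X n))) = eval (Sum.elim x y) (X n) := by
  cases n with
  | inl c => rw [SU2_phi_inl, map_C, eval_C, eval_X, eval_X, Sum.elim_inl]
  | inr z => rw [SU2_phi_inr, map_X, eval_X, eval_X, Sum.elim_inr]

theorem SU2_eval (σ τ : Type) (x : σ → ℂ) (y : τ → ℂ) (p : MvPolynomial (σ ⊕ τ) ℂ) :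
    eval y (map (eval x) (SU2_phi σ τ p)) = eval (Sum.elim x y) p := by
  induction p using MvPolynomial.induction_on with
  | C a => rw [SU2_phi_C, map_C, eval_C, eval_C, eval_C]
  | add p q hp hq => rw [map_add, map_add, map_add, map_add, hp, hq]
  | mul_X p n hp => rw [map_mul, map_mul, map_mul, map_mul, hp, SU2_eval_X]

/-- Polynomials which vanish on `Z × everything`. -/
theorem SU2_split (σ τ : Type) (Z : Set (σ → ℂ)) (p : MvPolynomial (σ ⊕ τ) ℂ)
    (h : ∀ x ∈ Z, ∀ y : τ → ℂ, eval (Sum.elim x y) p = 0) :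
    ∃ (n : ℕ) (f : Fin n → MvPolynomial σ ℂ) (s : Fin n → MvPolynomial (σ ⊕ τ) ℂ),
      (∀ j, ∀ x ∈ Z, eval x (f j) = 0) ∧ p = ∑ j, rename Sum.inl (f j) * s j := by
  classical
  set q := SU2_phi σ τ p with hq
  refine ⟨q.support.card, fun j => coeff (q.support.equivFin.symm j : τ →₀ ℕ) q,
    fun j => ((q.support.equivFin.symm j : τ →₀ ℕ)).prod fun y k => (X (Sum.inr y)) ^ k, ?_, ?_⟩
  · intro j x hx
    have h1 : map (eval x) q = 0 := by
      refine MvPolynomial.funext fun y => ?_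
      rw [hq, SU2_eval, h x hx y, map_zero]
    have h2 := congrArg (coeff (q.support.equivFin.symm j : τ →₀ ℕ)) h1
    rw [coeff_map, coeff_zero] at h2
    exact h2
  · have h1 : p = SU2_psi σ τ q := (SU2_psi_phi σ τ p).symm
    have h2 : SU2_psi σ τ q = ∑ m ∈ q.support, rename Sum.inl (coeff m q) *
        (m.prod fun y k => (X (Sum.inr y)) ^ k) := by
      conv_lhs => rw [← support_sum_monomial_coeff q]
      rw [map_sum]
      refine Finset.sum_congr rfl fun m _ => ?_
      rw [SU2_psi, coe_eval₂Hom, eval₂_monomial]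
      rfl
    rw [h1, h2, ← Finset.sum_coe_sort, ← Equiv.sum_comp q.support.equivFin.symm]

section Point

variable {ι' C : Type} [Fintype ι'] [DecidableEq ι'] [Fintype C] [DecidableEq C]

theorem SU2_mat_pos {ι : Type} [Fintype ι] [DecidableEq ι] (e : ι → ℤ) (x : Co e → ℂ) (a b : ι)
    (h : e a = e b + 1) : mat e x a b = x ⟨(a, b), h⟩ := by
  unfold mat
  exact dif_pos h

theorem SU2_mat_neg {ι : Type} [Fintype ι] [DecidableEq ι] (e : ι → ℤ) (x : Co e → ℂ) (a b : ι)
    (h : ¬ e a = e b + 1) : mat e x a b = 0 := by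
  unfold mat
  exact dif_neg h

/-- The point `(1 + T) [x', α; 0, 0] (1 + T)⁻¹`. -/
def SU2_pt (e' : ι' → ℤ) (i : ℤ) (x' : Co e' → ℂ) (y : (C × ι') ⊕ (C × ι') → ℂ) :
    Co (addDeg e' C i) → ℂ :=
  fun p => eval (Sum.elim x' y) (kap e' C i (X p))

theorem SU2_pt1 (e' : ι' → ℤ) (i : ℤ) (x' : Co e' → ℂ) (y : (C × ι') ⊕ (C × ι') → ℂ) (b c : ι')
    (h : e' b = e' c + 1) : SU2_pt e' i x' y ⟨(Sum.inl b, Sum.inl c), h⟩ =
      x' ⟨(b, c), h⟩ + if e' c = i then ∑ a : C, y (Sum.inr (a, b)) * y (Sum.inl (a, c)) else 0 := by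
  rw [SU2_pt, kap, aeval_X]
  simp only [map_add, eval_X, Sum.elim_inl]
  split_ifs with h1
  · simp
  · simp

theorem SU2_pt2 (e' : ι' → ℤ) (i : ℤ) (x' : Co e' → ℂ) (y : (C × ι') ⊕ (C × ι') → ℂ) (a : C) (c : ι')
    (h : i = e' c + 1) : SU2_pt e' i x' y ⟨(Sum.inr a, Sum.inl c), h⟩ =
      ∑ b : ι', if hb : e' b = e' c + 1 then y (Sum.inl (a, b)) * x' ⟨(b, c), hb⟩ else 0 := by
  rw [SU2_pt, kap, aeval_X]
  simp only [map_sum]
  refine Finset.sum_congr rfl fun b _ => ?_
  split_ifs with h1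
  · simp
  · simp

theorem SU2_pt3 (e' : ι' → ℤ) (i : ℤ) (x' : Co e' → ℂ) (y : (C × ι') ⊕ (C × ι') → ℂ) (a : C) (c : ι')
    (h : e' c = i + 1) : SU2_pt e' i x' y ⟨(Sum.inl c, Sum.inr a), h⟩ = - y (Sum.inr (a, c)) := by
  rw [SU2_pt, kap, aeval_X]
  simp

theorem SU2_mem (e' : ι' → ℤ) (i : ℤ) (Z' : Set (Co e' → ℂ)) (x' : Co e' → ℂ) (hx : x' ∈ Z')
    (y : (C × ι') ⊕ (C × ι') → ℂ) : SU2_pt e' i x' y ∈ ZExt e' C i Z' := by
  refine ⟨x', hx, Matrix.of fun a b => if e' b = i then y (Sum.inl (a, b)) else 0, ?_, ?_⟩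
  · intro c a h
    by_contra h1
    exact h (by simp [h1])
  · ext r c
    rw [Matrix.mul_apply, Matrix.mul_apply, Fintype.sum_sum_type]
    rcases r with b | a
    · have e1 : ∀ k : ι', emb (Matrix.of fun a b => if e' b = i then y (Sum.inl (a, b)) else 0 :
          Matrix C ι' ℂ) (Sum.inl k) c = if k = c then 1 else 0 := fun k => rfl
      have e2 : ∀ a : C, emb (Matrix.of fun a b => if e' b = i then y (Sum.inl (a, b)) else 0 :
          Matrix C ι' ℂ) (Sum.inr a) c = if e' c = i then y (Sum.inl (a, c)) else 0 := fun k => rfl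
      have e3 : ∀ k : ι', emb (Matrix.of fun a b => if e' b = i then y (Sum.inl (a, b)) else 0 :
          Matrix C ι' ℂ) (Sum.inl b) k = if b = k then 1 else 0 := fun k => rfl
      simp only [e1, e2, e3, mul_ite, mul_one, mul_zero, ite_mul, one_mul, zero_mul,
        Finset.sum_ite_eq', Finset.sum_ite_eq, Finset.mem_univ, if_true]
      by_cases h : e' b = e' c + 1
      · rw [SU2_mat_pos _ _ _ _ (show addDeg e' C i (Sum.inl b) = addDeg e' C i (Sum.inl c) + 1 from h),
          SU2_mat_pos _ _ _ _ h, SU2_pt1]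
        by_cases hc : e' c = i
        · rw [if_pos hc]
          have e4 : ∀ a : C, mat (addDeg e' C i) (SU2_pt e' i x' y) (Sum.inl b) (Sum.inr a) =
              - y (Sum.inr (a, b)) := by
            intro a
            have h5 : e' b = i + 1 := by rw [h, hc]
            rw [SU2_mat_pos _ _ _ _
              (show addDeg e' C i (Sum.inl b) = addDeg e' C i (Sum.inr a) + 1 from h5), SU2_pt3]
          simp only [e4, if_pos hc]
          rw [add_assoc, ← Finset.sum_add_distrib]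
          simp
        · simp [hc]
      · rw [SU2_mat_neg _ _ _ _ (show ¬ addDeg e' C i (Sum.inl b) = addDeg e' C i (Sum.inl c) + 1 from h),
          SU2_mat_neg _ _ _ _ h, zero_add]
        refine Finset.sum_eq_zero fun a _ => ?_
        by_cases hc : e' c = i
        · rw [if_pos hc, SU2_mat_neg _ _ _ _ (fun h5 => h (by
            have h6 : e' b = i + 1 := h5
            rw [h6, hc])), zero_mul]
        · rw [if_neg hc]
    · have e1 : ∀ k : ι', emb (Matrix.of fun a b => if e' b = i then y (Sum.inl (a, b)) else 0 :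
          Matrix C ι' ℂ) (Sum.inl k) c = if k = c then 1 else 0 := fun k => rfl
      have e3 : ∀ k : ι', emb (Matrix.of fun a b => if e' b = i then y (Sum.inl (a, b)) else 0 :
          Matrix C ι' ℂ) (Sum.inr a) k = if e' k = i then y (Sum.inl (a, k)) else 0 := fun k => rfl
      have e4 : ∀ a' : C, mat (addDeg e' C i) (SU2_pt e' i x' y) (Sum.inr a) (Sum.inr a') = 0 := by
        intro a'
        exact SU2_mat_neg _ _ _ _ (fun h5 => by
          have h6 : i = i + 1 := h5
          omega)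
      simp only [e1, e3, e4, mul_ite, mul_one, mul_zero, ite_mul, zero_mul,
        Finset.sum_ite_eq', Finset.mem_univ, if_true, Finset.sum_const_zero, add_zero]
      by_cases h : i = e' c + 1
      · rw [SU2_mat_pos _ _ _ _ (show addDeg e' C i (Sum.inr a) = addDeg e' C i (Sum.inl c) + 1 from h),
          SU2_pt2]
        refine Finset.sum_congr rfl fun b _ => ?_
        by_cases hb : e' b = e' c + 1
        · rw [dif_pos hb, if_pos (hb.trans h.symm), SU2_mat_pos _ _ _ _ hb]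
        · rw [dif_neg hb, SU2_mat_neg _ _ _ _ hb]
          simp
      · rw [SU2_mat_neg _ _ _ _ (show ¬ addDeg e' C i (Sum.inr a) = addDeg e' C i (Sum.inl c) + 1 from h)]
        symm
        refine Finset.sum_eq_zero fun b _ => ?_
        by_cases hb : e' b = i
        · rw [if_pos hb, SU2_mat_neg _ _ _ _ (fun h5 => h (hb.symm.trans h5)), mul_zero]
        · rw [if_neg hb]

theorem SU2_eval_kap (e' : ι' → ℤ) (i : ℤ) (x' : Co e' → ℂ) (y : (C × ι') ⊕ (C × ι') → ℂ)
    (g : MvPolynomial (Co (addDeg e' C i)) ℂ) :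
    eval (Sum.elim x' y) (kap e' C i g) = eval (SU2_pt e' i x' y) g := by
  induction g using MvPolynomial.induction_on with
  | C a =>
    have h : kap e' C i (MvPolynomial.C a) = MvPolynomial.C a := by
      rw [← MvPolynomial.algebraMap_eq, AlgHom.commutes]
      rfl
    rw [h, eval_C, eval_C]
  | add p q hp hq => rw [map_add, map_add, map_add, hp, hq]
  | mul_X p n hp => rw [map_mul, map_mul, map_mul, hp, eval_X, SU2_pt]

end Point

theorem p_SU2 : Stmt_SU2 := by
  intro ι' C _ _ _ _ e' i Z' g hg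
  exact SU2_split (Co e') ((C × ι') ⊕ (C × ι')) Z' (kap e' C i g) fun x' hx' y => by
    rw [SU2_eval_kap]
    exact hg _ (SU2_mem e' i Z' x' hx' y)

end Pool.DM
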