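import Pool.Agent.Work.MP_c20ce7_up.Interface

set_option autoImplicit false

/-!
# SUP: functions which vanish on the extended set are nilpotent on the vectors `lam w`
-/

open MvPolynomial

noncomputable section

namespace Pool.DM

theorem p_USUP (h1 : Stmt_SU1) (h2 : Stmt_SU2) : Stmt_USUP := by
  intro ι' C _ _ _ _ e' i L' B _ _ _ _ W' W rx Z' hZ g hg w
  obtain ⟨Λ, hΛ1, hΛf, hΛg⟩ := h1 ι' C e' i L' B W' W rx
  obtain ⟨n, f, s, hf, hk⟩ := h2 ι' C e' i Z' g hg
  -- the ideal of the symbols which kill `w`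
  let A : Ideal (SR e' C) :=
    { carrier := {t | ∀ s, Λ (t * s) w = 0}
      add_mem' := by
        intro a b ha hb s
        rw [add_mul, map_add, LinearMap.add_apply, ha s, hb s, add_zero]
      zero_mem' := by
        intro s
        rw [zero_mul, map_zero, LinearMap.zero_apply]
      smul_mem' := by
        intro c a ha s
        rw [smul_eq_mul, mul_comm c a, mul_assoc]
        exact ha (c * s) }
  have hA : ∀ t, t ∈ A ↔ ∀ s, Λ (t * s) w = 0 := fun t => Iff.rfl
  have hfr : ∀ j, rename Sum.inl (f j) ∈ A.radical := by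
    intro j
    obtain ⟨N, hN⟩ := hZ (f j) (hf j) w
    refine ⟨N, ?_⟩
    rw [hA]
    intro s
    rw [← map_pow, hΛf, map_pow, hN, map_zero]
  have hkr : kap e' C i g ∈ A.radical := by
    rw [hk]
    exact Ideal.sum_mem _ fun j _ => Ideal.mul_mem_right _ _ (hfr j)
  obtain ⟨k, hk2⟩ := hkr
  refine ⟨k, ?_⟩
  have h3 : ∀ (m : ℕ) (t : SR e' C), (W.x g ^ m) (Λ t w) = Λ (kap e' C i g ^ m * t) w := by
    intro m
    induction m with
    | zero => intro t; rw [pow_zero, pow_zero, one_mul, Module.End.one_apply]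
    | succ m ih =>
      intro t
      rw [pow_succ, Module.End.mul_apply, hΛg, ih, ← mul_assoc, ← pow_succ]
  rw [← hΛ1, h3]
  exact (hA _).1 hk2 1

end Pool.DM
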