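import Pool.Agent.Work.MP_c20ce7_up.B_UP
import Pool.Agent.Work.MP_c20ce7_up.B_SU1
import Pool.Agent.Work.MP_c20ce7_up.B_SU2
import Pool.Agent.Work.MP_c20ce7_up.B_SUP

set_option autoImplicit false

namespace Pool.DM

/-- **THE UP-STEP**, unconditional. -/
theorem stmt_UPSTEP : Stmt_UPSTEP := p_UP (p_USUP p_SU1 p_SU2)

end Pool.DM
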