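import Pool.Agent.Work.MP_c20ce7_up.Interface
import Pool.Agent.Work.MP_c20ce7_dm82.TR2

set_option autoImplicit false
set_option linter.unusedSectionVars false

/-!
# The abstract row extension and its translation
-/

open MvPolynomial

noncomputable section

namespace Pool.DM

section Abs

variable {K R E C : Type} [Fintype K] [DecidableEq K] [Fintype R] [DecidableEq R] [Fintype E] [DecidableEq E]
variable [Fintype C] [DecidableEq C] {L' B : Type} [AddCommGroup L'] [Module ℂ L'] [AddCommGroup B] [Module ℂ B]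

/-- The field of the row operation. -/
def WMod.ath (V : WMod (K ⊕ (C × E)) B) (p : R → E → K) (a : C) (b : R) : Module.End ℂ B :=
  ∑ e : E, V.x (X (Sum.inl (p b e))) * V.d (X (Sum.inr (a, e)))

/-- Abstract version of `RowExt` (sink orientation). -/
structure ARow (p : R → E → K) (V' : WMod K L') (V : WMod (K ⊕ (C × E)) B) where
  T : C → R → Module.End ℂ B
  lam : L' →ₗ[ℂ] B
  T_comm : ∀ a b a' b', T a b * T a' b' = T a' b' * T a b
  T_x : ∀ a b k, T a b * V.x (X k) = V.x (X k) * T a b
  T_d : ∀ a b k, (∀ b' e, p b' e ≠ k) → T a b * V.d (X (Sum.inl k)) = V.d (X (Sum.inl k)) * T a b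
  T_th : ∀ a b a' b', V.ath p a b * T a' b' - T a' b' * V.ath p a b = if a = a' ∧ b = b' then 1 else 0
  T_nab : ∀ b e a' b', (V.d (X (Sum.inl (p b e))) + ∑ a, V.d (X (Sum.inr (a, e))) * T a b) * T a' b' =
    T a' b' * (V.d (X (Sum.inl (p b e))) + ∑ a, V.d (X (Sum.inr (a, e))) * T a b)
  lam_x : ∀ k w, V.x (X (Sum.inl k)) (lam w) = lam (V'.x (X k) w)
  lam_d : ∀ k w, (∀ b e, p b e ≠ k) → V.d (X (Sum.inl k)) (lam w) = lam (V'.d (X k) w)
  lam_x2 : ∀ a e w, V.x (X (Sum.inr (a, e))) (lam w) = ∑ b : R, T a b (lam (V'.x (X (p b e)) w))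
  lam_th : ∀ a b w, V.ath p a b (lam w) = 0
  lam_nab : ∀ b e w, (V.d (X (Sum.inl (p b e))) + ∑ a, V.d (X (Sum.inr (a, e))) * T a b) (lam w) =
    lam (V'.d (X (p b e)) w)

end Abs

/-! ## Inverse Fourier transform -/

theorem four_inv {σ : Type} [Fintype σ] [DecidableEq σ] {L : Type} [AddCommGroup L] [Module ℂ L]
    (A : σ → Prop) (V : WMod σ L) : ∃ W : WMod σ L, IsFour A W V := by
  classical
  let P : σ → Module.End ℂ L := fun k => if A k then - V.d (X k) else V.x (X k)
  let Q : σ → Module.End ℂ L := fun k => if A k then V.x (X k) else V.d (X k)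
  have hxx : ∀ i j, V.x (X i) * V.x (X j) = V.x (X j) * V.x (X i) := fun i j => by
    rw [← map_mul, mul_comm, map_mul]
  have hdd : ∀ i j, V.d (X i) * V.d (X j) = V.d (X j) * V.d (X i) := fun i j => by
    rw [← map_mul, mul_comm, map_mul]
  have hdx : ∀ i j, V.d (X i) * V.x (X j) = V.x (X j) * V.d (X i) + if i = j then 1 else 0 := by
    intro i j
    rw [← V.comm i j]; abel
  have hP : ∀ i j, P i * P j = P j * P i := by
    intro i j
    simp only [P]
    split_ifs with h1 h2 h2
    · rw [neg_mul_neg, neg_mul_neg, hdd]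
    · have : i ≠ j := fun h => h2 (h ▸ h1)
      rw [neg_mul, mul_neg, hdx, if_neg this, add_zero]
    · have : j ≠ i := fun h => h1 (h ▸ h2)
      rw [neg_mul, mul_neg, hdx, if_neg this, add_zero]
    · exact hxx i j
  have hQ : ∀ i j, Q i * Q j = Q j * Q i := by
    intro i j
    simp only [Q]
    split_ifs with h1 h2 h2
    · exact hxx i j
    · have : j ≠ i := fun h => h2 (h ▸ h1)
      rw [hdx, if_neg this, add_zero]
    · have : i ≠ j := fun h => h1 (h ▸ h2)
      rw [hdx, if_neg this, add_zero]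
    · exact hdd i j
  have hc : ∀ i j, Q i * P j - P j * Q i = if i = j then 1 else 0 := by
    intro i j
    simp only [P, Q]
    split_ifs with h1 h2 h3 h3 h2 h3 h3
    · subst h3
      rw [mul_neg, neg_mul, hdx, if_pos rfl]; abel
    · rw [mul_neg, neg_mul, hdx, if_neg (Ne.symm h3)]; abel
    · exact absurd (h3 ▸ h1) h2
    · rw [hxx]; abel
    · exact absurd (h3 ▸ h2) h1
    · rw [mul_neg, neg_mul, hdd]; abel
    · subst h3
      rw [hdx, if_pos rfl]; abel
    · rw [hdx, if_neg h3]; abel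
  refine ⟨WMod.mk' P Q hP hQ hc, ⟨fun k hk => ?_, fun k hk => ?_, fun k hk => ?_, fun k hk => ?_⟩⟩
  · change _ = homOf Q hQ (X k)
    rw [homOf_X]; simp [Q, hk]
  · change _ = - homOf P hP (X k)
    rw [homOf_X]; simp [P, hk]
  · change _ = homOf P hP (X k)
    rw [homOf_X]; simp [P, hk]
  · change _ = homOf Q hQ (X k)
    rw [homOf_X]; simp [Q, hk]

theorem IsFour.stable {σ : Type} [DecidableEq σ] {L : Type} [AddCommGroup L] [Module ℂ L]
    {A : σ → Prop} {W V : WMod σ L} (h : IsFour A W V) (N : Submodule ℂ L) :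
    W.Stable N ↔ V.Stable N := by
  classical
  constructor
  · intro hN u hu
    refine ⟨fun i => ?_, fun i => ?_⟩
    · by_cases hA : A i
      · rw [h.xA i hA]; exact (hN u hu).2 i
      · rw [h.xN i hA]; exact (hN u hu).1 i
    · by_cases hA : A i
      · rw [h.dA i hA]; exact N.neg_mem ((hN u hu).1 i)
      · rw [h.dN i hA]; exact (hN u hu).2 i
  · intro hN u hu
    refine ⟨fun i => ?_, fun i => ?_⟩
    · by_cases hA : A i
      · have := (hN u hu).2 i
        rw [h.dA i hA] at this
        have h2 := N.neg_mem this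
        rwa [LinearMap.neg_apply, neg_neg] at h2
      · rw [← h.xN i hA]; exact (hN u hu).1 i
    · by_cases hA : A i
      · rw [← h.xA i hA]; exact (hN u hu).1 i
      · rw [← h.dN i hA]; exact (hN u hu).2 i

theorem IsFour.simple {σ : Type} [DecidableEq σ] {L : Type} [AddCommGroup L] [Module ℂ L]
    {A : σ → Prop} {W V : WMod σ L} (h : IsFour A W V) : W.Simple ↔ V.Simple := by
  unfold WMod.Simple WMod.SimpleSub
  simp only [h.stable]

theorem IsFour.growth {σ : Type} [Fintype σ] [DecidableEq σ] {L : Type} [AddCommGroup L] [Module ℂ L]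
    {A : σ → Prop} {W V : WMod σ L} (h : IsFour A W V) : W.Growth ↔ V.Growth := by
  classical
  constructor
  · rintro ⟨G, c, hG⟩
    refine ⟨G, c, ⟨hG.mono, hG.fin, fun k i u hu => ?_, fun k i u hu => ?_, hG.exh, hG.bound⟩⟩
    · by_cases hA : A i
      · rw [h.xA i hA]; exact hG.hd k i u hu
      · rw [h.xN i hA]; exact hG.hx k i u hu
    · by_cases hA : A i
      · rw [h.dA i hA]; exact (G (k + 1)).neg_mem (hG.hx k i u hu)
      · rw [h.dN i hA]; exact hG.hd k i u hu
  · rintro ⟨G, c, hG⟩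
    refine ⟨G, c, ⟨hG.mono, hG.fin, fun k i u hu => ?_, fun k i u hu => ?_, hG.exh, hG.bound⟩⟩
    · by_cases hA : A i
      · have := hG.hd k i u hu
        rw [h.dA i hA] at this
        have h2 := (G (k + 1)).neg_mem this
        rwa [LinearMap.neg_apply, neg_neg] at h2
      · rw [← h.xN i hA]; exact hG.hx k i u hu
    · by_cases hA : A i
      · rw [← h.xA i hA]; exact hG.hx k i u hu
      · rw [← h.dN i hA]; exact hG.hd k i u hu

/-! ## Sink operators through the Fourier transform -/

section SinkOps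

variable {ι : Type} [Fintype ι] [DecidableEq ι] {e : ι → ℤ} {i : ℤ} {L : Type} [AddCommGroup L] [Module ℂ L]

theorem IsFour.ph {W V : WMod (Co e) L} (h : IsFour (Src e i) W V) {b : ι} (hb : e b = i) (c : ι) :
    W.ph b c = V.x (pol e b c) := by
  unfold WMod.ph pol
  by_cases h1 : e b = e c + 1
  · rw [dif_pos h1, W.xo_of h1, W.dO_of_not (by omega), add_zero, h.xN]
    intro h2
    have h2 : e c = i := h2
    omega
  · rw [dif_neg h1, W.xo_of_not h1, zero_add]
    by_cases h2 : e c = e b + 1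
    · rw [dif_pos h2, W.dO_of h2, h.xA]
      exact hb
    · rw [dif_neg h2, W.dO_of_not h2, map_zero]

theorem IsFour.dp {W V : WMod (Co e) L} (h : IsFour (Src e i) W V) {b : ι} (hb : e b = i) (c : ι) :
    W.dp b c = V.d (pol e b c) := by
  unfold WMod.dp pol
  by_cases h1 : e b = e c + 1
  · rw [dif_pos h1, W.dO_of h1, W.xo_of_not (by omega), sub_zero, h.dN]
    intro h2
    have h2 : e c = i := h2
    omega
  · rw [dif_neg h1, W.dO_of_not h1, zero_sub]
    by_cases h2 : e c = e b + 1
    · rw [dif_pos h2, W.xo_of h2, h.dA]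
      exact hb
    · rw [dif_neg h2, W.xo_of_not h2, map_zero, neg_zero]

theorem IsFour.xo {W V : WMod (Co e) L} (h : IsFour (Src e i) W V) {b c : ι} (hc : e c ≠ i)
    (hbc : e b = e c + 1) : W.xo b c = V.x (X ⟨(b, c), hbc⟩) := by
  rw [W.xo_of hbc, h.xN]
  exact hc

theorem IsFour.dO {W V : WMod (Co e) L} (h : IsFour (Src e i) W V) {b c : ι} (hc : e c ≠ i)
    (hbc : e b = e c + 1) : W.dO b c = V.d (X ⟨(b, c), hbc⟩) := by
  rw [W.dO_of hbc, h.dN]
  exact hc

end SinkOps

end Pool.DM
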