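import Pool.Agent.Work.MP_c20ce7_up.AR0

set_option autoImplicit false
set_option linter.unusedSectionVars false

/-!
# From the abstract row extension to `RowExt`
-/

open MvPolynomial

noncomputable section

namespace Pool.DM

section Coo

variable {ι' : Type} [Fintype ι'] [DecidableEq ι'] (e' : ι' → ℤ) (C : Type) [Fintype C] [DecidableEq C] (i : ℤ)

abbrev RT : Type := {b : ι' // e' b = i}

abbrev ET : Type := {c : ι' // e' c = i - 1 ∨ e' c = i + 1}

/-- The coordinate of the entry `(b, c)` of `φ`. -/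
def pp (b : RT e' i) (c : ET e' i) : Co e' :=
  if h : e' b.1 = e' c.1 + 1 then ⟨(b.1, c.1), h⟩ else ⟨(c.1, b.1), by
    have h1 := b.2
    rcases c.2 with h2 | h2
    · exact absurd (by omega) h
    · show e' c.1 = e' b.1 + 1
      omega⟩

theorem pol_pp (b : RT e' i) (c : ET e' i) : pol e' b.1 c.1 = X (pp e' i b c) := by
  unfold pol pp
  by_cases h : e' b.1 = e' c.1 + 1
  · rw [dif_pos h, dif_pos h]
  · have h2 : e' c.1 = e' b.1 + 1 := by
      have h1 := b.2
      rcases c.2 with h2 | h2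
      · exact absurd (by omega) h
      · omega
    rw [dif_neg h, dif_pos h2, dif_neg h]

theorem pp_ne (b : RT e' i) (c : ET e' i) (k : Co e') (h1 : e' k.1.1 ≠ i) (h2 : e' k.1.2 ≠ i) :
    pp e' i b c ≠ k := by
  intro h
  subst h
  unfold pp at h1 h2
  split_ifs at h1 h2 with h
  · exact h1 b.2
  · exact h2 b.2

theorem pp_inj (b b' : RT e' i) (c c' : ET e' i) (h : pp e' i b c = pp e' i b' c') : b = b' ∧ c = c' := by
  have hb := b.2
  have hb' := b'.2
  unfold pp at h
  split_ifs at h with h1 h2 h2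
  · have h3 := congrArg (fun k : Co e' => k.1.1) h
    have h4 := congrArg (fun k : Co e' => k.1.2) h
    exact ⟨Subtype.ext h3, Subtype.ext h4⟩
  · have h3 := congrArg (fun k : Co e' => e' k.1.1) h
    have h4 := congrArg (fun k : Co e' => e' k.1.2) h
    simp only at h3 h4
    exfalso
    rcases c'.2 with h5 | h5
    · omega
    · omega
  · have h3 := congrArg (fun k : Co e' => e' k.1.1) h
    have h4 := congrArg (fun k : Co e' => e' k.1.2) h
    simp only at h3 h4
    exfalso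
    rcases c.2 with h5 | h5
    · omega
    · omega
  · have h3 := congrArg (fun k : Co e' => k.1.1) h
    have h4 := congrArg (fun k : Co e' => k.1.2) h
    exact ⟨Subtype.ext h4, Subtype.ext h3⟩

/-- The map of coordinates. -/
def fc : Co e' ⊕ (C × ET e' i) → Co (addDeg e' C i)
  | Sum.inl k => ⟨(Sum.inl k.1.1, Sum.inl k.1.2), k.2⟩
  | Sum.inr (a, c) => if h : e' c.1 = i - 1 then
      ⟨(Sum.inr a, Sum.inl c.1), by show i = e' c.1 + 1; omega⟩ else
      ⟨(Sum.inl c.1, Sum.inr a), by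
        show e' c.1 = i + 1
        rcases c.2 with h2 | h2
        · exact absurd h2 h
        · exact h2⟩

theorem fc_inj : Function.Injective (fc e' C i) := by
  rintro (k | ⟨a, c⟩) (k' | ⟨a', c'⟩) h
  · have h3 := congrArg (fun k : Co (addDeg e' C i) => k.1) h
    simp only [fc, Prod.mk.injEq, Sum.inl.injEq] at h3
    exact congrArg Sum.inl (Subtype.ext (Prod.ext h3.1 h3.2))
  · exfalso
    simp only [fc] at h
    split_ifs at h with h1
    · have h3 := congrArg (fun k : Co (addDeg e' C i) => k.1.1) h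
      simp at h3
    · have h3 := congrArg (fun k : Co (addDeg e' C i) => k.1.2) h
      simp at h3
  · exfalso
    simp only [fc] at h
    split_ifs at h with h1
    · have h3 := congrArg (fun k : Co (addDeg e' C i) => k.1.1) h
      simp at h3
    · have h3 := congrArg (fun k : Co (addDeg e' C i) => k.1.2) h
      simp at h3
  · simp only [fc] at h
    split_ifs at h with h1 h2 h2
    · have h3 := congrArg (fun k : Co (addDeg e' C i) => k.1) h
      simp only [Prod.mk.injEq, Sum.inl.injEq, Sum.inr.injEq] at h3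
      exact congrArg Sum.inr (Prod.ext h3.1 (Subtype.ext h3.2))
    · have h3 := congrArg (fun k : Co (addDeg e' C i) => k.1.1) h
      simp at h3
    · have h3 := congrArg (fun k : Co (addDeg e' C i) => k.1.1) h
      simp at h3
    · have h3 := congrArg (fun k : Co (addDeg e' C i) => k.1) h
      simp only [Prod.mk.injEq, Sum.inl.injEq, Sum.inr.injEq] at h3
      exact congrArg Sum.inr (Prod.ext h3.2 (Subtype.ext h3.1))

theorem fc_surj : Function.Surjective (fc e' C i) := by
  rintro ⟨⟨a | a, b | b⟩, h⟩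
  · exact ⟨Sum.inl ⟨(a, b), h⟩, rfl⟩
  · have h' : e' a = i + 1 := h
    refine ⟨Sum.inr (b, ⟨a, Or.inr h'⟩), ?_⟩
    simp only [fc]
    rw [dif_neg (by omega)]
  · have h' : i = e' b + 1 := h
    refine ⟨Sum.inr (a, ⟨b, Or.inl (by omega)⟩), ?_⟩
    simp only [fc]
    rw [dif_pos (by omega)]
  · have h' : i = i + 1 := h
    omega

/-- The bijection of coordinates. -/
def fe : Co e' ⊕ (C × ET e' i) ≃ Co (addDeg e' C i) :=
  Equiv.ofBijective (fc e' C i) ⟨fc_inj e' C i, fc_surj e' C i⟩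

theorem fe_inl (k : Co e') : fe e' C i (Sum.inl k) = ⟨(Sum.inl k.1.1, Sum.inl k.1.2), k.2⟩ := rfl

theorem pol_inl (b c : ι') : pol (addDeg e' C i) (Sum.inl b) (Sum.inl c) =
    rename (fe e' C i) (rename Sum.inl (pol e' b c)) := by
  unfold pol
  by_cases h : e' b = e' c + 1
  · rw [dif_pos h]
    rw [dif_pos (show addDeg e' C i (Sum.inl b) = addDeg e' C i (Sum.inl c) + 1 from h)]
    rw [rename_X, rename_X, fe_inl]
  · rw [dif_neg h]
    rw [dif_neg (show ¬ addDeg e' C i (Sum.inl b) = addDeg e' C i (Sum.inl c) + 1 from h)]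
    by_cases h2 : e' c = e' b + 1
    · rw [dif_pos h2]
      rw [dif_pos (show addDeg e' C i (Sum.inl c) = addDeg e' C i (Sum.inl b) + 1 from h2)]
      rw [rename_X, rename_X, fe_inl]
    · rw [dif_neg h2]
      rw [dif_neg (show ¬ addDeg e' C i (Sum.inl c) = addDeg e' C i (Sum.inl b) + 1 from h2)]
      rw [map_zero, map_zero]

theorem pol_inr (a : C) (c : ET e' i) : pol (addDeg e' C i) (Sum.inr a) (Sum.inl c.1) =
    X (fe e' C i (Sum.inr (a, c))) := by
  unfold pol
  change _ = X (fc e' C i (Sum.inr (a, c)))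
  simp only [fc]
  by_cases h : e' c.1 = i - 1
  · rw [dif_pos (show addDeg e' C i (Sum.inr a) = addDeg e' C i (Sum.inl c.1) + 1 by
      show i = e' c.1 + 1; omega), dif_pos h]
  · have h2 : e' c.1 = i + 1 := by
      rcases c.2 with h2 | h2
      · exact absurd h2 h
      · exact h2
    rw [dif_neg (show ¬ addDeg e' C i (Sum.inr a) = addDeg e' C i (Sum.inl c.1) + 1 by
      show ¬ i = e' c.1 + 1; omega), dif_pos (show addDeg e' C i (Sum.inl c.1) =
      addDeg e' C i (Sum.inr a) + 1 from h2), dif_neg h]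

theorem pol_inr_not (a : C) (c : ι') (h : ¬ (e' c = i - 1 ∨ e' c = i + 1)) :
    pol (addDeg e' C i) (Sum.inr a) (Sum.inl c) = 0 := by
  unfold pol
  rw [dif_neg (show ¬ addDeg e' C i (Sum.inr a) = addDeg e' C i (Sum.inl c) + 1 by
      show ¬ i = e' c + 1; intro h1; exact h (Or.inl (by omega))),
    dif_neg (show ¬ addDeg e' C i (Sum.inl c) = addDeg e' C i (Sum.inr a) + 1 by
      show ¬ e' c = i + 1; intro h1; exact h (Or.inr h1))]

theorem pol_not (b : ι') (hb : e' b = i) (c : ι') (h : ¬ (e' c = i - 1 ∨ e' c = i + 1)) :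
    pol e' b c = 0 := by
  unfold pol
  rw [dif_neg (by intro h1; exact h (Or.inl (by omega))), dif_neg (by intro h1; exact h (Or.inr (by omega)))]

/-- Sums over the neighbours. -/
theorem sum_ET {M : Type} [AddCommMonoid M] (F : ι' → M)
    (h0 : ∀ c, ¬ (e' c = i - 1 ∨ e' c = i + 1) → F c = 0) : ∑ c, F c = ∑ c : ET e' i, F c.1 := by
  classical
  have h1 : ∑ c ∈ Finset.univ.filter (fun c => e' c = i - 1 ∨ e' c = i + 1), F c = ∑ c : ET e' i, F c.1 :=
    Finset.sum_subtype _ (by simp) F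
  rw [← h1, Finset.sum_filter]
  refine Finset.sum_congr rfl fun c _ => ?_
  by_cases h : e' c = i - 1 ∨ e' c = i + 1
  · rw [if_pos h]
  · rw [if_neg h, h0 c h]

theorem sum_RT {M : Type} [AddCommMonoid M] (F : ι' → M) :
    (∑ b, if e' b = i then F b else 0) = ∑ b : RT e' i, F b.1 := by
  classical
  rw [← Finset.sum_filter]
  exact Finset.sum_subtype _ (by simp) F

end Coo

/-! ## `RowExt` from `ARow` -/

section Conv

variable {ι' C : Type} [Fintype ι'] [DecidableEq ι'] [Fintype C] [DecidableEq C] {e' : ι' → ℤ} {i : ℤ}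
variable {L' B : Type} [AddCommGroup L'] [Module ℂ L'] [AddCommGroup B] [Module ℂ B]
variable {W' V' : WMod (Co e') L'} {V3 : WMod (Co e' ⊕ (C × ET e' i)) B} {W : WMod (Co (addDeg e' C i)) B}

theorem rexfe (V3 : WMod (Co e' ⊕ (C × ET e' i)) B) (g : MvPolynomial (Co e' ⊕ (C × ET e' i)) ℂ) :
    (V3.rex (fe e' C i)).x (rename (fe e' C i) g) = V3.x g := V3.rex_x_rename _ g

theorem rexfd (V3 : WMod (Co e' ⊕ (C × ET e' i)) B) (g : MvPolynomial (Co e' ⊕ (C × ET e' i)) ℂ) :
    (V3.rex (fe e' C i)).d (rename (fe e' C i) g) = V3.d g := V3.rex_d_rename _ g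

theorem ARow.T_xg (ar : ARow (C := C) (pp e' i) V' V3) (a : C) (b : RT e' i)
    (g : MvPolynomial (Co e' ⊕ (C × ET e' i)) ℂ) : ar.T a b * V3.x g = V3.x g * ar.T a b := by
  induction g using MvPolynomial.induction_on with
  | C c => rw [V3.x_C]; simp
  | add p q hp hq => rw [map_add, mul_add, add_mul, hp, hq]
  | mul_X p k hp => rw [map_mul, ← mul_assoc, hp, mul_assoc, ar.T_x, mul_assoc]

theorem exists_rowExt (h' : IsFour (Src e' i) W' V') (ar : ARow (C := C) (pp e' i) V' V3)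
    (h : IsFour (Src (addDeg e' C i) i) W (V3.rex (fe e' C i))) :
    ∃ rx : RowExt (C := C) (i := i) W' W, rx.lam = ar.lam := by
  classical
  -- operators
  have P1 : ∀ (b : ι') (hb : e' b = i) (c : ι'),
      W.ph (Sum.inl b) (Sum.inl c) = V3.x (rename Sum.inl (pol e' b c)) := by
    intro b hb c
    rw [h.ph (b := Sum.inl b) hb, pol_inl, rexfe]
  have P2 : ∀ (b : ι') (hb : e' b = i) (c : ι'),
      W.dp (Sum.inl b) (Sum.inl c) = V3.d (rename Sum.inl (pol e' b c)) := by
    intro b hb c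
    rw [h.dp (b := Sum.inl b) hb, pol_inl, rexfd]
  have P3 : ∀ (a : C) (c : ET e' i), W.ph (Sum.inr a) (Sum.inl c.1) = V3.x (X (Sum.inr (a, c))) := by
    intro a c
    rw [h.ph (b := Sum.inr a) rfl, pol_inr, ← rename_X, rexfe]
  have P4 : ∀ (a : C) (c : ET e' i), W.dp (Sum.inr a) (Sum.inl c.1) = V3.d (X (Sum.inr (a, c))) := by
    intro a c
    rw [h.dp (b := Sum.inr a) rfl, pol_inr, ← rename_X, rexfd]
  have P5 : ∀ (a : C) (c : ι'), ¬ (e' c = i - 1 ∨ e' c = i + 1) → W.ph (Sum.inr a) (Sum.inl c) = 0 := by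
    intro a c hc
    rw [h.ph (b := Sum.inr a) rfl, pol_inr_not _ _ _ _ _ hc, map_zero]
  have P6 : ∀ (a : C) (c : ι'), ¬ (e' c = i - 1 ∨ e' c = i + 1) → W.dp (Sum.inr a) (Sum.inl c) = 0 := by
    intro a c hc
    rw [h.dp (b := Sum.inr a) rfl, pol_inr_not _ _ _ _ _ hc, map_zero]
  have P7 : ∀ (b : RT e' i) (c : ET e' i),
      W.ph (Sum.inl b.1) (Sum.inl c.1) = V3.x (X (Sum.inl (pp e' i b c))) := by
    intro b c
    rw [P1 b.1 b.2, pol_pp, rename_X]
  have P8 : ∀ (b : RT e' i) (c : ET e' i),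
      W.dp (Sum.inl b.1) (Sum.inl c.1) = V3.d (X (Sum.inl (pp e' i b c))) := by
    intro b c
    rw [P2 b.1 b.2, pol_pp, rename_X]
  have hW'1 : ∀ (b : ι') (hb : e' b = i) (c : ι'), W'.ph b c = V'.x (pol e' b c) := fun b hb c => h'.ph hb c
  have hW'2 : ∀ (b : ι') (hb : e' b = i) (c : ι'), W'.dp b c = V'.d (pol e' b c) := fun b hb c => h'.dp hb c
  let T : C → ι' → Module.End ℂ B := fun a b => if hb : e' b = i then ar.T a ⟨b, hb⟩ else 0
  have hT : ∀ a (b : RT e' i), T a b.1 = ar.T a b := fun a b => by simp only [T]; rw [dif_pos b.2]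
  have hT0 : ∀ a b, e' b ≠ i → T a b = 0 := fun a b hb => by simp only [T]; rw [dif_neg hb]
  have hth : ∀ (a : C) (b : RT e' i), W.th a b.1 = V3.ath (pp e' i) a b := by
    intro a b
    unfold WMod.th WMod.ath
    rw [sum_ET e' i]
    · exact Finset.sum_congr rfl fun c _ => by rw [P7, P4]
    · intro c hc
      rw [P6 a c hc, mul_zero]
  have hnab : ∀ (b : RT e' i) (c : ET e' i),
      W.dp (Sum.inl b.1) (Sum.inl c.1) + ∑ a, W.dp (Sum.inr a) (Sum.inl c.1) * T a b.1 =
        V3.d (X (Sum.inl (pp e' i b c))) + ∑ a, V3.d (X (Sum.inr (a, c))) * ar.T a b := by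
    intro b c
    rw [P8]
    congr 1
    exact Finset.sum_congr rfl fun a _ => by rw [P4, hT]
  have hnab0 : ∀ (b : ι') (hb : e' b = i) (c : ι'), ¬ (e' c = i - 1 ∨ e' c = i + 1) →
      W.dp (Sum.inl b) (Sum.inl c) + ∑ a, W.dp (Sum.inr a) (Sum.inl c) * T a b = 0 := by
    intro b hb c hc
    rw [P2 b hb, pol_not e' i b hb c hc, map_zero, map_zero, zero_add]
    exact Finset.sum_eq_zero fun a _ => by rw [P6 a c hc, zero_mul]
  refine ⟨⟨T, ar.lam, hT0, ?_, ?_, ?_, ?_, ?_, ?_, ?_, ?_, ?_, ?_, ?_, ?_⟩, rfl⟩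
  · intro a b a' b'
    by_cases hb : e' b = i
    · by_cases hb' : e' b' = i
      · have h1 := hT a ⟨b, hb⟩
        have h2 := hT a' ⟨b', hb'⟩
        simp only at h1 h2
        rw [h1, h2, ar.T_comm]
      · rw [hT0 a' b' hb', mul_zero, zero_mul]
    · rw [hT0 a b hb, mul_zero, zero_mul]
  · intro a b k c hk
    by_cases hb : e' b = i
    · have h1 := hT a ⟨b, hb⟩
      simp only at h1
      rw [h1, h.ph hk, WMod.rex_x]
      exact ar.T_xg _ _ _
    · rw [hT0 a b hb, mul_zero, zero_mul]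
  · intro a b k c hk hc
    by_cases hb : e' b = i
    · have h1 := hT a ⟨b, hb⟩
      simp only at h1
      rw [h1]
      by_cases hkc : addDeg e' C i (Sum.inl k) = addDeg e' C i (Sum.inl c) + 1
      · rw [h.xo (b := Sum.inl k) (c := Sum.inl c) hc hkc, WMod.rex_x]
        exact ar.T_xg _ _ _
      · rw [W.xo_of_not hkc, mul_zero, zero_mul]
    · rw [hT0 a b hb, mul_zero, zero_mul]
  · intro a b k c hk hc
    by_cases hb : e' b = i
    · have h1 := hT a ⟨b, hb⟩
      simp only at h1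
      rw [h1]
      by_cases hkc : e' k = e' c + 1
      · rw [h.dO (b := Sum.inl k) (c := Sum.inl c) hc (show addDeg e' C i (Sum.inl k) =
          addDeg e' C i (Sum.inl c) + 1 from hkc)]
        have h2 : (⟨(Sum.inl k, Sum.inl c), hkc⟩ : Co (addDeg e' C i)) =
          fe e' C i (Sum.inl ⟨(k, c), hkc⟩) := rfl
        rw [h2, ← rename_X, rexfd]
        exact ar.T_d _ _ _ fun b' c' => pp_ne e' i b' c' _ hk hc
      · rw [W.dO_of_not (a := Sum.inl k) (b := Sum.inl c) (show ¬ addDeg e' C i (Sum.inl k) =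
          addDeg e' C i (Sum.inl c) + 1 from hkc), mul_zero, zero_mul]
    · rw [hT0 a b hb, mul_zero, zero_mul]
  · intro a b a' b' hb hb'
    have h1 := hT a' ⟨b', hb'⟩
    have h2 := hth a ⟨b, hb⟩
    simp only at h1 h2
    rw [h1, h2, ar.T_th]
    simp
  · intro b c a' b' hb
    by_cases hb' : e' b' = i
    · by_cases hc : e' c = i - 1 ∨ e' c = i + 1
      · have h1 := hT a' ⟨b', hb'⟩
        have h2 := hnab ⟨b, hb⟩ ⟨c, hc⟩
        simp only at h1 h2
        rw [h1, h2, ar.T_nab]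
      · rw [hnab0 b hb c hc, zero_mul, mul_zero]
    · rw [hT0 a' b' hb', mul_zero, zero_mul]
  · intro k c hk hc w
    by_cases hkc : e' k = e' c + 1
    · rw [h.xo (b := Sum.inl k) (c := Sum.inl c) hc (show addDeg e' C i (Sum.inl k) =
          addDeg e' C i (Sum.inl c) + 1 from hkc)]
      have h2 : (⟨(Sum.inl k, Sum.inl c), hkc⟩ : Co (addDeg e' C i)) =
          fe e' C i (Sum.inl ⟨(k, c), hkc⟩) := rfl
      rw [h2, ← rename_X, rexfe, ar.lam_x, h'.xo hc hkc]
    · rw [W.xo_of_not (a := Sum.inl k) (b := Sum.inl c) (show ¬ addDeg e' C i (Sum.inl k) =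
          addDeg e' C i (Sum.inl c) + 1 from hkc), W'.xo_of_not hkc, LinearMap.zero_apply,
          LinearMap.zero_apply, map_zero]
  · intro k c hk hc w
    by_cases hkc : e' k = e' c + 1
    · rw [h.dO (b := Sum.inl k) (c := Sum.inl c) hc (show addDeg e' C i (Sum.inl k) =
          addDeg e' C i (Sum.inl c) + 1 from hkc)]
      have h2 : (⟨(Sum.inl k, Sum.inl c), hkc⟩ : Co (addDeg e' C i)) =
          fe e' C i (Sum.inl ⟨(k, c), hkc⟩) := rfl
      rw [h2, ← rename_X, rexfd, ar.lam_d _ _ (fun b' c' => pp_ne e' i b' c' _ hk hc), h'.dO hc hkc]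
    · rw [W.dO_of_not (a := Sum.inl k) (b := Sum.inl c) (show ¬ addDeg e' C i (Sum.inl k) =
          addDeg e' C i (Sum.inl c) + 1 from hkc), W'.dO_of_not hkc, LinearMap.zero_apply,
          LinearMap.zero_apply, map_zero]
  · intro b c hb w
    by_cases hc : e' c = i - 1 ∨ e' c = i + 1
    · have h1 := P7 ⟨b, hb⟩ ⟨c, hc⟩
      have h2 := pol_pp e' i ⟨b, hb⟩ ⟨c, hc⟩
      simp only at h1 h2
      rw [h1, ar.lam_x, hW'1 b hb, h2]
    · rw [P1 b hb, hW'1 b hb, pol_not e' i b hb c hc]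
      simp
  · intro a c w
    by_cases hc : e' c = i - 1 ∨ e' c = i + 1
    · have h1 := P3 a ⟨c, hc⟩
      simp only at h1
      rw [h1, ar.lam_x2, sum_RT e' i fun b => T a b (ar.lam (W'.ph b c w))]
      refine Finset.sum_congr rfl fun b _ => ?_
      have h2 := pol_pp e' i b ⟨c, hc⟩
      simp only at h2
      rw [hT, hW'1 b.1 b.2, h2]
    · rw [P5 a c hc, LinearMap.zero_apply]
      symm
      refine Finset.sum_eq_zero fun b _ => ?_
      split_ifs with hb
      · rw [hW'1 b hb, pol_not e' i b hb c hc]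
        simp
      · rfl
  · intro a b hb w
    have h2 := hth a ⟨b, hb⟩
    simp only at h2
    rw [h2, ar.lam_th]
  · intro b c hb w
    by_cases hc : e' c = i - 1 ∨ e' c = i + 1
    · have h2 := hnab ⟨b, hb⟩ ⟨c, hc⟩
      have h3 := pol_pp e' i ⟨b, hb⟩ ⟨c, hc⟩
      simp only at h2 h3
      rw [h2, ar.lam_nab, hW'2 b hb, h3]
    · rw [hnab0 b hb c hc, hW'2 b hb, pol_not e' i b hb c hc]
      simp

end Conv

end Pool.DM
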