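import Pool.Agent.Work.MP_c20ce7_up.AR0
import Pool.Agent.Work.MP_c20ce7_dm70.S8
import Pool.Agent.Work.MP_c20ce7_dm70.S9

set_option autoImplicit false
set_option linter.unusedSectionVars false

/-!
# Existence of the abstract row extension
-/

open MvPolynomial

noncomputable section

namespace Pool.DM

section Det

variable {K R E : Type} [Fintype K] [DecidableEq K] [Fintype R] [DecidableEq R] [Fintype E] [DecidableEq E]

theorem ar_der_prod {A ι : Type} [CommRing A] [Algebra ℂ A] (D : Derivation ℂ A A) (s : Finset ι)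
    (f : ι → A) (h : ∀ i ∈ s, D (f i) = 0) : D (∏ i ∈ s, f i) = 0 := by
  classical
  induction s using Finset.induction_on with
  | empty => rw [Finset.prod_empty, Derivation.map_one_eq_zero]
  | insert a s ha ih =>
    rw [Finset.prod_insert ha, Derivation.leibniz, h a (Finset.mem_insert_self a s),
      ih fun i hi => h i (Finset.mem_insert_of_mem hi), smul_zero, smul_zero, add_zero]

theorem ar_der_det {A : Type} [CommRing A] [Algebra ℂ A] (D : Derivation ℂ A A) (M : Matrix R R A)
    (h : ∀ i j, D (M i j) = 0) : D M.det = 0 := by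
  rw [Matrix.det_apply, map_sum]
  refine Finset.sum_eq_zero fun s _ => ?_
  rw [Units.smul_def, map_zsmul, ar_der_prod D _ _ fun i _ => h _ _, smul_zero]

/-- The minor. -/
def arq (p : R → E → K) (J : R → E) : MvPolynomial K ℂ :=
  Matrix.det (fun b k : R => (X (p b (J k)) : MvPolynomial K ℂ))

/-- The matrix of the minor. -/
def arg (p : R → E → K) (J : R → E) : Matrix R R (MvPolynomial K ℂ) := fun b k => X (p b (J k))

/-- The coefficient of the minor at the entry `(b, e)`. -/
def arc (p : R → E → K) (J : R → E) (b : R) (e : E) : MvPolynomial K ℂ :=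
  ∑ k, if J k = e then (arg p J).adjugate k b else 0

variable {p : R → E → K} {J : R → E}

theorem ar_pderiv (hp : ∀ b b' e e', p b e = p b' e' → b = b' ∧ e = e') (b : R) (e : E) :
    pderiv (p b e) (arq p J) = arc p J b e := by
  have h1 : arq p J = ∑ k, arg p J b k * (arg p J).adjugate k b :=
    Matrix.det_eq_sum_mul_adjugate_row (arg p J) b
  have h2 : ∀ k, pderiv (p b e) ((arg p J).adjugate k b) = 0 := by
    intro k
    rw [Matrix.adjugate_apply]
    refine ar_der_det _ _ fun i j => ?_
    by_cases hi : i = b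
    · subst hi
      rw [Matrix.updateRow_self]
      by_cases hj : j = k
      · subst hj
        rw [Pi.single_eq_same, Derivation.map_one_eq_zero]
      · rw [Pi.single_eq_of_ne hj, map_zero]
    · rw [Matrix.updateRow_ne hi]
      refine pderiv_X_of_ne ?_
      intro h
      exact hi (hp _ _ _ _ h).1
  rw [h1, map_sum, arc]
  refine Finset.sum_congr rfl fun k _ => ?_
  rw [Derivation.leibniz, h2, smul_zero, zero_add]
  change (arg p J).adjugate k b • pderiv (p b e) (X (p b (J k))) = _
  by_cases h : J k = e
  · rw [if_pos h, h, pderiv_X_self, smul_eq_mul, mul_one]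
  · rw [if_neg h, pderiv_X_of_ne, smul_zero]
    intro h3
    exact h (hp _ _ _ _ h3).2

theorem ar_pderiv_ne (k : K) (h : ∀ b e, p b e ≠ k) : pderiv k (arq p J) = 0 :=
  ar_der_det _ _ fun i j => pderiv_X_of_ne (h _ _)

theorem ar_qm_eq (σ : Type) : Row.qm p J σ = rename Sum.inl (arq p J) := by
  unfold Row.qm arq Row.gm
  rw [AlgHom.map_det]
  congr 1
  ext b k
  simp [Matrix.map]

theorem ar_gm_eq (σ : Type) : Row.gm p J σ = (arg p J).map (rename Sum.inl) := by
  unfold Row.gm arg
  ext b k
  simp [Matrix.map]

theorem ar_gm_adj_eq (σ : Type) (k b : R) :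
    (Row.gm p J σ).adjugate k b = rename Sum.inl ((arg p J).adjugate k b) := by
  rw [ar_gm_eq]
  have h := AlgHom.map_adjugate (rename (Sum.inl : K → K ⊕ σ) : MvPolynomial K ℂ →ₐ[ℂ] _) (arg p J)
  have h2 := congrFun (congrFun h k) b
  rw [AlgHom.mapMatrix_apply, AlgHom.mapMatrix_apply, Matrix.map_apply] at h2
  exact h2.symm

theorem ar_J_inj (h : arq p J ≠ 0) : Function.Injective J := by
  intro k k' hk
  by_contra hne
  apply h
  refine Matrix.det_zero_of_column_eq hne fun b => ?_
  show X (p b (J k)) = X (p b (J k'))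
  rw [hk]

end Det

end Pool.DM
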