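import Pool.Agent.Work.MP_c20ce7_up.AR2

set_option autoImplicit false
set_option linter.unusedSectionVars false
set_option linter.unusedVariables false

/-!
# Existence of the abstract row extension: the model
-/

open MvPolynomial

noncomputable section

namespace Pool.DM

section Inv

variable {τ : Type} [Fintype τ] [DecidableEq τ] {L : Type} [AddCommGroup L] [Module ℂ L]
  {W : WMod τ L} {q : MvPolynomial τ ℂ}

theorem ar_invx_pow_comm (hq : Function.Bijective (W.x q)) (g : MvPolynomial τ ℂ) (n : ℕ) :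
    W.invx q hq ^ n * W.x g = W.x g * W.invx q hq ^ n := by
  induction n with
  | zero => simp
  | succ n ih => rw [pow_succ, mul_assoc, W.invx_comm, ← mul_assoc, ih, mul_assoc]

theorem ar_d_invx (hq : Function.Bijective (W.x q)) (k : τ) :
    W.d (X k) * W.invx q hq = W.invx q hq * W.d (X k) -
      W.invx q hq * W.invx q hq * W.x (pderiv k q) := by
  refine W.x_mul_cancel hq ?_
  have h1 := W.d_mul_x k q
  have h2 : W.x q * W.d (X k) = W.d (X k) * W.x q - W.x (pderiv k q) := by rw [h1]; abel
  have h3 : W.x q * (W.invx q hq * W.d (X k)) = W.d (X k) := by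
    rw [← mul_assoc, W.x_invx, one_mul]
  have h4 : W.x q * (W.invx q hq * W.invx q hq * W.x (pderiv k q)) =
      W.x (pderiv k q) * W.invx q hq := by
    rw [mul_assoc (W.invx q hq), ← mul_assoc, W.x_invx, one_mul, W.invx_comm]
  rw [mul_sub, h3, h4, ← mul_assoc, h2, sub_mul, mul_assoc, W.x_invx, mul_one]

theorem ar_d_invx_pow (hq : Function.Bijective (W.x q)) (k : τ) (n : ℕ) :
    W.d (X k) * W.invx q hq ^ n = W.invx q hq ^ n * W.d (X k) -
      (n : ℂ) • (W.invx q hq ^ (n + 1) * W.x (pderiv k q)) := by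
  induction n with
  | zero => simp
  | succ n ih =>
    rw [pow_succ (W.invx q hq) n, ← mul_assoc, ih, sub_mul, mul_assoc, ar_d_invx, mul_sub, smul_mul_assoc,
      mul_assoc (W.invx q hq ^ (n + 1)), ← W.invx_comm, ← mul_assoc (W.invx q hq ^ (n + 1)),
      ← pow_succ, ← mul_assoc (W.invx q hq ^ n), ← pow_succ, ← mul_assoc (W.invx q hq ^ n),
      ← mul_assoc (W.invx q hq ^ n), ← pow_succ, ← pow_succ, sub_sub]
    congr 1
    push_cast
    rw [add_smul, one_smul, add_comm]

theorem ar_invx_pow_inj (hq : Function.Bijective (W.x q)) (n : ℕ) :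
    Function.Injective (W.invx q hq ^ n : Module.End ℂ L) := by
  have h1 : Function.Injective (W.invx q hq : Module.End ℂ L) := by
    intro u v h
    have h2 := congrArg (W.x q) h
    rw [← Module.End.mul_apply, ← Module.End.mul_apply, W.x_invx] at h2
    exact h2
  induction n with
  | zero => rw [pow_zero]; exact fun _ _ h => h
  | succ n ih =>
    rw [pow_succ]
    exact ih.comp h1

end Inv

section Model

variable {K R E C : Type} [Fintype K] [DecidableEq K] [Fintype R] [DecidableEq R]
  [Fintype E] [DecidableEq E] [Fintype C] [DecidableEq C] {p : R → E → K} {J : R → E}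
variable {M : Type} [AddCommGroup M] [Module ℂ M]

/-- Functions for the `T`, delta functions for the rest. -/
def arS (C : Type) (J : R → E) : (C × R) ⊕ (C × Row.Jc J) → Bool :=
  Sum.elim (fun _ => true) (fun _ => false)

theorem arBij (V1 : WMod K M) (hL : V1.LSimple (arq p J)) :
    Function.Bijective ((V1.prod (arS C J)).x (Row.qm p J ((C × R) ⊕ (C × Row.Jc J)))) := by
  rw [ar_qm_eq]
  exact (hL.prod (arS C J)).bij

/-- The model. -/
def arV (V1 : WMod K M) (hL : V1.LSimple (arq p J)) (hJ : Function.Injective J) :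
    WMod (K ⊕ (C × E)) (PL ((C × R) ⊕ (C × Row.Jc J)) M) :=
  (V1.prod (arS C J)).coord (arBij (C := C) V1 hL) (Row.coord p J hJ)

variable (V1 : WMod K M) (hL : V1.LSimple (arq p J)) (hJ : Function.Injective J)

theorem arV_x (k : Row.Kap K C E) :
    (arV (C := C) V1 hL hJ).x (X k) = (V1.prod (arS C J)).x (Row.Ym p J C k) := by
  rw [arV, WMod.coord_x, bind₁_X_right]

theorem arV_T (a : C) (b : R) :
    (V1.prod (arS C J)).d (X (Sum.inr (Sum.inl (a, b)))) = (arV (C := C) V1 hL hJ).ath p a b := by
  rw [(V1.prod (arS C J)).coord_old (arBij (C := C) V1 hL) (Row.coord p J hJ)]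
  change ∑ k, _ * (arV (C := C) V1 hL hJ).d (X k) = _
  rw [Fintype.sum_sum_type, Fintype.sum_prod_type, WMod.ath]
  have h1 : ∑ k : K, (V1.prod (arS C J)).x (pderiv (Sum.inr (Sum.inl (a, b)))
      (Row.Ym p J C (Sum.inl k))) * (arV (C := C) V1 hL hJ).d (X (Sum.inl k)) = 0 := by
    refine Finset.sum_eq_zero fun k _ => ?_
    rw [Row.Ym, pderiv_X_of_ne (by simp), map_zero, zero_mul]
  rw [h1, zero_add, Finset.sum_eq_single a]
  · refine Finset.sum_congr rfl fun e _ => ?_
    rw [Row.pd_T, if_pos rfl, arV_x]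
    rfl
  · intro x _ hx
    refine Finset.sum_eq_zero fun e _ => ?_
    rw [Row.pd_T, if_neg (Ne.symm hx), map_zero, zero_mul]
  · intro h; exact absurd (Finset.mem_univ a) h

theorem arV_d_inl (k : K) :
    (V1.prod (arS C J)).d (X (Sum.inl k)) = (arV (C := C) V1 hL hJ).d (X (Sum.inl k)) +
      ∑ a, ∑ e, ∑ b, if p b e = k then (V1.prod (arS C J)).x (X (Sum.inr (Sum.inl (a, b)))) *
        (arV (C := C) V1 hL hJ).d (X (Sum.inr (a, e))) else 0 := by
  rw [(V1.prod (arS C J)).coord_old (arBij (C := C) V1 hL) (Row.coord p J hJ)]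
  change ∑ k, _ * (arV (C := C) V1 hL hJ).d (X k) = _
  rw [Fintype.sum_sum_type, Fintype.sum_prod_type]
  congr 1
  · rw [Finset.sum_eq_single k]
    · rw [Row.Ym, pderiv_X_self, map_one, one_mul]
    · intro x _ hx
      rw [Row.Ym, pderiv_X_of_ne (by simpa using hx), map_zero, zero_mul]
    · intro h; exact absurd (Finset.mem_univ k) h
  · refine Finset.sum_congr rfl fun a _ => Finset.sum_congr rfl fun e _ => ?_
    rw [Row.pd_inl, map_sum, Finset.sum_mul]
    refine Finset.sum_congr rfl fun b _ => ?_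
    split_ifs
    · rfl
    · rw [map_zero, zero_mul]

/-- The commutator of the derivations of the new rows with `T`. -/
theorem arV_dT (a : C) (e : E) (a' : C) (b' : R) :
    (arV (C := C) V1 hL hJ).d (X (Sum.inr (a, e))) *
        (V1.prod (arS C J)).x (X (Sum.inr (Sum.inl (a', b')))) -
      (V1.prod (arS C J)).x (X (Sum.inr (Sum.inl (a', b')))) *
        (arV (C := C) V1 hL hJ).d (X (Sum.inr (a, e))) =
      if a' = a then (V1.prod (arS C J)).invx _ (arBij (C := C) V1 hL) *
        (V1.prod (arS C J)).x (rename Sum.inl (arc p J b' e)) else 0 := by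
  rw [arV, WMod.coord_d, (V1.prod (arS C J)).nd_x]
  have h1 : ∑ j, Row.Am p J C (Sum.inr (a, e)) j *
      pderiv j (X (Sum.inr (Sum.inl (a', b'))) : MvPolynomial (Row.Tau K C J) ℂ) =
      if a' = a then rename Sum.inl (arc p J b' e) else 0 := by
    rw [Finset.sum_eq_single (Sum.inr (Sum.inl (a', b')))]
    · rw [pderiv_X_self, mul_one]
      change Row.A2 p J C a e (Sum.inr (Sum.inl (a', b'))) = _
      rw [Row.A2]
      by_cases h : a' = a
      · rw [if_pos h, if_pos h, arc, map_sum]
        refine Finset.sum_congr rfl fun k _ => ?_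
        split_ifs
        · exact ar_gm_adj_eq _ _ _
        · rw [map_zero]
      · rw [if_neg h, if_neg h]
    · intro j _ hj
      rw [pderiv_X_of_ne (Ne.symm hj), mul_zero]
    · intro h; exact absurd (Finset.mem_univ _) h
  rw [h1]
  split_ifs
  · rfl
  · rw [map_zero, mul_zero]

end Model

end Pool.DM
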