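import Pool.Agent.Work.MP_c20ce7_up.AR3

set_option autoImplicit false
set_option linter.unusedSectionVars false
set_option linter.unusedVariables false

/-!
# Existence of the abstract row extension: the structure
-/

open MvPolynomial

noncomputable section

namespace Pool.DM

section Model

variable {K R E C : Type} [Fintype K] [DecidableEq K] [Fintype R] [DecidableEq R]
  [Fintype E] [DecidableEq E] [Fintype C] [DecidableEq C] {p : R → E → K} {J : R → E}
variable {M : Type} [AddCommGroup M] [Module ℂ M]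
variable (V1 : WMod K M) (hL : V1.LSimple (arq p J)) (hJ : Function.Injective J)

/-- The operators `T`. -/
def arT (C : Type) [Fintype C] [DecidableEq C] (V1 : WMod K M) (J : R → E) (a : C) (b : R) :
    Module.End ℂ (PL ((C × R) ⊕ (C × Row.Jc J)) M) :=
  (V1.prod (arS C J)).x (X (Sum.inr (Sum.inl (a, b))))

/-- The correction. -/
def arF (a0 : C) (b : R) (e : E) : Module.End ℂ (PL ((C × R) ⊕ (C × Row.Jc J)) M) :=
  (V1.prod (arS C J)).invx _ (arBij (C := C) V1 hL) * (V1.prod (arS C J)).x (rename Sum.inl (arc p J b e))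

theorem arx_comm (W : WMod K M) (f g : MvPolynomial K ℂ) : W.x f * W.x g = W.x g * W.x f := by
  rw [← map_mul, mul_comm, map_mul]

theorem arT_x (a : C) (b : R) (g : MvPolynomial (Row.Tau K C J) ℂ) :
    arT C V1 J a b * (V1.prod (arS C J)).x g = (V1.prod (arS C J)).x g * arT C V1 J a b :=
  arx_comm _ _ _

theorem arT_d (a : C) (b : R) (k : K) :
    arT C V1 J a b * (V1.prod (arS C J)).d (X (Sum.inl k)) =
      (V1.prod (arS C J)).d (X (Sum.inl k)) * arT C V1 J a b := by
  have h := (V1.prod (arS C J)).comm (Sum.inl k) (Sum.inr (Sum.inl (a, b)))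
  rw [if_neg (by simp), sub_eq_zero] at h
  exact h.symm

theorem arF_T (a0 a : C) (b b' : R) (e : E) :
    arT C V1 J a b' * arF (C := C) V1 hL a0 b e = arF (C := C) V1 hL a0 b e * arT C V1 J a b' := by
  unfold arF arT
  rw [← mul_assoc, ← WMod.invx_comm, mul_assoc, mul_assoc, arx_comm]

theorem ar_nab (hp : ∀ b b' e e', p b e = p b' e' → b = b' ∧ e = e') (b : R) (e : E) :
    (arV (C := C) V1 hL hJ).d (X (Sum.inl (p b e))) +
        ∑ a, (arV (C := C) V1 hL hJ).d (X (Sum.inr (a, e))) * arT C V1 J a b =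
      (V1.prod (arS C J)).d (X (Sum.inl (p b e))) + ∑ a : C, arF (C := C) V1 hL a b e := by
  have h1 : ∀ a, (arV (C := C) V1 hL hJ).d (X (Sum.inr (a, e))) * arT C V1 J a b =
      arT C V1 J a b * (arV (C := C) V1 hL hJ).d (X (Sum.inr (a, e))) + arF (C := C) V1 hL a b e := by
    intro a
    have h := arV_dT V1 hL hJ a e a b
    rw [if_pos rfl] at h
    unfold arF
    rw [← h]
    unfold arT
    abel
  simp only [h1, Finset.sum_add_distrib]
  rw [← add_assoc]
  congr 1
  rw [arV_d_inl V1 hL hJ]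
  congr 1
  refine Finset.sum_congr rfl fun a _ => ?_
  rw [Finset.sum_eq_single e]
  · rw [Finset.sum_eq_single b]
    · rw [if_pos rfl]; rfl
    · intro b' _ hb'
      rw [if_neg]
      intro h
      exact hb' (hp _ _ _ _ h).1
    · intro h; exact absurd (Finset.mem_univ b) h
  · intro e' _ he'
    refine Finset.sum_eq_zero fun b' _ => ?_
    rw [if_neg]
    intro h
    exact he' (hp _ _ _ _ h).2
  · intro h; exact absurd (Finset.mem_univ e) h

theorem ar_invx_b0 (u : M) :
    (V1.prod (arS C J)).invx _ (arBij (C := C) V1 hL) (b0 u) = b0 (V1.invx _ hL.bij u) := by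
  have h1 : (V1.prod (arS C J)).x (Row.qm p J ((C × R) ⊕ (C × Row.Jc J))) (b0 (V1.invx _ hL.bij u)) =
      b0 u := by
    rw [ar_qm_eq, (V1.prod_b0 (arS C J) _).1, ← Module.End.mul_apply, V1.x_invx]
    rfl
  rw [← h1, ← Module.End.mul_apply, WMod.invx_x]
  rfl

variable {L' : Type} [AddCommGroup L'] [Module ℂ L'] {V' : WMod K L'} {ι : L' →ₗ[ℂ] M}

/-- The canonical map. -/
def arLam (C : Type) [Fintype C] [DecidableEq C] (V1 : WMod K M) (hL : V1.LSimple (arq p J))
    (ι : L' →ₗ[ℂ] M) : L' →ₗ[ℂ] PL ((C × R) ⊕ (C × Row.Jc J)) M :=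
  b0 ∘ₗ (V1.invx _ hL.bij ^ Fintype.card C : Module.End ℂ M) ∘ₗ ι

theorem arLam_apply (w : L') : arLam C V1 hL ι w =
    b0 ((V1.invx _ hL.bij ^ Fintype.card C : Module.End ℂ M) (ι w)) := rfl

theorem arLam_x (hl : IsLoc V' (arq p J) V1 ι) (g : MvPolynomial K ℂ) (w : L') :
    (V1.prod (arS C J)).x (rename Sum.inl g) (arLam C V1 hL ι w) = arLam C V1 hL ι (V'.x g w) := by
  rw [arLam_apply, arLam_apply, (V1.prod_b0 (arS C J) _).1, ← Module.End.mul_apply, ← ar_invx_pow_comm,
    Module.End.mul_apply, hl.hx]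

theorem arLam_nab (hl : IsLoc V' (arq p J) V1 ι)
    (hp : ∀ b b' e e', p b e = p b' e' → b = b' ∧ e = e') (b : R) (e : E) (w : L') :
    ((V1.prod (arS C J)).d (X (Sum.inl (p b e))) + ∑ a : C, arF (C := C) V1 hL a b e) (arLam C V1 hL ι w) =
      arLam C V1 hL ι (V'.d (X (p b e)) w) := by
  have h1 : (V1.prod (arS C J)).d (X (Sum.inl (p b e))) (arLam C V1 hL ι w) =
      b0 (V1.d (X (p b e)) ((V1.invx _ hL.bij ^ Fintype.card C : Module.End ℂ M) (ι w))) := by
    rw [arLam_apply, ← (V1.prod_b0 (arS C J) _).2.1, rename_X]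
  have h2 : ∀ a : C, arF (C := C) V1 hL a b e (arLam C V1 hL ι w) =
      b0 ((V1.invx _ hL.bij ^ (Fintype.card C + 1) : Module.End ℂ M) (V1.x (arc p J b e) (ι w))) := by
    intro a
    rw [arLam_apply]
    unfold arF
    rw [Module.End.mul_apply, (V1.prod_b0 (arS C J) _).1, ar_invx_b0 V1 hL, ← Module.End.mul_apply (V1.x _),
      ← ar_invx_pow_comm, Module.End.mul_apply, pow_succ', Module.End.mul_apply]
  rw [LinearMap.add_apply, LinearMap.sum_apply, h1]
  simp only [h2]
  rw [Finset.sum_const, Finset.card_univ, ← Module.End.mul_apply (V1.d _), ar_d_invx_pow,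
    LinearMap.sub_apply, Module.End.mul_apply, ← hl.hd, LinearMap.smul_apply, Module.End.mul_apply,
    ar_pderiv hp, map_sub, map_smul, ← Nat.cast_smul_eq_nsmul ℂ, sub_add_cancel]
  rfl

theorem arLam_d (hl : IsLoc V' (arq p J) V1 ι) (k : K) (hk : ∀ b e, p b e ≠ k) (w : L') :
    (V1.prod (arS C J)).d (X (Sum.inl k)) (arLam C V1 hL ι w) = arLam C V1 hL ι (V'.d (X k) w) := by
  have h1 : (V1.prod (arS C J)).d (X (Sum.inl k)) (arLam C V1 hL ι w) =
      b0 (V1.d (X k) ((V1.invx _ hL.bij ^ Fintype.card C : Module.End ℂ M) (ι w))) := by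
    rw [arLam_apply, ← (V1.prod_b0 (arS C J) _).2.1, rename_X]
  rw [h1, ← Module.End.mul_apply (V1.d _), ar_d_invx_pow, LinearMap.sub_apply, Module.End.mul_apply,
    ← hl.hd, ar_pderiv_ne k hk, map_zero, mul_zero, smul_zero, LinearMap.zero_apply, sub_zero]
  rfl

theorem arV_d_other (k : K) (hk : ∀ b e, p b e ≠ k) :
    (arV (C := C) V1 hL hJ).d (X (Sum.inl k)) = (V1.prod (arS C J)).d (X (Sum.inl k)) := by
  rw [arV_d_inl V1 hL hJ]
  symm
  rw [add_eq_left]
  refine Finset.sum_eq_zero fun a _ => Finset.sum_eq_zero fun e _ => Finset.sum_eq_zero fun b _ => ?_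
  rw [if_neg (hk b e)]

/-- **The abstract row extension.** -/
def arR (hl : IsLoc V' (arq p J) V1 ι) (hp : ∀ b b' e e', p b e = p b' e' → b = b' ∧ e = e') :
    ARow (C := C) p V' (arV (C := C) V1 hL hJ) where
  T := arT C V1 J
  lam := arLam C V1 hL ι
  T_comm := fun a b a' b' => arT_x _ _ _ _
  T_x := fun a b k => by rw [arV_x]; exact arT_x _ _ _ _
  T_d := fun a b k hk => by
    rw [arV_d_other V1 hL hJ k fun b e => hk b e]
    exact arT_d _ _ _ _
  T_th := fun a b a' b' => by
    rw [← arV_T]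
    have h := (V1.prod (arS C J)).comm (Sum.inr (Sum.inl (a, b))) (Sum.inr (Sum.inl (a', b')))
    unfold arT
    rw [h]
    simp
  T_nab := fun b e a' b' => by
    rw [ar_nab V1 hL hJ hp, add_mul, mul_add, Finset.sum_mul, Finset.mul_sum, arT_d]
    congr 1
    exact Finset.sum_congr rfl fun a _ => (arF_T V1 hL a a' b b' e).symm
  lam_x := fun k w => by
    rw [arV_x, Row.Ym]
    have := arLam_x (C := C) V1 hL hl (X k) w
    rwa [rename_X] at this
  lam_d := fun k w hk => by
    rw [arV_d_other V1 hL hJ k hk]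
    exact arLam_d V1 hL hl k hk w
  lam_x2 := fun a e w => by
    rw [arV_x, Row.Ym, map_add, map_sum, LinearMap.add_apply, LinearMap.sum_apply]
    have h1 : (V1.prod (arS C J)).x (if h : ∀ k, J k ≠ e then
        X (Sum.inr (Sum.inr (a, ⟨e, h⟩))) else 0) (arLam C V1 hL ι w) = 0 := by
      split_ifs with h
      · rw [arLam_apply]
        exact (V1.prod_b0 (arS C J) _).2.2.2 _ rfl
      · rw [map_zero]; rfl
    rw [h1, add_zero]
    refine Finset.sum_congr rfl fun b _ => ?_
    rw [map_mul, Module.End.mul_apply]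
    have := arLam_x (C := C) V1 hL hl (X (p b e)) w
    rw [rename_X] at this
    rw [this]
    rfl
  lam_th := fun a b w => by
    rw [← arV_T, arLam_apply]
    exact (V1.prod_b0 (arS C J) _).2.2.1 _ rfl
  lam_nab := fun b e w => by
    rw [ar_nab V1 hL hJ hp]
    exact arLam_nab V1 hL hl hp b e w

theorem arR_lam (hl : IsLoc V' (arq p J) V1 ι)
    (hp : ∀ b b' e e', p b e = p b' e' → b = b' ∧ e = e') :
    (arR (C := C) V1 hL hJ hl hp).lam = arLam C V1 hL ι := rfl

end Model

end Pool.DM
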