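import Pool.Agent.Work.MP_c20ce7_up.AR4

set_option autoImplicit false
set_option linter.unusedSectionVars false
set_option linter.unusedVariables false

/-!
# Existence of the abstract row extension: the theorem
-/

open MvPolynomial

noncomputable section

namespace Pool.DM

section Model

variable {K R E C : Type} [Fintype K] [DecidableEq K] [Fintype R] [DecidableEq R]
  [Fintype E] [DecidableEq E] [Fintype C] [DecidableEq C] {p : R → E → K} {J : R → E}
variable {M : Type} [AddCommGroup M] [Module ℂ M]
variable (V1 : WMod K M) (hL : V1.LSimple (arq p J)) (hJ : Function.Injective J)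

theorem ar_card (hJ : Function.Injective J) :
    Fintype.card (Row.Kap K C E) = Fintype.card (Row.Tau K C J) := by
  have h1 : Function.Bijective (Sum.elim J (fun e : Row.Jc J => e.1)) := by
    constructor
    · rintro (k | e) (k' | e') h
      · exact congrArg Sum.inl (hJ h)
      · exact absurd h (e'.2 k)
      · exact absurd h.symm (e.2 k')
      · exact congrArg Sum.inr (Subtype.ext h)
    · intro e
      by_cases h : ∀ k, J k ≠ e
      · exact ⟨Sum.inr ⟨e, h⟩, rfl⟩
      · push Not at h
        obtain ⟨k, hk⟩ := h
        exact ⟨Sum.inl k, hk⟩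
  have h2 := Fintype.card_congr (Equiv.ofBijective _ h1)
  rw [Fintype.card_sum] at h2
  rw [Fintype.card_sum, Fintype.card_sum, Fintype.card_sum, Fintype.card_prod, Fintype.card_prod,
    Fintype.card_prod, ← h2, mul_add]

theorem ar_bind (f : MvPolynomial K ℂ) :
    bind₁ (Row.Ym p J C) (rename Sum.inl f) = rename Sum.inl f := by
  rw [bind₁_rename]
  have : (Row.Ym p J C) ∘ Sum.inl = fun k => rename (Sum.inl : K → Row.Tau K C J) (X k) := by
    funext k
    simp [Row.Ym]
  rw [this]
  induction f using MvPolynomial.induction_on with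
  | C a => simp
  | add f g hf hg => rw [map_add, map_add, hf, hg]
  | mul_X f i hf => rw [map_mul, map_mul, hf, bind₁_X_right]

theorem ar_h3T (a : C) (b : R) :
    Row.qm p J ((C × R) ⊕ (C × Row.Jc J)) * X (Sum.inr (Sum.inl (a, b))) =
      bind₁ (Row.Ym p J C) (∑ k, X (Sum.inr (a, J k)) * rename Sum.inl ((arg p J).adjugate k b)) := by
  rw [map_sum]
  have h1 : ∀ k, bind₁ (Row.Ym p J C) (X (Sum.inr (a, J k)) *
      rename Sum.inl ((arg p J).adjugate k b)) = ∑ b', X (Sum.inr (Sum.inl (a, b'))) *
        (X (Sum.inl (p b' (J k))) * (Row.gm p J ((C × R) ⊕ (C × Row.Jc J))).adjugate k b) := by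
    intro k
    rw [map_mul, bind₁_X_right, ar_bind, ar_gm_adj_eq, Row.Ym, dif_neg, add_zero, Finset.sum_mul]
    · exact Finset.sum_congr rfl fun b' _ => by rw [mul_assoc]
    · intro h
      exact h k rfl
  simp only [h1]
  rw [Finset.sum_comm]
  simp only [← Finset.mul_sum, Row.gm_adj]
  rw [Finset.sum_eq_single b]
  · rw [if_pos rfl, mul_comm]
  · intro b' _ hb'
    rw [if_neg hb', mul_zero]
  · intro h; exact absurd (Finset.mem_univ b) h

theorem ar_h3 (j : Row.Tau K C J) : ∃ (n : ℕ) (g : MvPolynomial (Row.Kap K C E) ℂ),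
    Row.qm p J ((C × R) ⊕ (C × Row.Jc J)) ^ n * X j = bind₁ (Row.Ym p J C) g := by
  rcases j with k | ⟨a, b⟩ | ⟨a, e⟩
  · exact ⟨0, X (Sum.inl k), by rw [pow_zero, one_mul, bind₁_X_right, Row.Ym]⟩
  · exact ⟨1, _, by rw [pow_one]; exact ar_h3T a b⟩
  · refine ⟨1, rename Sum.inl (arq p J) * X (Sum.inr (a, e.1)) - ∑ b,
      (∑ k, X (Sum.inr (a, J k)) * rename Sum.inl ((arg p J).adjugate k b)) * X (Sum.inl (p b e.1)), ?_⟩
    rw [map_sub, map_mul, ar_bind, bind₁_X_right, map_sum]
    simp only [map_mul, ← ar_h3T, bind₁_X_right]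
    rw [pow_one, Row.Ym, dif_pos e.2, ← ar_qm_eq, mul_add, Finset.mul_sum]
    simp only [Row.Ym, mul_assoc]
    rw [add_sub_cancel_left]

theorem arV_lsimple : (arV (C := C) V1 hL hJ).LSimple (rename Sum.inl (arq p J)) := by
  have h : (V1.prod (arS C J)).LSimple (Row.qm p J ((C × R) ⊕ (C × Row.Jc J))) := by
    rw [ar_qm_eq]
    exact hL.prod _
  exact h.coord (Row.coord p J hJ) _ (by rw [ar_bind, ar_qm_eq]) ar_h3

theorem arV_growth (hG : V1.Growth) : (arV (C := C) V1 hL hJ).Growth :=
  (hG.prod (arS C J)).coord (arBij (C := C) V1 hL) (Row.coord p J hJ) (ar_card hJ)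

/-- The characteristic variety of the model. -/
theorem arV_inCh {x' ξ' : K → ℂ} (hCh : V1.InCh x' ξ') (hx' : eval x' (arq p J) ≠ 0)
    (x ξ : K ⊕ (C × E) → ℂ) (hx : ∀ k, x (Sum.inl k) = x' k) (hx0 : ∀ a, x (Sum.inr a) = 0)
    (hξ : ∀ k, ξ (Sum.inl k) = ξ' k) (hm : ∀ a b, ∑ e, x' (p b e) * ξ (Sum.inr (a, e)) = 0) :
    (arV (C := C) V1 hL hJ).InCh x ξ := by
  have h1 := hCh.prod hL hx' (arS C J)
    (Sum.elim (fun _ => 0) (fun a : C × Row.Jc J => ξ (Sum.inr (a.1, a.2.1))))
  set p2 : Row.Tau K C J → ℂ := Sum.elim x' fun k => if arS C J k then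
    (Sum.elim (fun _ => 0) (fun a : C × Row.Jc J => ξ (Sum.inr (a.1, a.2.1))) k) else 0 with hp2
  set ξ2 : Row.Tau K C J → ℂ := Sum.elim ξ' fun k => if arS C J k then 0 else
    (Sum.elim (fun _ => 0) (fun a : C × Row.Jc J => ξ (Sum.inr (a.1, a.2.1))) k) with hξ2
  have p2l : ∀ k, p2 (Sum.inl k) = x' k := fun k => rfl
  have p2r : ∀ k, p2 (Sum.inr k) = 0 := by
    rintro (k | k)
    · rfl
    · rfl
  have ξ2l : ∀ k, ξ2 (Sum.inl k) = ξ' k := fun k => rfl
  have ξ2T : ∀ k, ξ2 (Sum.inr (Sum.inl k)) = 0 := fun k => rfl
  have ξ2R : ∀ a (e : Row.Jc J), ξ2 (Sum.inr (Sum.inr (a, e))) = ξ (Sum.inr (a, e.1)) := fun a e => rfl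
  have ev : ∀ f : MvPolynomial K ℂ, eval p2 (rename Sum.inl f) = eval x' f := by
    intro f
    rw [eval_rename]
    rfl
  have hq2 : eval p2 (Row.qm p J ((C × R) ⊕ (C × Row.Jc J))) = eval x' (arq p J) := by
    rw [ar_qm_eq, ev]
  have h2 := h1.coord (arBij (C := C) V1 hL) (Row.coord p J hJ) (by rw [hq2]; exact hx')
  have e1 : (fun k => eval p2 (Row.Ym p J C k)) = x := by
    funext k
    rcases k with k | ⟨a, e⟩
    · rw [Row.Ym, eval_X, p2l, hx]
    · rw [Row.Ym, hx0, map_add, map_sum]
      have h3 : eval p2 (if h : ∀ k, J k ≠ e then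
          (X (Sum.inr (Sum.inr (a, ⟨e, h⟩))) : MvPolynomial (Row.Tau K C J) ℂ) else 0) = 0 := by
        split_ifs
        · rw [eval_X, p2r]
        · rw [map_zero]
      rw [h3, add_zero]
      refine Finset.sum_eq_zero fun b _ => ?_
      rw [map_mul, eval_X, p2r, zero_mul]
  have e2 : (fun k => (eval p2 (Row.qm p J ((C × R) ⊕ (C × Row.Jc J))))⁻¹ *
      ∑ j, eval p2 (Row.Am p J C k j) * ξ2 j) = ξ := by
    funext k
    rw [hq2]
    rcases k with k | ⟨a, e⟩
    · rw [Finset.sum_eq_single (Sum.inl k)]
      · rw [Row.Am, map_sub, if_pos rfl, hq2, map_sum]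
        have h4 : ∑ a, eval p2 (∑ e, ∑ b, if p b e = k then (X (Sum.inr (Sum.inl (a, b))) *
            Row.A2 p J C a e (Sum.inl k) : MvPolynomial (Row.Tau K C J) ℂ) else 0) = 0 := by
          refine Finset.sum_eq_zero fun a _ => ?_
          rw [map_sum]
          refine Finset.sum_eq_zero fun e _ => ?_
          rw [map_sum]
          refine Finset.sum_eq_zero fun b _ => ?_
          split_ifs
          · rw [map_mul, eval_X, p2r, zero_mul]
          · rw [map_zero]
        rw [h4, sub_zero, ξ2l, ← mul_assoc, inv_mul_cancel₀ hx', one_mul, hξ]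
      · intro j _ hj
        rw [Row.Am, map_sub, if_neg hj, map_zero, map_sum]
        have h4 : ∑ a, eval p2 (∑ e, ∑ b, if p b e = k then (X (Sum.inr (Sum.inl (a, b))) *
            Row.A2 p J C a e j : MvPolynomial (Row.Tau K C J) ℂ) else 0) = 0 := by
          refine Finset.sum_eq_zero fun a _ => ?_
          rw [map_sum]
          refine Finset.sum_eq_zero fun e _ => ?_
          rw [map_sum]
          refine Finset.sum_eq_zero fun b _ => ?_
          split_ifs
          · rw [map_mul, eval_X, p2r, zero_mul]
          · rw [map_zero]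
        rw [h4, sub_zero, zero_mul]
      · intro h; exact absurd (Finset.mem_univ _) h
    · rw [Fintype.sum_sum_type, Fintype.sum_sum_type]
      have h5 : ∑ k : K, eval p2 (Row.Am p J C (Sum.inr (a, e)) (Sum.inl k)) * ξ2 (Sum.inl k) = 0 := by
        refine Finset.sum_eq_zero fun k _ => ?_
        rw [Row.Am, Row.A2, map_zero, zero_mul]
      have h6 : ∑ k : C × R, eval p2 (Row.Am p J C (Sum.inr (a, e)) (Sum.inr (Sum.inl k))) *
          ξ2 (Sum.inr (Sum.inl k)) = 0 := by
        refine Finset.sum_eq_zero fun k _ => ?_
        rw [ξ2T, mul_zero]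
      rw [h5, h6, zero_add, zero_add, Fintype.sum_prod_type, Finset.sum_eq_single a]
      · -- the columns outside
        have h7 : ∀ e' : Row.Jc J, eval p2 (Row.Am p J C (Sum.inr (a, e)) (Sum.inr (Sum.inr (a, e')))) =
            (if e'.1 = e then eval x' (arq p J) else 0) - ∑ k, if J k = e then
              ∑ b, eval x' ((arg p J).adjugate k b) * x' (p b e'.1) else 0 := by
          intro e'
          rw [Row.Am, Row.A2, if_pos rfl, map_sub]
          congr 1
          · split_ifs
            · rw [hq2]
            · rw [map_zero]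
          · rw [map_sum]
            refine Finset.sum_congr rfl fun k _ => ?_
            split_ifs
            · rw [map_sum]
              refine Finset.sum_congr rfl fun b _ => ?_
              rw [map_mul, ar_gm_adj_eq, ev, eval_X, p2l]
            · rw [map_zero]
        have h7' : ∀ e' : Row.Jc J, eval p2 (Row.Am p J C (Sum.inr (a, e))
            (Sum.inr (Sum.inr (a, e')))) * ξ2 (Sum.inr (Sum.inr (a, e'))) =
            ((if e'.1 = e then eval x' (arq p J) else 0) - ∑ k, if J k = e then
              ∑ b, eval x' ((arg p J).adjugate k b) * x' (p b e'.1) else 0) *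
              ξ (Sum.inr (a, e'.1)) := fun e' => by rw [h7, ξ2R]
        rw [Finset.sum_congr rfl fun e' _ => h7' e']
        simp only [sub_mul, Finset.sum_sub_distrib]
        by_cases he : ∀ k, J k ≠ e
        · have h8 : ∑ e' : Row.Jc J, (∑ k, if J k = e then ∑ b, eval x' ((arg p J).adjugate k b) *
              x' (p b e'.1) else 0) * ξ (Sum.inr (a, e'.1)) = 0 := by
            refine Finset.sum_eq_zero fun e' _ => ?_
            rw [Finset.sum_eq_zero fun k _ => if_neg (he k), zero_mul]
          rw [h8, sub_zero, Finset.sum_eq_single ⟨e, he⟩]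
          · rw [if_pos rfl, ← mul_assoc, inv_mul_cancel₀ hx', one_mul]
          · intro e' _ he'
            rw [if_neg, zero_mul]
            intro h
            exact he' (Subtype.ext h)
          · intro h; exact absurd (Finset.mem_univ _) h
        · push Not at he
          obtain ⟨k0, hk0⟩ := he
          have h8 : ∑ e' : Row.Jc J, (if e'.1 = e then eval x' (arq p J) else 0) *
              ξ (Sum.inr (a, e'.1)) = 0 := by
            refine Finset.sum_eq_zero fun e' _ => ?_
            rw [if_neg, zero_mul]
            intro h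
            exact e'.2 k0 (hk0.trans h.symm)
          have h9 : ∀ e' : Row.Jc J, (∑ k, if J k = e then ∑ b, eval x' ((arg p J).adjugate k b) *
              x' (p b e'.1) else 0) = ∑ b, eval x' ((arg p J).adjugate k0 b) * x' (p b e'.1) := by
            intro e'
            rw [Finset.sum_eq_single k0]
            · rw [if_pos hk0]
            · intro k _ hk
              rw [if_neg]
              intro h
              exact hk (hJ (h.trans hk0.symm))
            · intro h; exact absurd (Finset.mem_univ _) h
          simp only [h9]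
          rw [h8, zero_sub]
          -- the moment relation
          have h10 : ∀ b, ∑ k, x' (p b (J k)) * ξ (Sum.inr (a, J k)) +
              ∑ e' : Row.Jc J, x' (p b e'.1) * ξ (Sum.inr (a, e'.1)) = 0 := by
            intro b
            rw [← hm a b]
            have h11 : Function.Bijective (Sum.elim J (fun e : Row.Jc J => e.1)) := by
              constructor
              · rintro (k | e) (k' | e') h
                · exact congrArg Sum.inl (hJ h)
                · exact absurd h (e'.2 k)
                · exact absurd h.symm (e.2 k')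
                · exact congrArg Sum.inr (Subtype.ext h)
              · intro e
                by_cases h : ∀ k, J k ≠ e
                · exact ⟨Sum.inr ⟨e, h⟩, rfl⟩
                · push Not at h
                  obtain ⟨k, hk⟩ := h
                  exact ⟨Sum.inl k, hk⟩
            rw [← (Equiv.ofBijective _ h11).sum_comp, Fintype.sum_sum_type]
            rfl
          have h12 : ∀ k, ∑ b, eval x' ((arg p J).adjugate k0 b) * x' (p b (J k)) =
              if k0 = k then eval x' (arq p J) else 0 := by
            intro k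
            have h13 := congrFun (congrFun (Matrix.adjugate_mul (arg p J)) k0) k
            rw [Matrix.mul_apply, Matrix.smul_apply, Matrix.one_apply, smul_eq_mul] at h13
            have h14 := congrArg (eval x') h13
            rw [map_sum] at h14
            have h15 : ∀ b, eval x' ((arg p J).adjugate k0 b * arg p J b k) =
                eval x' ((arg p J).adjugate k0 b) * x' (p b (J k)) := by
              intro b
              rw [map_mul]
              congr 1
              exact eval_X _
            simp only [h15] at h14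
            rw [h14]
            split_ifs
            · rw [mul_one]; rfl
            · rw [mul_zero, map_zero]
          have h16 : ∑ b, eval x' ((arg p J).adjugate k0 b) *
              (∑ k, x' (p b (J k)) * ξ (Sum.inr (a, J k))) =
              eval x' (arq p J) * ξ (Sum.inr (a, e)) := by
            simp only [Finset.mul_sum]
            rw [Finset.sum_comm]
            simp only [← mul_assoc, ← Finset.sum_mul, h12]
            rw [Finset.sum_eq_single k0]
            · rw [if_pos rfl, hk0]
            · intro k _ hk
              rw [if_neg (Ne.symm hk), zero_mul]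
            · intro h; exact absurd (Finset.mem_univ _) h
          have h17 : ∑ e' : Row.Jc J, (∑ b, eval x' ((arg p J).adjugate k0 b) * x' (p b e'.1)) *
              ξ (Sum.inr (a, e'.1)) = ∑ b, eval x' ((arg p J).adjugate k0 b) *
              ∑ e' : Row.Jc J, x' (p b e'.1) * ξ (Sum.inr (a, e'.1)) := by
            simp only [Finset.mul_sum, Finset.sum_mul, mul_assoc]
            rw [Finset.sum_comm]
          have h18 : ∑ e' : Row.Jc J, (∑ b, eval x' ((arg p J).adjugate k0 b) * x' (p b e'.1)) *
              ξ (Sum.inr (a, e'.1)) = - (eval x' (arq p J) * ξ (Sum.inr (a, e))) := by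
            rw [h17, ← h16, ← Finset.sum_neg_distrib]
            refine Finset.sum_congr rfl fun b _ => ?_
            rw [eq_neg_of_add_eq_zero_right (h10 b)]
            ring
          rw [h18, neg_neg, ← mul_assoc, inv_mul_cancel₀ hx', one_mul]
      · intro a' _ ha'
        refine Finset.sum_eq_zero fun e' _ => ?_
        rw [Row.Am, Row.A2, if_neg ha', map_zero, zero_mul]
      · intro h; exact absurd (Finset.mem_univ _) h
  rw [e1, e2] at h2
  exact h2

end Model

end Pool.DM
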