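import Pool.Agent.Work.MP_c20ce7_up.Interface

set_option autoImplicit false

/-!
# A point as in the up-step is conjugate to a block point
-/

open MvPolynomial

noncomputable section

namespace Pool.DM

section

variable {ι : Type} [Fintype ι] [DecidableEq ι]

/-- conjugation by matrices which preserve the degree -/
theorem BLT_conj {ι : Type} [Fintype ι] (e : ι → ℤ) (h M g : Matrix ι ι ℂ) (P : ℤ → ℤ → Prop)
    (hh : ∀ a b, h a b ≠ 0 → e a = e b) (hg : ∀ a b, g a b ≠ 0 → e a = e b)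
    (hM : ∀ a b, M a b ≠ 0 → P (e a) (e b)) (a b : ι) (hab : (h * M * g) a b ≠ 0) : P (e a) (e b) := by
  rw [Matrix.mul_apply] at hab
  obtain ⟨l, -, hl⟩ := Finset.exists_ne_zero_of_sum_ne_zero hab
  have h1 : (h * M) a l ≠ 0 := left_ne_zero_of_mul hl
  have h2 : g l b ≠ 0 := right_ne_zero_of_mul hl
  rw [Matrix.mul_apply] at h1
  obtain ⟨k, -, hk⟩ := Finset.exists_ne_zero_of_sum_ne_zero h1
  have h3 : h a k ≠ 0 := left_ne_zero_of_mul hk
  have h4 : M k l ≠ 0 := right_ne_zero_of_mul hk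
  rw [hh a k h3, ← hg l b h2]
  exact hM k l h4

theorem BLT_mat (e : ι → ℤ) (m : Matrix ι ι ℂ) (hm : ∀ a b, m a b ≠ 0 → e a = e b + 1) :
    mat e (fun c : Co e => m c.1.1 c.1.2) = m := by
  funext a b
  unfold mat
  by_cases h : e a = e b + 1
  · rw [dif_pos h]
  · rw [dif_neg h]
    by_contra h0
    exact h (hm a b (Ne.symm h0))

theorem BLT_ymat (e : ι → ℤ) (m : Matrix ι ι ℂ) (hm : ∀ a b, m a b ≠ 0 → e b = e a + 1) :
    ymat e (fun c : Co e => m c.1.2 c.1.1) = m := by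
  funext a b
  unfold ymat
  by_cases h : e b = e a + 1
  · rw [dif_pos h]
  · rw [dif_neg h]
    by_contra h0
    exact h (hm a b (Ne.symm h0))

theorem BLT_deg (e : ι → ℤ) (x : Co e → ℂ) (a b : ι) (h : mat e x a b ≠ 0) : e a = e b + 1 := by
  by_contra h0
  apply h
  unfold mat
  rw [dif_neg h0]

theorem BLT_ydeg (e : ι → ℤ) (ξ : Co e → ℂ) (a b : ι) (h : ymat e ξ a b ≠ 0) : e b = e a + 1 := by
  by_contra h0
  apply h
  unfold ymat
  rw [dif_neg h0]

end

section

variable {ι' C : Type} [Fintype ι'] [DecidableEq ι'] [Fintype C] [DecidableEq C]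

/-- the matrix `[1, 0; T, 1]` -/
def BLT_g (T : Matrix C ι' ℂ) : Matrix (ι' ⊕ C) (ι' ⊕ C) ℂ := Matrix.fromBlocks 1 0 T 1

omit [Fintype ι'] [Fintype C] in
theorem BLT_gdeg (e' : ι' → ℤ) (i : ℤ) (T : Matrix C ι' ℂ) (hT : TDeg e' i T) (a b : ι' ⊕ C)
    (h : BLT_g T a b ≠ 0) : addDeg e' C i a = addDeg e' C i b := by
  rcases a with a | a <;> rcases b with b | b
  · have h1 : (1 : Matrix ι' ι' ℂ) a b ≠ 0 := h
    have h2 : a = b := by
      by_contra h3
      exact h1 (Matrix.one_apply_ne h3)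
    rw [h2]
  · exact absurd rfl h
  · have h1 : T a b ≠ 0 := h
    exact (hT a b h1).symm
  · rfl

theorem BLT_mul (T : Matrix C ι' ℂ) : BLT_g T * BLT_g (-T) = 1 := by
  unfold BLT_g
  rw [Matrix.fromBlocks_multiply]
  simp

theorem BLT_emb (T : Matrix C ι' ℂ) : BLT_g T * emb (0 : Matrix C ι' ℂ) = emb T := by
  ext a b
  rw [Matrix.mul_apply, Fintype.sum_sum_type]
  rcases a with a | a <;> simp [BLT_g, emb, Matrix.one_apply]

end

theorem p_BLT : Stmt_BLT := by
  intro ι' C _ _ _ _ e' i x' ξ' T x ξ hT hx hy hmom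
  obtain ⟨g, hg⟩ : ∃ g, g = BLT_g T := ⟨_, rfl⟩
  obtain ⟨h, hh⟩ : ∃ h, h = BLT_g (-T) := ⟨_, rfl⟩
  have hgh : g * h = 1 := by rw [hg, hh]; exact BLT_mul T
  have hhg : h * g = 1 := by
    have h1 := BLT_mul (-T)
    rw [neg_neg] at h1
    rw [hg, hh]
    exact h1
  have hgd : ∀ a b, g a b ≠ 0 → addDeg e' C i a = addDeg e' C i b := by
    rw [hg]
    exact BLT_gdeg e' i T hT
  have hT' : TDeg e' i (-T) := by
    intro c a hca
    refine hT c a fun h0 => hca ?_
    rw [Matrix.neg_apply, h0, neg_zero]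
  have hhd : ∀ a b, h a b ≠ 0 → addDeg e' C i a = addDeg e' C i b := by
    rw [hh]
    exact BLT_gdeg e' i (-T) hT'
  have hemb : g * emb (0 : Matrix C ι' ℂ) = emb T := by
    rw [hg]
    exact BLT_emb T
  obtain ⟨M, hM⟩ : ∃ M, M = mat (addDeg e' C i) x := ⟨_, rfl⟩
  obtain ⟨Y, hY⟩ : ∃ Y, Y = ymat (addDeg e' C i) ξ := ⟨_, rfl⟩
  have hm1 : mat (addDeg e' C i) (fun c => (h * M * g) c.1.1 c.1.2) = h * M * g := by
    refine BLT_mat _ _ fun a b hab => ?_
    refine BLT_conj (addDeg e' C i) h M g (fun p q => p = q + 1) hhd hgd ?_ a b hab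
    intro a b hab'
    rw [hM] at hab'
    exact BLT_deg _ _ a b hab'
  have hy1 : ymat (addDeg e' C i) (fun c => (h * Y * g) c.1.2 c.1.1) = h * Y * g := by
    refine BLT_ymat _ _ fun a b hab => ?_
    refine BLT_conj (addDeg e' C i) h Y g (fun p q => q = p + 1) hhd hgd ?_ a b hab
    intro a b hab'
    rw [hY] at hab'
    exact BLT_ydeg _ _ a b hab'
  rw [← hM] at hx
  rw [← hY] at hy
  rw [← hM, ← hY] at hmom
  have hback : ∀ N : Matrix (ι' ⊕ C) (ι' ⊕ C) ℂ, N = g * (h * N * g) * h := by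
    intro N
    calc N = (g * h) * N * (g * h) := by rw [hgh, Matrix.one_mul, Matrix.mul_one]
      _ = g * (h * N * g) * h := by simp only [Matrix.mul_assoc]
  have hrel : ∀ (N : Matrix (ι' ⊕ C) (ι' ⊕ C) ℂ) (N' : Matrix ι' ι' ℂ), N * emb T = emb T * N' →
      h * N * g * emb (0 : Matrix C ι' ℂ) = emb (0 : Matrix C ι' ℂ) * N' := by
    intro N N' hN
    calc h * N * g * emb (0 : Matrix C ι' ℂ) = h * (N * (g * emb (0 : Matrix C ι' ℂ))) := by
          simp only [Matrix.mul_assoc]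
      _ = h * (g * emb (0 : Matrix C ι' ℂ) * N') := by rw [hemb, hN]
      _ = (h * g) * (emb (0 : Matrix C ι' ℂ) * N') := by simp only [Matrix.mul_assoc]
      _ = emb (0 : Matrix C ι' ℂ) * N' := by rw [hhg, Matrix.one_mul]
  refine ⟨g, h, fun c => (h * M * g) c.1.1 c.1.2, fun c => (h * Y * g) c.1.2 c.1.1, hgh, hhg, hgd, hhd, ?_, ?_, ?_⟩
  · refine ⟨?_, ?_, ?_⟩
    · rw [hm1]
      exact hrel M _ hx
    · rw [hy1]
      exact hrel Y _ hy
    · intro a b ha hb
      rw [hm1, hy1]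
      have e1 : h * M * g * (h * Y * g) - h * Y * g * (h * M * g) = h * (M * Y - Y * M) * g := by
        have k : ∀ A B : Matrix (ι' ⊕ C) (ι' ⊕ C) ℂ, h * A * g * (h * B * g) = h * (A * B) * g := by
          intro A B
          calc h * A * g * (h * B * g) = h * A * (g * h) * (B * g) := by simp only [Matrix.mul_assoc]
            _ = h * (A * B) * g := by rw [hgh, Matrix.mul_one]; simp only [Matrix.mul_assoc]
        rw [k, k, Matrix.mul_sub, Matrix.sub_mul]
      rw [e1]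
      by_contra hne
      have h2 := BLT_conj (addDeg e' C i) h (M * Y - Y * M) g (fun p q => ¬ (p = i ∧ q = i)) hhd hgd ?_ a b hne
      · exact h2 ⟨ha, hb⟩
      · intro a b hab hii
        exact hab (hmom a b hii.1 hii.2)
  · rw [hm1, ← hM]
    exact hback M
  · rw [hy1, ← hY]
    exact hback Y

end Pool.DM
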