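import Pool.Agent.Work.MP_c20ce7_up.Interface

set_option autoImplicit false
set_option linter.unusedSectionVars false

/-!
# DET: the minors of `φ` are semi-invariant
-/

open MvPolynomial

noncomputable section

namespace Pool.DM

section Gen

variable {σ : Type} [DecidableEq σ] {L : Type} [AddCommGroup L] [Module ℂ L]

theorem DET_ad (V : WMod σ L) (T : Module.End ℂ L) (D : Derivation ℂ (MvPolynomial σ ℂ) (MvPolynomial σ ℂ))
    (h : ∀ p, T * V.x (X p) = V.x (X p) * T + V.x (D (X p))) (f : MvPolynomial σ ℂ) :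
    T * V.x f = V.x f * T + V.x (D f) := by
  induction f using MvPolynomial.induction_on with
  | C a =>
    have h1 : V.x (C a) = a • (1 : Module.End ℂ L) := by
      have h2 : (C a : MvPolynomial σ ℂ) = algebraMap ℂ _ a := rfl
      rw [h2, AlgHom.commutes, Algebra.algebraMap_eq_smul_one]
    rw [MvPolynomial.derivation_C, map_zero, add_zero, h1, mul_smul_comm, smul_mul_assoc, mul_one, one_mul]
  | add p q hp hq =>
    rw [map_add, map_add, map_add, mul_add, hp, hq, add_mul]
    abel
  | mul_X p i hp =>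
    have h1 : V.x (D p) * V.x (X i) = V.x (X i) * V.x (D p) := by
      rw [← map_mul, ← map_mul, mul_comm]
    rw [map_mul, ← mul_assoc, hp, D.leibniz, smul_eq_mul, smul_eq_mul, map_add, map_mul, map_mul, add_mul,
      mul_assoc (V.x p) T, h i, mul_add, h1, ← mul_assoc]
    abel

end Gen

theorem DET_zero {α A : Type} [CommRing A] [Algebra ℂ A] (D : Derivation ℂ A A) (s : Finset α) (g : α → A)
    (h : ∀ a ∈ s, D (g a) = 0) : D (∏ a ∈ s, g a) = 0 := by
  classical
  induction s using Finset.induction_on with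
  | empty => rw [Finset.prod_empty, D.map_one_eq_zero]
  | insert a s ha ih =>
    rw [Finset.prod_insert ha, D.leibniz, ih fun b hb => h b (Finset.mem_insert_of_mem hb),
      h a (Finset.mem_insert_self a s), smul_zero, smul_zero, add_zero]

theorem DET_mat {n A : Type} [Fintype n] [DecidableEq n] [CommRing A] [Algebra ℂ A] (D : Derivation ℂ A A)
    (M : Matrix n n A) (k b : n) (h : ∀ a j, D (M a j) = if a = k then M b j else 0) :
    D M.det = if k = b then M.det else 0 := by
  have h1 : D M.det = (M.updateRow k (M b)).det := by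
    rw [Matrix.det_apply', Matrix.det_apply', map_sum]
    refine Finset.sum_congr rfl fun s _ => ?_
    rw [D.leibniz, D.map_intCast, smul_zero, add_zero, smul_eq_mul]
    congr 1
    rw [← Finset.mul_prod_erase Finset.univ (fun i => M (s i) i) (Finset.mem_univ (s.symm k)),
      ← Finset.mul_prod_erase Finset.univ (fun i => M.updateRow k (M b) (s i) i) (Finset.mem_univ (s.symm k)),
      D.leibniz, DET_zero, smul_zero, zero_add, smul_eq_mul, h, mul_comm]
    · congr 1
      · rw [if_pos (s.apply_symm_apply k)]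
        simp only [s.apply_symm_apply, Matrix.updateRow_self]
      · refine Finset.prod_congr rfl fun a ha => ?_
        have hne : s a ≠ k := by
          intro h2
          rw [Finset.mem_erase] at ha
          apply ha.1
          rw [← h2, s.symm_apply_apply]
        rw [Matrix.updateRow_ne hne]
    · intro a ha
      rw [h, if_neg]
      intro h2
      rw [Finset.mem_erase] at ha
      apply ha.1
      rw [← h2, s.symm_apply_apply]
  rw [h1]
  by_cases hkb : k = b
  · rw [if_pos hkb, hkb, Matrix.updateRow_eq_self]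
  · rw [if_neg hkb]
    exact Matrix.det_updateRow_eq_zero (Ne.symm hkb)

section Ops

variable {ι : Type} [Fintype ι] [DecidableEq ι] {e : ι → ℤ} {L : Type} [AddCommGroup L] [Module ℂ L]

theorem DET_xo_pos (W : WMod (Co e) L) (a b : ι) (h : e a = e b + 1) : W.xo a b = W.x (X ⟨(a, b), h⟩) := by
  unfold WMod.xo
  exact dif_pos h

theorem DET_xo_neg (W : WMod (Co e) L) (a b : ι) (h : ¬ e a = e b + 1) : W.xo a b = 0 := by
  unfold WMod.xo
  exact dif_neg h

theorem DET_dO_pos (W : WMod (Co e) L) (a b : ι) (h : e a = e b + 1) : W.dO a b = W.d (X ⟨(a, b), h⟩) := by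
  unfold WMod.dO
  exact dif_pos h

theorem DET_dO_neg (W : WMod (Co e) L) (a b : ι) (h : ¬ e a = e b + 1) : W.dO a b = 0 := by
  unfold WMod.dO
  exact dif_neg h

/-- `[∂_{ac}, x_p]` -/
theorem DET_dx (W : WMod (Co e) L) (a c : ι) (p : Co e) :
    W.dO a c * W.x (X p) = W.x (X p) * W.dO a c + if (a, c) = p.1 then 1 else 0 := by
  by_cases h : e a = e c + 1
  · rw [DET_dO_pos W a c h]
    have h1 := W.comm ⟨(a, c), h⟩ p
    have h2 : ((⟨(a, c), h⟩ : Co e) = p) ↔ (a, c) = p.1 := Subtype.ext_iff
    rw [if_congr h2 rfl rfl] at h1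
    rw [← h1]
    abel
  · rw [DET_dO_neg W a c h, zero_mul, mul_zero, zero_add, if_neg]
    intro h1
    apply h
    have h2 := p.2
    rw [← h1] at h2
    exact h2

/-- `[∂_p, x_{ac}]` -/
theorem DET_xd (W : WMod (Co e) L) (a c : ι) (p : Co e) :
    W.xo a c * W.d (X p) = W.d (X p) * W.xo a c - if (a, c) = p.1 then 1 else 0 := by
  by_cases h : e a = e c + 1
  · rw [DET_xo_pos W a c h]
    have h1 := W.comm p ⟨(a, c), h⟩
    have h2 : (p = (⟨(a, c), h⟩ : Co e)) ↔ (a, c) = p.1 := by
      rw [eq_comm, Subtype.ext_iff]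
    rw [if_congr h2 rfl rfl] at h1
    rw [← h1]
    abel
  · rw [DET_xo_neg W a c h, zero_mul, mul_zero, zero_sub, if_neg, neg_zero]
    intro h1
    apply h
    have h2 := p.2
    rw [← h1] at h2
    exact h2

theorem DET_xx (W : WMod (Co e) L) (a c : ι) (p : Co e) : W.xo a c * W.x (X p) = W.x (X p) * W.xo a c := by
  by_cases h : e a = e c + 1
  · rw [DET_xo_pos W a c h, ← map_mul, ← map_mul, mul_comm]
  · rw [DET_xo_neg W a c h, zero_mul, mul_zero]

theorem DET_dd (W : WMod (Co e) L) (a c : ι) (p : Co e) : W.dO a c * W.d (X p) = W.d (X p) * W.dO a c := by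
  by_cases h : e a = e c + 1
  · rw [DET_dO_pos W a c h, ← map_mul, ← map_mul, mul_comm]
  · rw [DET_dO_neg W a c h, zero_mul, mul_zero]

theorem DET_Gx (W : WMod (Co e) L) (k b : ι) (p : Co e) (hp : p.1.2 ≠ b) :
    W.G k b * W.x (X p) = W.x (X p) * W.G k b + if p.1.1 = k then W.xo b p.1.2 else 0 := by
  unfold WMod.G
  rw [sub_mul, mul_sub, Finset.sum_mul, Finset.sum_mul, Finset.mul_sum, Finset.mul_sum]
  have h1 : ∑ c, W.xo b c * W.dO k c * W.x (X p) =
      ∑ c, W.x (X p) * (W.xo b c * W.dO k c) + if p.1.1 = k then W.xo b p.1.2 else 0 := by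
    have h2 : ∀ c, W.xo b c * W.dO k c * W.x (X p) =
        W.x (X p) * (W.xo b c * W.dO k c) + if c = p.1.2 then (if p.1.1 = k then W.xo b p.1.2 else 0) else 0 := by
      intro c
      rw [mul_assoc, DET_dx, mul_add, ← mul_assoc, DET_xx, mul_assoc]
      congr 1
      by_cases hc : c = p.1.2
      · rw [if_pos hc]
        by_cases hk : p.1.1 = k
        · rw [if_pos hk, if_pos (Prod.ext hk.symm hc), mul_one, hc]
        · rw [if_neg hk, if_neg, mul_zero]
          intro h3
          exact hk (congrArg Prod.fst h3).symm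
      · rw [if_neg hc, if_neg, mul_zero]
        intro h3
        exact hc (congrArg Prod.snd h3)
    rw [Finset.sum_congr rfl fun c _ => h2 c, Finset.sum_add_distrib, Finset.sum_ite_eq' Finset.univ p.1.2,
      if_pos (Finset.mem_univ _)]
  have h3 : ∑ c, W.xo c k * W.dO c b * W.x (X p) = ∑ c, W.x (X p) * (W.xo c k * W.dO c b) := by
    refine Finset.sum_congr rfl fun c _ => ?_
    rw [mul_assoc, DET_dx, if_neg, add_zero, ← mul_assoc, DET_xx, mul_assoc]
    intro h4
    exact hp (congrArg Prod.snd h4).symm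
  rw [h1, h3]
  abel

theorem DET_Gd (W : WMod (Co e) L) (k b : ι) (p : Co e) (hp : p.1.1 ≠ b) :
    W.G k b * W.d (X p) = W.d (X p) * W.G k b + if p.1.2 = k then W.dO p.1.1 b else 0 := by
  unfold WMod.G
  rw [sub_mul, mul_sub, Finset.sum_mul, Finset.sum_mul, Finset.mul_sum, Finset.mul_sum]
  have h1 : ∑ c, W.xo b c * W.dO k c * W.d (X p) = ∑ c, W.d (X p) * (W.xo b c * W.dO k c) := by
    refine Finset.sum_congr rfl fun c _ => ?_
    rw [mul_assoc, DET_dd, ← mul_assoc, DET_xd, if_neg, sub_zero, mul_assoc]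
    intro h4
    exact hp (congrArg Prod.fst h4).symm
  have h3 : ∑ c, W.xo c k * W.dO c b * W.d (X p) =
      ∑ c, W.d (X p) * (W.xo c k * W.dO c b) - if p.1.2 = k then W.dO p.1.1 b else 0 := by
    have h2 : ∀ c, W.xo c k * W.dO c b * W.d (X p) =
        W.d (X p) * (W.xo c k * W.dO c b) - if c = p.1.1 then (if p.1.2 = k then W.dO p.1.1 b else 0) else 0 := by
      intro c
      rw [mul_assoc, DET_dd, ← mul_assoc, DET_xd, sub_mul, mul_assoc]
      congr 1
      by_cases hc : c = p.1.1
      · rw [if_pos hc]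
        by_cases hk : p.1.2 = k
        · rw [if_pos hk, if_pos (Prod.ext hc hk.symm), one_mul, hc]
        · rw [if_neg hk, if_neg, zero_mul]
          intro h3
          exact hk (congrArg Prod.snd h3).symm
      · rw [if_neg hc, if_neg, zero_mul]
        intro h3
        exact hc (congrArg Prod.fst h3)
    rw [Finset.sum_congr rfl fun c _ => h2 c, Finset.sum_sub_distrib, Finset.sum_ite_eq' Finset.univ p.1.1,
      if_pos (Finset.mem_univ _)]
  rw [h1, h3]
  abel

end Ops

theorem p_DET : Stmt_DET := by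
  intro ι' _ _ e i L _ _ W V hF J k b hk hb
  obtain ⟨D, hD⟩ : ∃ D : Derivation ℂ (MvPolynomial (Co e) ℂ) (MvPolynomial (Co e) ℂ), ∀ p : Co e,
      D (X p) = if e p.1.2 = i then (if p.1.2 = k then pol e b p.1.1 else 0) else
        (if p.1.1 = k then pol e b p.1.2 else 0) :=
    ⟨mkDerivation ℂ fun p : Co e => if e p.1.2 = i then (if p.1.2 = k then pol e b p.1.1 else 0) else
        (if p.1.1 = k then pol e b p.1.2 else 0), fun p => mkDerivation_X _ _ _⟩
  have hG : ∀ p : Co e, W.G k b * V.x (X p) = V.x (X p) * W.G k b + V.x (D (X p)) := by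
    intro p
    have hp2 := p.2
    rw [hD]
    by_cases hA : e p.1.2 = i
    · rw [if_pos hA, hF.xA p hA, DET_Gd W k b p (by
        intro h
        rw [h] at hp2
        omega)]
      congr 1
      by_cases hpk : p.1.2 = k
      · have h1 : ¬ e b = e p.1.1 + 1 := by omega
        have h2 : e p.1.1 = e b + 1 := by omega
        rw [if_pos hpk, if_pos hpk, pol, dif_neg h1, dif_pos h2, hF.xA ⟨(p.1.1, b), h2⟩ hb, DET_dO_pos W _ _ h2]
      · rw [if_neg hpk, if_neg hpk, map_zero]
    · rw [if_neg hA, hF.xN p hA, DET_Gx W k b p (by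
        intro h
        rw [h] at hA
        exact hA hb)]
      congr 1
      by_cases hpk : p.1.1 = k
      · have h1 : e b = e p.1.2 + 1 := by
          rw [hpk] at hp2
          omega
        rw [if_pos hpk, if_pos hpk, pol, dif_pos h1, hF.xN ⟨(b, p.1.2), h1⟩ hA, DET_xo_pos W _ _ h1]
      · rw [if_neg hpk, if_neg hpk, map_zero]
  have hDp : ∀ (a : {b // e b = i}) (c : ι'), D (pol e a.1 c) =
      if a = (⟨k, hk⟩ : {b // e b = i}) then pol e b c else 0 := by
    intro a c
    have ha := a.2
    have hak : (a = (⟨k, hk⟩ : {b // e b = i})) ↔ a.1 = k := Subtype.ext_iff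
    rw [if_congr hak rfl rfl]
    by_cases h1 : e a.1 = e c + 1
    · rw [pol, dif_pos h1, hD]
      have h2 : ¬ e c = i := by omega
      simp only
      rw [if_neg h2]
    · by_cases h2 : e c = e a.1 + 1
      · rw [pol, dif_neg h1, dif_pos h2, hD]
        simp only
        rw [if_pos ha]
      · have h3 : ¬ e b = e c + 1 := by omega
        have h4 : ¬ e c = e b + 1 := by omega
        rw [pol, dif_neg h1, dif_neg h2, map_zero, pol, dif_neg h3, dif_neg h4]
        split_ifs <;> rfl
  have hdet := DET_mat D (fun a j : {b // e b = i} => pol e a.1 (J j)) ⟨k, hk⟩ ⟨b, hb⟩ fun a j => hDp a (J j)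
  have hfin := DET_ad V (W.G k b) D hG (minor e i J)
  rw [hfin, mul_add]
  congr 1
  have h5 : D (minor e i J) = if k = b then minor e i J else 0 := by
    have h6 : ((⟨k, hk⟩ : {b // e b = i}) = ⟨b, hb⟩) ↔ k = b := Subtype.ext_iff
    rw [if_congr h6 rfl rfl] at hdet
    exact hdet
  rw [h5]
  split_ifs with h7
  · rw [mul_one]
  · rw [map_zero, mul_zero]

end Pool.DM
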