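import Pool.Agent.Work.MP_c20ce7_up.AR1
import Pool.Agent.Work.MP_c20ce7_up.AR5

set_option autoImplicit false
set_option linter.unusedSectionVars false
set_option linter.unusedVariables false

/-!
# The existence of the row extension
-/

open MvPolynomial

noncomputable section

namespace Pool.DM

attribute [local instance] instAddCommGroupM instModuleMvPolynomialComplexM instModuleComplexLoc

section Ent

variable {ι' : Type} [Fintype ι'] [DecidableEq ι'] (e' : ι' → ℤ) (C : Type) [Fintype C] [DecidableEq C] (i : ℤ)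

theorem ar_ent (e : ι' → ℤ) (x : Co e → ℂ) (b c : ι') : ent e x b c = eval x (pol e b c) := by
  unfold ent pol
  split_ifs
  · rw [eval_X]
  · rw [eval_X]
  · rw [map_zero]

end Ent

section Points

variable {ι' C : Type} [Fintype ι'] [DecidableEq ι'] [Fintype C] [DecidableEq C] {e' : ι' → ℤ} {i : ℤ}

/-- The old coordinates of a point. -/
theorem ar_pt_old {x' : Co e' → ℂ} {x : Co (addDeg e' C i) → ℂ}
    (h0 : ∀ p : Co e', e' p.1.1 ≠ i → e' p.1.2 ≠ i → x ⟨(Sum.inl p.1.1, Sum.inl p.1.2), p.2⟩ = x' p)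
    (h1 : ∀ b c, e' b = i → ent (addDeg e' C i) x (Sum.inl b) (Sum.inl c) = ent e' x' b c) (k : Co e') :
    x (fe e' C i (Sum.inl k)) = x' k := by
  rw [fe_inl]
  obtain ⟨⟨b, c⟩, h⟩ := k
  by_cases hb : e' b = i
  · have h2 := h1 b c hb
    unfold ent at h2
    rw [dif_pos (show addDeg e' C i (Sum.inl b) = addDeg e' C i (Sum.inl c) + 1 from h), dif_pos h] at h2
    exact h2
  · by_cases hc : e' c = i
    · have h2 := h1 c b hc
      unfold ent at h2
      have h' : e' b = e' c + 1 := h
      rw [dif_neg (show ¬ addDeg e' C i (Sum.inl c) = addDeg e' C i (Sum.inl b) + 1 by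
        show ¬ e' c = e' b + 1; omega), dif_pos (show addDeg e' C i (Sum.inl b) =
        addDeg e' C i (Sum.inl c) + 1 from h), dif_neg (by omega), dif_pos h'] at h2
      exact h2
    · exact h0 ⟨(b, c), h⟩ hb hc

theorem ar_pt_new (x : Co (addDeg e' C i) → ℂ) (a : C) (c : ET e' i) :
    ent (addDeg e' C i) x (Sum.inr a) (Sum.inl c.1) = x (fe e' C i (Sum.inr (a, c))) := by
  rw [ar_ent, pol_inr, eval_X]

end Points

theorem p_EX : Stmt_EX := by
  intro ι' C _ _ _ _ e' i L' _ _ W' V' hS hG h' J hJn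
  classical
  -- the columns are neighbours
  have hmin0 : minor e' i J ≠ 0 := by
    intro h
    apply hJn
    intro u
    refine ⟨1, ?_⟩
    rw [h, map_zero, pow_one]
    rfl
  have hnb : ∀ k, e' (J k) = i - 1 ∨ e' (J k) = i + 1 := by
    intro k
    by_contra hk
    apply hmin0
    unfold minor
    refine Matrix.det_eq_zero_of_column_eq_zero k fun b => ?_
    exact pol_not e' i b.1 b.2 _ hk
  let J' : RT e' i → ET e' i := fun k => ⟨J k, hnb k⟩
  have hq : minor e' i J = arq (pp e' i) J' := by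
    unfold minor arq
    congr 1
    funext b k
    exact pol_pp e' i b (J' k)
  rw [hq] at hJn hmin0
  have hVS : V'.Simple := h'.simple.1 hS
  have hVG : V'.Growth := h'.growth.1 hG
  have hinj : Function.Injective (V'.x (arq (pp e' i) J')) := by
    rcases V'.nilp_or_inj hVS (arq (pp e' i) J') with h | h
    · exact absurd (fun u => by
        obtain ⟨k, hk⟩ := h u
        exact ⟨k, by rwa [map_pow] at hk⟩) hJn
    · exact h
  have hl := V'.isLoc (arq (pp e' i) J')
  have hL := hl.lsimple hVS hinj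
  have hG1 := hl.growth hVG
  have hJ : Function.Injective J' := ar_J_inj hmin0
  set V1 := V'.loc (Submonoid.powers (arq (pp e' i) J')) with hV1
  set ι := V'.ι (Submonoid.powers (arq (pp e' i) J')) with hι
  have hp := pp_inj e' i
  let ar := arR (C := C) V1 hL hJ hl (fun b b' e1 e2 h => hp b b' e1 e2 h)
  obtain ⟨W, hW⟩ := four_inv (Src (addDeg e' C i) i) ((arV (C := C) V1 hL hJ).rex (fe e' C i))
  obtain ⟨rx, hrx⟩ := exists_rowExt h' ar hW
  have hlam : rx.lam = arLam C V1 hL ι := hrx
  have hLS := arV_lsimple (C := C) V1 hL hJ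
  refine ⟨_, inferInstance, inferInstance, W, (arV (C := C) V1 hL hJ).rex (fe e' C i), rx, hW,
    hW.growth.2 ((arV_growth V1 hL hJ hG1).rex _), ?_, ?_, ?_⟩
  · rw [hlam]
    exact b0_inj.comp ((ar_invx_pow_inj hL.bij _).comp (hl.inj hinj))
  · intro N hN hN0
    have hN3 : (arV (C := C) V1 hL hJ).Stable N := (WMod.rex_stable _).1 ((hW.stable N).1 hN)
    obtain ⟨w0, -, hw0⟩ := Submodule.exists_mem_ne_zero_of_ne_bot hS.2.1
    obtain ⟨k, hk⟩ := hLS.exists_pow N hN3 hN0 (rx.lam w0)
    refine ⟨V'.x (arq (pp e' i) J' ^ k) w0, ?_, ?_⟩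
    · intro h0
      exact hw0 (V'.x_pow_inj hinj k (by rw [h0, map_zero]))
    · rw [hlam, ← arLam_x (C := C) V1 hL hl]
      rw [← map_pow, arV, WMod.coord_x, ar_bind, hlam] at hk
      exact hk
  · intro x' ξ' hCh hx' x ξ hR
    rw [hq] at hx'
    have h1 : V1.InCh x' ξ' := (hl.inCh hinj hx').2 hCh
    refine WMod.InCh.rex (arV_inCh V1 hL hJ h1 hx' _ _ ?_ ?_ ?_ ?_)
    · intro k
      exact ar_pt_old hR.x0 hR.x1 k
    · rintro ⟨a, c⟩
      have h2 := hR.x2 a c.1
      rw [ar_pt_new] at h2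
      exact h2
    · intro k
      exact ar_pt_old hR.xi0 hR.xi1 k
    · intro a b
      have h2 := hR.mom a b.1 b.2
      rw [sum_ET e' i] at h2
      · rw [← h2]
        refine Finset.sum_congr rfl fun c _ => ?_
        rw [ar_pt_new, ar_ent, pol_pp, eval_X]
        rfl
      · intro c hc
        rw [ar_ent, pol_not e' i b.1 b.2 c hc, map_zero, zero_mul]

end Pool.DM
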