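import Pool.Agent.Work.MP_c20ce7_up.Interface
import Pool.Agent.Work.MP_c20ce7_dm93.S1
import Pool.Agent.Work.MP_c20ce7_dm70.S3

set_option autoImplicit false
set_option linter.unusedSectionVars false

/-! Block FOU: the characteristic variety and the partial Fourier transform. -/

open MvPolynomial

noncomputable section

namespace Pool.DM

section Gen

variable {σ : Type} [Fintype σ] [DecidableEq σ] {L : Type} [AddCommGroup L] [Module ℂ L]

omit [Fintype σ] [DecidableEq σ] in
theorem FOU_weight (s : σ ⊕ σ →₀ ℕ) :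
    Finsupp.weight (xiw : σ ⊕ σ → ℤ) s = ((Finsupp.weight (wt σ) s : ℕ) : ℤ) := by
  rw [Finsupp.weight_apply, Finsupp.weight_apply, Finsupp.sum, Finsupp.sum, Nat.cast_sum]
  refine Finset.sum_congr rfl fun v _ => ?_
  rcases v with v | v <;> simp [xiw, wt]

omit [Fintype σ] [DecidableEq σ] in
theorem FOU_ordF (P : MvPolynomial (σ ⊕ σ) ℂ) (m : ℕ) :
    weightedTotalDegree (wt σ) P ≤ m ↔ P ∈ ordF σ m := by
  rw [weightedTotalDegree, Finset.sup_le_iff, mem_ordF]
  constructor
  · intro h s hs
    have h1 := h s (mem_support_iff.2 hs)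
    rw [FOU_weight]
    exact_mod_cast h1
  · intro h s hs
    have h1 := h s (mem_support_iff.1 hs)
    rw [FOU_weight] at h1
    exact_mod_cast h1

omit [Fintype σ] [DecidableEq σ] in
theorem FOU_symb (P : MvPolynomial (σ ⊕ σ) ℂ) (m : ℕ) :
    weightedHomogeneousComponent (wt σ) m P = symb m P := by
  classical
  ext s
  rw [coeff_weightedHomogeneousComponent, coeff_symb, FOU_weight]
  by_cases h : Finsupp.weight (wt σ) s = m
  · rw [if_pos h, if_pos (by exact_mod_cast h)]
  · rw [if_neg h, if_neg (by exact_mod_cast h)]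

open Classical in
/-- The change of the total symbols. -/
def FOU_Phi (A : σ → Prop) (a b : ℂ) : MvPolynomial (σ ⊕ σ) ℂ →ₐ[ℂ] MvPolynomial (σ ⊕ σ) ℂ :=
  aeval (Sum.elim (fun k => if A k then a • X (Sum.inr k) else X (Sum.inl k))
    (fun k => if A k then b • X (Sum.inl k) else X (Sum.inr k)))

open Classical in
/-- The order of the image. -/
def FOU_om (A : σ → Prop) : σ ⊕ σ → ℤ :=
  Sum.elim (fun k => if A k then 1 else 0) (fun k => if A k then 0 else 1)

open Classical in
/-- The degree with respect to the Euler operator. -/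
def FOU_up (A : σ → Prop) : σ ⊕ σ → ℤ :=
  Sum.elim (fun k => if A k then 1 else 0) (fun k => if A k then -1 else 0)

omit [Fintype σ] [DecidableEq σ] in
theorem FOU_om_eq (A : σ → Prop) (s : σ ⊕ σ →₀ ℕ) :
    Finsupp.weight (FOU_om A) s = Finsupp.weight xiw s + Finsupp.weight (FOU_up A) s := by
  rw [Finsupp.weight_apply, Finsupp.weight_apply, Finsupp.weight_apply, Finsupp.sum, Finsupp.sum,
    Finsupp.sum, ← Finset.sum_add_distrib]
  refine Finset.sum_congr rfl fun v _ => ?_
  rw [← smul_add]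
  congr 1
  rcases v with v | v <;> by_cases h : A v <;> simp [xiw, FOU_om, FOU_up, h]

theorem FOU_nf_C (V : WMod σ L) (c : ℂ) : V.nf (C c) = c • (1 : Module.End ℂ L) := by
  have h := V.nf_mul (C c) 1
  rw [rename_C, map_one, mul_one, map_one, mul_one, V.x_C] at h
  exact h

omit [Fintype σ] [DecidableEq σ] in
theorem FOU_comm {θ X N : Module.End ℂ L} {a b : ℂ} (hX : θ * X = X * θ - a • X)
    (hN : θ * N = N * θ - b • N) : θ * (X * N) = X * N * θ - (a + b) • (X * N) := by
  rw [← mul_assoc, hX, sub_mul, mul_assoc, hN, mul_sub, mul_assoc, smul_mul_assoc,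
    mul_smul_comm, add_smul]
  abel

omit [Fintype σ] [DecidableEq σ] in
theorem FOU_symb_inr (k : σ) :
    symb (1 : ℤ) (X (Sum.inr k) : MvPolynomial (σ ⊕ σ) ℂ) = X (Sum.inr k) := by
  classical
  ext m
  rw [coeff_symb]
  split_ifs with h
  · rfl
  · rw [MvPolynomial.coeff_X]
    split_ifs with h2
    · exact absurd (by rw [← h2]; simp [Finsupp.weight_single, xiw]) h
    · rfl

omit [Fintype σ] [DecidableEq σ] in
theorem FOU_symb_inl (k : σ) :
    symb (0 : ℤ) (X (Sum.inl k) : MvPolynomial (σ ⊕ σ) ℂ) = X (Sum.inl k) := by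
  have h := symb_inl (X k : MvPolynomial σ ℂ)
  rwa [rename_X] at h

theorem FOU_mon (A : σ → Prop) (a b : ℂ) (W V : WMod σ L) (θ : Module.End ℂ L)
    (hxA : ∀ k, A k → V.x (X k) = a • W.d (X k)) (hdA : ∀ k, A k → V.d (X k) = b • W.x (X k))
    (hxN : ∀ k, ¬ A k → V.x (X k) = W.x (X k)) (hdN : ∀ k, ¬ A k → V.d (X k) = W.d (X k))
    (hx : ∀ k, θ * V.x (X k) = V.x (X k) * θ - ((FOU_up A (Sum.inl k) : ℤ) : ℂ) • V.x (X k))
    (hd : ∀ k, θ * V.d (X k) = V.d (X k) * θ - ((FOU_up A (Sum.inr k) : ℤ) : ℂ) • V.d (X k))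
    (s : σ ⊕ σ →₀ ℕ) (c : ℂ) :
    ∃ Q ∈ ordF σ (Finsupp.weight (FOU_om A) s), V.nf (monomial s c) = W.nf Q ∧
      symb (Finsupp.weight (FOU_om A) s) Q = FOU_Phi A a b (monomial s c) ∧
      θ * V.nf (monomial s c) = V.nf (monomial s c) * θ -
        ((Finsupp.weight (FOU_up A) s : ℤ) : ℂ) • V.nf (monomial s c) := by
  classical
  have key : ∀ (N : ℕ) (s : σ ⊕ σ →₀ ℕ), s.degree = N →
      ∃ (n m : ℤ), n = Finsupp.weight (FOU_om A) s ∧ m = Finsupp.weight (FOU_up A) s ∧
      ∃ Q ∈ ordF σ n, V.nf (monomial s c) = W.nf Q ∧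
      symb n Q = FOU_Phi A a b (monomial s c) ∧
      θ * V.nf (monomial s c) = V.nf (monomial s c) * θ - (m : ℂ) • V.nf (monomial s c) := by
    intro N
    induction N with
    | zero =>
      intro s hs
      rw [Finsupp.degree_eq_zero_iff] at hs
      subst hs
      refine ⟨0, 0, by simp, by simp, C c, ?_, ?_, ?_, ?_⟩
      · rw [← rename_C (Sum.inl : σ → σ ⊕ σ) c]
        exact inl_mem _
      · rw [← C_apply, FOU_nf_C, FOU_nf_C]
      · rw [← C_apply, ← rename_C (Sum.inl : σ → σ ⊕ σ) c, symb_inl, rename_C]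
        simp [FOU_Phi]
      · rw [← C_apply, FOU_nf_C]
        simp
    | succ N ih =>
      intro s hs
      obtain ⟨v, hv⟩ : ∃ v, s v ≠ 0 := by
        by_contra h
        have h' : ∀ v, s v = 0 := fun v => not_not.1 fun h1 => h ⟨v, h1⟩
        have : s = 0 := Finsupp.ext h'
        rw [this, map_zero] at hs
        omega
      obtain ⟨t, rfl⟩ : ∃ t, s = t + Finsupp.single v 1 := by
        refine ⟨s - Finsupp.single v 1, ?_⟩
        rw [tsub_add_cancel_of_le]
        rw [Finsupp.single_le_iff]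
        omega
      rw [map_add, Finsupp.degree_single] at hs
      obtain ⟨n, m, hn, hm, Q, hQ, e1, e2, e3⟩ := ih t (by omega)
      have hmon : (monomial (t + Finsupp.single v 1) c : MvPolynomial (σ ⊕ σ) ℂ) =
          X v * monomial t c := by
        rw [X, monomial_mul, one_mul, add_comm]
      rw [map_add, map_add, Finsupp.weight_single, Finsupp.weight_single, one_smul, one_smul,
        ← hn, ← hm]
      rcases v with k | k
      · rw [hmon, ← V.x_mul_nf, map_mul (FOU_Phi A a b)]
        have hq0 := ordF_mul (Xinl_mem k) hQ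
        have hq1 := ordF_mul (Xinr_mem k) hQ
        have hp : pderiv (Sum.inl k) Q ∈ ordF σ n := by
          simpa [xiw] using pderiv_mem (Sum.inl k) hQ
        have e4 := FOU_comm (hx k) e3
        rw [← Int.cast_add, add_comm (FOU_up A (Sum.inl k)) m] at e4
        by_cases hA : A k
        · refine ⟨n + 1, m + FOU_up A (Sum.inl k), by simp [FOU_om, hA], rfl,
            a • (X (Sum.inr k) * Q + pderiv (Sum.inl k) Q), ?_, ?_, ?_, e4⟩
          · exact Submodule.smul_mem _ _ (add_mem (ordF_mono (by omega) hq1)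
              (ordF_mono (by omega) hp))
          · rw [hxA k hA, e1, map_smul, ← W.d_mul_nf, smul_mul_assoc]
          · rw [map_smul, map_add, symb_eq_zero hp (by omega), add_zero, add_comm n 1,
              symb_mul (Xinr_mem k) hQ, e2, FOU_symb_inr]
            simp [FOU_Phi, hA]
        · refine ⟨n, m + FOU_up A (Sum.inl k), by simp [FOU_om, hA], rfl,
            X (Sum.inl k) * Q, ?_, ?_, ?_, e4⟩
          · exact ordF_mono (by omega) hq0
          · rw [hxN k hA, e1, W.x_mul_nf]
          · have h := symb_mul (Xinl_mem k) hQ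
            rw [zero_add, FOU_symb_inl, e2] at h
            rw [h]
            simp [FOU_Phi, hA]
      · rw [hmon, ← V.nf_mul_d, map_mul (FOU_Phi A a b)]
        have hq0 := ordF_mul (Xinl_mem k) hQ
        have hq1 := ordF_mul (Xinr_mem k) hQ
        have hp : pderiv (Sum.inr k) Q ∈ ordF σ (n - 1) := by
          simpa [xiw] using pderiv_mem (Sum.inr k) hQ
        have e4 := FOU_comm e3 (hd k)
        rw [← Int.cast_add] at e4
        by_cases hA : A k
        · refine ⟨n, m + FOU_up A (Sum.inr k), by simp [FOU_om, hA], rfl,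
            b • (X (Sum.inl k) * Q + pderiv (Sum.inr k) Q), ?_, ?_, ?_, e4⟩
          · exact Submodule.smul_mem _ _ (add_mem (ordF_mono (by omega) hq0)
              (ordF_mono (by omega) hp))
          · rw [hdA k hA, e1, map_smul, ← W.nf_mul_x, mul_smul_comm]
          · have h := symb_mul (Xinl_mem k) hQ
            rw [zero_add, FOU_symb_inl, e2] at h
            rw [map_smul, map_add, symb_eq_zero hp (by omega), add_zero, h]
            simp [FOU_Phi, hA]
        · refine ⟨n + 1, m + FOU_up A (Sum.inr k), by simp [FOU_om, hA], rfl,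
            X (Sum.inr k) * Q, ?_, ?_, ?_, e4⟩
          · exact ordF_mono (by omega) hq1
          · rw [hdN k hA, e1, W.nf_mul_d]
          · have h := symb_mul (Xinr_mem k) hQ
            rw [FOU_symb_inr, e2, add_comm] at h
            rw [h]
            simp [FOU_Phi, hA]
  obtain ⟨n, m, rfl, rfl, h⟩ := key _ s rfl
  exact h

/-- One inclusion, for a vector which is an eigenvector of the Euler operator. -/
theorem FOU_at (A : σ → Prop) (a b : ℂ) (W V : WMod σ L) (θ : Module.End ℂ L)
    (hxA : ∀ k, A k → V.x (X k) = a • W.d (X k)) (hdA : ∀ k, A k → V.d (X k) = b • W.x (X k))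
    (hxN : ∀ k, ¬ A k → V.x (X k) = W.x (X k)) (hdN : ∀ k, ¬ A k → V.d (X k) = W.d (X k))
    (hx : ∀ k, θ * V.x (X k) = V.x (X k) * θ - ((FOU_up A (Sum.inl k) : ℤ) : ℂ) • V.x (X k))
    (hd : ∀ k, θ * V.d (X k) = V.d (X k) * θ - ((FOU_up A (Sum.inr k) : ℤ) : ℂ) • V.d (X k))
    {u : L} {lam : ℂ} (hu : θ u = lam • u) {x ξ x' ξ' : σ → ℂ}
    (hx1 : ∀ k, A k → x' k = a * ξ k) (hx2 : ∀ k, ¬ A k → x' k = x k)
    (hξ1 : ∀ k, A k → ξ' k = b * x k) (hξ2 : ∀ k, ¬ A k → ξ' k = ξ k)
    (h : W.InChAt u x ξ) : V.InChAt u x' ξ' := by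
  classical
  intro m P hP hPu
  rw [FOU_ordF] at hP
  rw [FOU_symb]
  choose Q hQ eQ sQ tQ using FOU_mon A a b W V θ hxA hdA hxN hdN hx hd
  -- weights
  obtain ⟨T, hT⟩ : ∃ T : Finset ℤ, T = P.support.image (Finsupp.weight (FOU_up A)) := ⟨_, rfl⟩
  obtain ⟨F, hF⟩ : ∃ F : ℤ → Finset (σ ⊕ σ →₀ ℕ),
    F = fun w => P.support.filter (fun s => Finsupp.weight (FOU_up A) s = w) := ⟨_, rfl⟩
  have hmaps : ∀ s ∈ P.support, Finsupp.weight (FOU_up A) s ∈ T := by
    intro s hs
    rw [hT]
    exact Finset.mem_image_of_mem _ hs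
  have hsum : ∀ {M : Type} [AddCommMonoid M] (g : (σ ⊕ σ →₀ ℕ) → M),
      ∑ w ∈ T, ∑ s ∈ F w, g s = ∑ s ∈ P.support, g s := by
    intro M _ g
    rw [hF]
    exact Finset.sum_fiberwise_of_maps_to hmaps g
  have hker : ∀ w ∈ T, ∑ s ∈ F w, V.nf (monomial s (coeff s P)) u = 0 := by
    have hind : iSupIndep (fun w : ℤ => Module.End.eigenspace θ (lam - (w : ℂ))) :=
      (Module.End.eigenspaces_iSupIndep θ).comp (f := fun w : ℤ => lam - (w : ℂ)) (by
        intro w w' hw
        simpa using hw)
    refine (iSupIndep_iff_finsetSum_eq_zero_imp_eq_zero _).1 hind T _ ?_ ?_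
    · intro w hw
      refine Submodule.sum_mem _ fun s hs => ?_
      rw [Module.End.mem_eigenspace_iff]
      rw [hF, Finset.mem_filter] at hs
      have h1 := congrArg (fun f => f u) (tQ s (coeff s P))
      simp only [Module.End.mul_apply, LinearMap.sub_apply, LinearMap.smul_apply] at h1
      rw [h1, hu, map_smul, hs.2, sub_smul]
    · rw [hsum, ← LinearMap.sum_apply, ← map_sum, ← P.as_sum, hPu]
  have heval : ∀ q : MvPolynomial (σ ⊕ σ) ℂ,
      eval (Sum.elim x ξ) (FOU_Phi A a b q) = eval (Sum.elim x' ξ') q := by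
    intro q
    have : (aeval (Sum.elim x ξ) : MvPolynomial (σ ⊕ σ) ℂ →ₐ[ℂ] ℂ).comp (FOU_Phi A a b) =
        aeval (Sum.elim x' ξ') := by
      refine algHom_ext fun v => ?_
      rw [AlgHom.comp_apply, FOU_Phi, aeval_X, aeval_X]
      rcases v with k | k
      · by_cases hA : A k
        · simp [hA, hx1 k hA]
        · simp [hA, hx2 k hA]
      · by_cases hA : A k
        · simp [hA, hξ1 k hA]
        · simp [hA, hξ2 k hA]
    have h1 := congrArg (fun f => f q) this
    simpa [AlgHom.comp_apply, coe_aeval_eq_eval] using h1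
  have hpart : ∀ w ∈ T, eval (Sum.elim x' ξ') (symb m (∑ s ∈ F w, monomial s (coeff s P))) = 0 := by
    intro w hw
    have hs1 : ∀ s ∈ F w, Q s (coeff s P) ∈ ordF σ (m + w) ∧
        symb ((m : ℤ) + w) (Q s (coeff s P)) = FOU_Phi A a b (symb m (monomial s (coeff s P))) := by
      intro s hs
      rw [hF, Finset.mem_filter] at hs
      have h1 := hP s (mem_support_iff.1 hs.1)
      have h2 := FOU_om_eq A s
      rw [hs.2] at h2
      refine ⟨ordF_mono (by omega) (hQ s _), ?_⟩
      by_cases h3 : Finsupp.weight xiw s = (m : ℤ)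
      · have h4 : symb (m : ℤ) (monomial s (coeff s P)) = monomial s (coeff s P) := by
          ext t
          rw [coeff_symb]
          split_ifs with h5
          · rfl
          · rw [coeff_monomial, if_neg]
            rintro rfl
            exact h5 h3
        rw [h4, ← sQ]
        rw [h2, h3]
      · have h4 : symb (m : ℤ) (monomial s (coeff s P)) = 0 := by
          ext t
          rw [coeff_symb, coeff_zero]
          split_ifs with h5
          · rw [coeff_monomial, if_neg]
            rintro rfl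
            exact h3 h5
          · rfl
        rw [h4, map_zero]
        exact symb_eq_zero (hQ s _) (by omega)
    have hS : ∑ s ∈ F w, Q s (coeff s P) ∈ ordF σ (m + w) :=
      Submodule.sum_mem _ fun s hs => (hs1 s hs).1
    have hS0 : W.nf (∑ s ∈ F w, Q s (coeff s P)) u = 0 := by
      rw [map_sum, LinearMap.sum_apply, ← hker w hw]
      exact Finset.sum_congr rfl fun s _ => by rw [eQ]
    have hS1 : symb ((m : ℤ) + w) (∑ s ∈ F w, Q s (coeff s P)) =
        FOU_Phi A a b (symb m (∑ s ∈ F w, monomial s (coeff s P))) := by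
      rw [map_sum, map_sum, map_sum]
      exact Finset.sum_congr rfl fun s hs => (hs1 s hs).2
    rw [← heval, ← hS1]
    by_cases hn : (m : ℤ) + w < 0
    · rw [ordF_neg hn hS, map_zero, map_zero]
    · obtain ⟨n, hn'⟩ : ∃ n : ℕ, (m : ℤ) + w = n := ⟨((m : ℤ) + w).toNat, by omega⟩
      rw [hn'] at hS ⊢
      rw [← FOU_symb]
      exact h n _ ((FOU_ordF _ _).2 hS) hS0
  have hfin : P = ∑ w ∈ T, ∑ s ∈ F w, monomial s (coeff s P) := by
    rw [hsum, ← P.as_sum]
  rw [hfin, map_sum, map_sum]
  exact Finset.sum_eq_zero hpart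

theorem FOU_lsimple {W : WMod σ L} (h : W.Simple) : W.LSimple 1 where
  bij := by
    rw [map_one]
    exact Function.bijective_id
  nt := by
    obtain ⟨u, -, hu⟩ := Submodule.exists_mem_ne_zero_of_ne_bot h.2.1
    exact ⟨u, 0, hu⟩
  top := by
    intro N hN h0 _
    rcases h.2.2 N hN le_top with h1 | h1
    · exact absurd h1 h0
    · exact h1

theorem FOU_ind {W : WMod σ L} (h : W.Simple) {u : L} (hu : u ≠ 0) {x ξ : σ → ℂ} :
    W.InCh x ξ ↔ W.InChAt u x ξ := by
  constructor
  · intro H
    exact H u hu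
  · intro H
    refine (FOU_lsimple h).inCh_of_one (by simp) hu fun k P hP hPu => ?_
    rw [← wtd_le_iff] at hP
    rw [← eval_whc]
    exact H k P hP hPu

theorem FOU_stable {A : σ → Prop} {W V : WMod σ L} (h : IsFour A W V) (N : Submodule ℂ L) :
    W.Stable N ↔ V.Stable N := by
  constructor
  · intro H u hu
    refine ⟨fun k => ?_, fun k => ?_⟩
    · by_cases hA : A k
      · rw [h.xA k hA]
        exact (H u hu).2 k
      · rw [h.xN k hA]
        exact (H u hu).1 k
    · by_cases hA : A k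
      · rw [h.dA k hA]
        exact N.neg_mem ((H u hu).1 k)
      · rw [h.dN k hA]
        exact (H u hu).2 k
  · intro H u hu
    refine ⟨fun k => ?_, fun k => ?_⟩
    · by_cases hA : A k
      · have h1 := (H u hu).2 k
        rw [h.dA k hA, LinearMap.neg_apply, N.neg_mem_iff] at h1
        exact h1
      · have h1 := (H u hu).1 k
        rwa [h.xN k hA] at h1
    · by_cases hA : A k
      · have h1 := (H u hu).1 k
        rwa [h.xA k hA] at h1
      · have h1 := (H u hu).2 k
        rwa [h.dN k hA] at h1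

theorem FOU_simple {A : σ → Prop} {W V : WMod σ L} (h : IsFour A W V) (hW : W.Simple) :
    V.Simple :=
  ⟨(FOU_stable h ⊤).1 hW.1, hW.2.1, fun N hN hle => hW.2.2 N ((FOU_stable h N).2 hN) hle⟩

/-- The Fourier transform and the characteristic variety, with an eigenvector of the Euler
operator. -/
theorem FOU_iff {A : σ → Prop} {W V : WMod σ L} (h : IsFour A W V) (hW : W.Simple)
    (θ : Module.End ℂ L)
    (h1 : ∀ k, A k → θ * W.x (X k) = W.x (X k) * θ + W.x (X k))
    (h2 : ∀ k, A k → θ * W.d (X k) = W.d (X k) * θ - W.d (X k))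
    (h3 : ∀ k, ¬ A k → θ * W.x (X k) = W.x (X k) * θ)
    (h4 : ∀ k, ¬ A k → θ * W.d (X k) = W.d (X k) * θ) {u : L} (hu0 : u ≠ 0) {lam : ℂ}
    (hu : θ u = lam • u) {x ξ x' ξ' : σ → ℂ}
    (hx1 : ∀ k, A k → x' k = ξ k) (hx2 : ∀ k, ¬ A k → x' k = x k)
    (hξ1 : ∀ k, A k → ξ' k = - x k) (hξ2 : ∀ k, ¬ A k → ξ' k = ξ k) :
    W.InCh x ξ ↔ V.InCh x' ξ' := by
  rw [FOU_ind hW hu0, FOU_ind (FOU_simple h hW) hu0]
  constructor
  · refine FOU_at A 1 (-1) W V θ (fun k hA => by rw [h.xA k hA, one_smul])
      (fun k hA => by rw [h.dA k hA, neg_smul, one_smul]) h.xN h.dN (fun k => ?_) (fun k => ?_)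
      hu (fun k hA => by rw [hx1 k hA, one_mul]) hx2
      (fun k hA => by rw [hξ1 k hA, neg_mul, one_mul]) hξ2
    · by_cases hA : A k
      · rw [h.xA k hA, h2 k hA]
        simp [FOU_up, hA]
      · rw [h.xN k hA, h3 k hA]
        simp [FOU_up, hA]
    · by_cases hA : A k
      · rw [h.dA k hA, mul_neg, h1 k hA]
        simp [FOU_up, hA]
        abel
      · rw [h.dN k hA, h4 k hA]
        simp [FOU_up, hA]
  · refine FOU_at A (-1) 1 V W (-θ) (fun k hA => by rw [h.dA k hA, neg_smul, one_smul, neg_neg])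
      (fun k hA => by rw [h.xA k hA, one_smul]) (fun k hA => (h.xN k hA).symm)
      (fun k hA => (h.dN k hA).symm) (fun k => ?_) (fun k => ?_)
      (lam := -lam) (by rw [LinearMap.neg_apply, hu, neg_smul])
      (fun k hA => by rw [hξ1 k hA]; ring) (fun k hA => (hx2 k hA).symm)
      (fun k hA => by rw [hx1 k hA]; ring) (fun k hA => (hξ2 k hA).symm)
    · by_cases hA : A k
      · rw [neg_mul, h1 k hA, mul_neg]
        simp [FOU_up, hA]
        abel
      · rw [neg_mul, h3 k hA, mul_neg]
        simp [FOU_up, hA]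
    · by_cases hA : A k
      · rw [neg_mul, h2 k hA, mul_neg]
        simp [FOU_up, hA]
        abel
      · rw [neg_mul, h4 k hA, mul_neg]
        simp [FOU_up, hA]

omit [Fintype σ] [DecidableEq σ] in
/-- A common eigenvector of finitely many commuting diagonalizable operators. -/
theorem FOU_eig {κ : Type} (G : κ → Module.End ℂ L) (hc : ∀ a b, G a * G b = G b * G a)
    (hd : ∀ a, ∀ u : L, u ∈ ⨆ n : ℤ, Module.End.eigenspace (G a) (n : ℂ)) {u0 : L} (h0 : u0 ≠ 0)
    (s : Finset κ) : ∃ u : L, u ≠ 0 ∧ ∀ a ∈ s, ∃ μ : ℂ, G a u = μ • u := by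
  classical
  induction s using Finset.induction_on with
  | empty => exact ⟨u0, h0, by simp⟩
  | insert a s ha ih =>
    obtain ⟨u, hu0, hu⟩ := ih
    obtain ⟨f, hf, hfu⟩ := (Submodule.mem_iSup_iff_exists_finsupp _ _).1 (hd a u)
    obtain ⟨n, hn⟩ : ∃ n, f n ≠ 0 := by
      by_contra h
      have h' : ∀ n, f n = 0 := fun n => not_not.1 fun h1 => h ⟨n, h1⟩
      refine hu0 ?_
      rw [← hfu, Finsupp.sum]
      exact Finset.sum_eq_zero fun n _ => h' n
    refine ⟨f n, hn, fun b hb => ?_⟩
    rw [Finset.mem_insert] at hb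
    rcases hb with rfl | hb
    · exact ⟨n, Module.End.mem_eigenspace_iff.1 (hf n)⟩
    · obtain ⟨μ, hμ⟩ := hu b hb
      refine ⟨μ, ?_⟩
      have hind : iSupIndep (fun n : ℤ => Module.End.eigenspace (G a) (n : ℂ)) :=
        (Module.End.eigenspaces_iSupIndep (G a)).comp (f := fun n : ℤ => (n : ℂ)) (by
          intro w w' hw
          simpa using hw)
      refine (iSupIndep_iff_finsetSum_eq_imp_eq _).1 hind f.support (fun n => G b (f n))
        (fun n => μ • f n) ?_ ?_ n (Finsupp.mem_support_iff.2 hn)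
      · intro k _
        refine ⟨?_, Submodule.smul_mem _ _ (hf k)⟩
        rw [Module.End.mem_eigenspace_iff]
        have h1 := congrArg (fun g => g (f k)) (hc a b)
        simp only [Module.End.mul_apply] at h1
        rw [h1, Module.End.mem_eigenspace_iff.1 (hf k), map_smul]
      · rw [← map_sum, ← Finset.smul_sum]
        have h2 : ∑ k ∈ f.support, f k = u := hfu
        rw [h2, hμ]

/-- The Euler operators of two coordinates commute. -/
theorem FOU_E_comm (W : WMod σ L) (k l : σ) :
    W.x (X k) * W.d (X k) * (W.x (X l) * W.d (X l)) =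
      W.x (X l) * W.d (X l) * (W.x (X k) * W.d (X k)) := by
  by_cases h : k = l
  · rw [h]
  · have h1 := W.comm k l
    rw [if_neg h, sub_eq_zero] at h1
    have h2 := W.comm l k
    rw [if_neg (Ne.symm h), sub_eq_zero] at h2
    calc W.x (X k) * W.d (X k) * (W.x (X l) * W.d (X l))
        = W.x (X k) * (W.d (X k) * W.x (X l)) * W.d (X l) := by simp only [mul_assoc]
      _ = (W.x (X k) * W.x (X l)) * (W.d (X k) * W.d (X l)) := by rw [h1]; simp only [mul_assoc]
      _ = (W.x (X l) * W.x (X k)) * (W.d (X l) * W.d (X k)) := by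
        rw [← map_mul, ← map_mul, ← map_mul, ← map_mul, mul_comm (X k) (X l)]
      _ = W.x (X l) * (W.x (X k) * W.d (X l)) * W.d (X k) := by simp only [mul_assoc]
      _ = W.x (X l) * W.d (X l) * (W.x (X k) * W.d (X k)) := by rw [← h2]; simp only [mul_assoc]

theorem FOU_E_x (W : WMod σ L) (k l : σ) :
    W.x (X k) * W.d (X k) * W.x (X l) =
      W.x (X l) * (W.x (X k) * W.d (X k)) + if k = l then W.x (X l) else 0 := by
  have h1 := W.comm k l
  rw [sub_eq_iff_eq_add] at h1
  rw [mul_assoc, h1, mul_add, ← mul_assoc, ← map_mul, mul_comm (X k) (X l), map_mul, mul_assoc,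
    add_comm]
  congr 1
  split_ifs with h
  · rw [h, mul_one]
  · rw [mul_zero]

theorem FOU_E_d (W : WMod σ L) (k l : σ) :
    W.x (X k) * W.d (X k) * W.d (X l) =
      W.d (X l) * (W.x (X k) * W.d (X k)) - if k = l then W.d (X l) else 0 := by
  have h1 := W.comm l k
  rw [sub_eq_iff_eq_add] at h1
  rw [← mul_assoc, h1, add_mul, mul_assoc, mul_assoc, ← map_mul, ← map_mul, mul_comm (X k) (X l)]
  by_cases h : k = l
  · subst h
    simp
  · simp [h, Ne.symm h]

end Gen

section Equi

variable {ι : Type} [Fintype ι] [DecidableEq ι] {e : ι → ℤ} {L : Type} [AddCommGroup L]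
  [Module ℂ L]

/-- The Euler operator of an entry. -/
def FOU_E (W : WMod (Co e) L) (a b : ι) : Module.End ℂ L := W.xo a b * W.dO a b

theorem FOU_E_pos (W : WMod (Co e) L) {a b : ι} (h : e a = e b + 1) :
    FOU_E W a b = W.x (X ⟨(a, b), h⟩) * W.d (X ⟨(a, b), h⟩) := by
  rw [FOU_E, WMod.xo, WMod.dO, dif_pos h, dif_pos h]

theorem FOU_E_neg (W : WMod (Co e) L) {a b : ι} (h : ¬ e a = e b + 1) : FOU_E W a b = 0 := by
  rw [FOU_E, WMod.xo, WMod.dO, dif_neg h, dif_neg h, mul_zero]

theorem FOU_E_commute (W : WMod (Co e) L) (a b c d : ι) :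
    Commute (FOU_E W a b) (FOU_E W c d) := by
  by_cases h : e a = e b + 1
  · by_cases h' : e c = e d + 1
    · rw [FOU_E_pos W h, FOU_E_pos W h']
      exact FOU_E_comm W _ _
    · rw [FOU_E_neg W h']
      exact Commute.zero_right _
  · rw [FOU_E_neg W h]
    exact Commute.zero_left _

theorem FOU_G (W : WMod (Co e) L) (a : ι) :
    W.G a a = ∑ c, FOU_E W a c - ∑ c, FOU_E W c a := rfl

theorem FOU_G_commute (W : WMod (Co e) L) (a b : ι) : Commute (W.G a a) (W.G b b) := by
  rw [FOU_G, FOU_G]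
  refine Commute.sub_left (Commute.sub_right ?_ ?_) (Commute.sub_right ?_ ?_) <;>
    exact Commute.sum_left _ _ _ fun _ _ => Commute.sum_right _ _ _ fun _ _ =>
      FOU_E_commute W _ _ _ _

/-- The Euler operator of the coordinates with source of degree `i`. -/
def FOU_theta (W : WMod (Co e) L) (i : ℤ) : Module.End ℂ L :=
  ∑ a, ∑ c, if e c = i then FOU_E W a c else 0

theorem FOU_theta_eq (W : WMod (Co e) L) (i : ℤ) :
    FOU_theta W i = - ∑ a ∈ Finset.univ.filter (fun a => e a ≤ i), W.G a a := by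
  have h1 : ∑ a ∈ Finset.univ.filter (fun a => e a ≤ i), W.G a a =
      ∑ a, ∑ c, ((if e a ≤ i then FOU_E W a c else 0) - (if e c ≤ i then FOU_E W a c else 0)) := by
    simp only [Finset.sum_sub_distrib]
    rw [Finset.sum_filter]
    conv_rhs => rw [sub_eq_add_neg, Finset.sum_comm (f := fun a c => if e c ≤ i then FOU_E W a c else 0)]
    rw [← sub_eq_add_neg, ← Finset.sum_sub_distrib]
    refine Finset.sum_congr rfl fun a _ => ?_
    split_ifs with h
    · rw [FOU_G]
    · simp
  rw [h1, FOU_theta, ← Finset.sum_neg_distrib]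
  refine Finset.sum_congr rfl fun a _ => ?_
  rw [← Finset.sum_neg_distrib]
  refine Finset.sum_congr rfl fun c _ => ?_
  by_cases h : e a = e c + 1
  · by_cases h2 : e c = i
    · rw [if_pos h2, if_neg (by omega), if_pos (by omega)]
      simp
    · rw [if_neg h2]
      by_cases h3 : e c < i
      · rw [if_pos (by omega), if_pos (by omega)]
        simp
      · rw [if_neg (by omega), if_neg (by omega)]
        simp
  · rw [FOU_E_neg W h]
    simp

theorem FOU_theta_x (W : WMod (Co e) L) (i : ℤ) (k : Co e) :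
    FOU_theta W i * W.x (X k) = W.x (X k) * FOU_theta W i +
      if e k.1.2 = i then W.x (X k) else 0 := by
  obtain ⟨⟨a, c⟩, hk⟩ := k
  have h1 : ∀ a' c', (if e c' = i then FOU_E W a' c' else 0) * W.x (X ⟨(a, c), hk⟩) =
      W.x (X ⟨(a, c), hk⟩) * (if e c' = i then FOU_E W a' c' else 0) +
        if a' = a then (if c' = c then (if e c = i then W.x (X ⟨(a, c), hk⟩) else 0) else 0)
        else 0 := by
    intro a' c'
    by_cases h : e c' = i
    · rw [if_pos h]
      by_cases h' : e a' = e c' + 1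
      · rw [FOU_E_pos W h', FOU_E_x]
        congr 1
        by_cases h2 : a' = a
        · by_cases h3 : c' = c
          · subst h2 h3
            simp [h]
          · simp [h2, h3]
        · simp [h2]
      · rw [FOU_E_neg W h', zero_mul, mul_zero, zero_add]
        by_cases h2 : a' = a
        · by_cases h3 : c' = c
          · subst h2 h3
            exact absurd hk h'
          · simp [h3]
        · simp [h2]
    · rw [if_neg h, zero_mul, mul_zero, zero_add]
      by_cases h3 : c' = c
      · subst h3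
        simp [h]
      · simp [h3]
  rw [FOU_theta, Finset.sum_mul, Finset.mul_sum]
  simp only [Finset.sum_mul, Finset.mul_sum, h1, Finset.sum_add_distrib]
  simp

theorem FOU_theta_d (W : WMod (Co e) L) (i : ℤ) (k : Co e) :
    FOU_theta W i * W.d (X k) = W.d (X k) * FOU_theta W i -
      if e k.1.2 = i then W.d (X k) else 0 := by
  obtain ⟨⟨a, c⟩, hk⟩ := k
  have h1 : ∀ a' c', (if e c' = i then FOU_E W a' c' else 0) * W.d (X ⟨(a, c), hk⟩) =
      W.d (X ⟨(a, c), hk⟩) * (if e c' = i then FOU_E W a' c' else 0) -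
        if a' = a then (if c' = c then (if e c = i then W.d (X ⟨(a, c), hk⟩) else 0) else 0)
        else 0 := by
    intro a' c'
    by_cases h : e c' = i
    · rw [if_pos h]
      by_cases h' : e a' = e c' + 1
      · rw [FOU_E_pos W h', FOU_E_d]
        congr 1
        by_cases h2 : a' = a
        · by_cases h3 : c' = c
          · subst h2 h3
            simp [h]
          · simp [h2, h3]
        · simp [h2]
      · rw [FOU_E_neg W h', zero_mul, mul_zero, zero_sub]
        by_cases h2 : a' = a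
        · by_cases h3 : c' = c
          · subst h2 h3
            exact absurd hk h'
          · simp [h3]
        · simp [h2]
    · rw [if_neg h, zero_mul, mul_zero, zero_sub]
      by_cases h3 : c' = c
      · subst h3
        simp [h]
      · simp [h3]
  rw [FOU_theta, Finset.sum_mul, Finset.mul_sum]
  simp only [Finset.sum_mul, Finset.mul_sum, h1, Finset.sum_sub_distrib]
  simp

end Equi

theorem p_FOU : Stmt_FOU := by
  intro ι _ _ e i L _ _ W V hS hE hF x ξ
  obtain ⟨u0, -, hu0⟩ := Submodule.exists_mem_ne_zero_of_ne_bot hS.2.1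
  obtain ⟨u, hu, hG⟩ := FOU_eig (fun a => W.G a a) (fun a b => FOU_G_commute W a b) hE.diag hu0
    Finset.univ
  choose μ hμ using hG
  have hθ : FOU_theta W i u =
      (- ∑ a ∈ Finset.univ.filter (fun a => e a ≤ i), μ a (Finset.mem_univ a)) • u := by
    rw [FOU_theta_eq, LinearMap.neg_apply, LinearMap.sum_apply, neg_smul, Finset.sum_smul]
    congr 1
    exact Finset.sum_congr rfl fun a _ => hμ a (Finset.mem_univ a)
  refine FOU_iff hF hS (FOU_theta W i) ?_ ?_ ?_ ?_ hu hθ ?_ ?_ ?_ ?_
  · intro k hk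
    have hk' : e k.1.2 = i := hk
    rw [FOU_theta_x, if_pos hk']
  · intro k hk
    have hk' : e k.1.2 = i := hk
    rw [FOU_theta_d, if_pos hk']
  · intro k hk
    have hk' : ¬ e k.1.2 = i := hk
    rw [FOU_theta_x, if_neg hk', add_zero]
  · intro k hk
    have hk' : ¬ e k.1.2 = i := hk
    rw [FOU_theta_d, if_neg hk', sub_zero]
  · intro k hk
    exact if_pos hk
  · intro k hk
    exact if_neg hk
  · intro k hk
    exact if_pos hk
  · intro k hk
    exact if_neg hk

end Pool.DM
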