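import Pool.Agent.Work.MP_c20ce7_up.Interface

set_option autoImplicit false

open MvPolynomial

noncomputable section

namespace Pool.DM

section

variable {ι : Type} [Fintype ι] [DecidableEq ι] {e : ι → ℤ} {L : Type} [AddCommGroup L] [Module ℂ L]

theorem IN1_xo_pos (W : WMod (Co e) L) (a b : ι) (h : e a = e b + 1) : W.xo a b = W.x (X ⟨(a, b), h⟩) := by
  rw [WMod.xo, dif_pos h]

theorem IN1_xo_neg (W : WMod (Co e) L) (a b : ι) (h : ¬ e a = e b + 1) : W.xo a b = 0 := by
  rw [WMod.xo, dif_neg h]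

theorem IN1_dO_pos (W : WMod (Co e) L) (a b : ι) (h : e a = e b + 1) : W.dO a b = W.d (X ⟨(a, b), h⟩) := by
  rw [WMod.dO, dif_pos h]

theorem IN1_dO_neg (W : WMod (Co e) L) (a b : ι) (h : ¬ e a = e b + 1) : W.dO a b = 0 := by
  rw [WMod.dO, dif_neg h]

theorem IN1_xx (W : WMod (Co e) L) (a b c d : ι) : W.xo a b * W.xo c d = W.xo c d * W.xo a b := by
  by_cases h : e a = e b + 1
  · by_cases h' : e c = e d + 1
    · rw [IN1_xo_pos W a b h, IN1_xo_pos W c d h', ← map_mul, ← map_mul, mul_comm]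
    · rw [IN1_xo_neg W c d h', mul_zero, zero_mul]
  · rw [IN1_xo_neg W a b h, mul_zero, zero_mul]

theorem IN1_dd (W : WMod (Co e) L) (a b c d : ι) : W.dO a b * W.dO c d = W.dO c d * W.dO a b := by
  by_cases h : e a = e b + 1
  · by_cases h' : e c = e d + 1
    · rw [IN1_dO_pos W a b h, IN1_dO_pos W c d h', ← map_mul, ← map_mul, mul_comm]
    · rw [IN1_dO_neg W c d h', mul_zero, zero_mul]
  · rw [IN1_dO_neg W a b h, mul_zero, zero_mul]

theorem IN1_dx (W : WMod (Co e) L) (a b c d : ι) :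
    W.dO a b * W.xo c d = W.xo c d * W.dO a b + if a = c ∧ b = d ∧ e a = e b + 1 then 1 else 0 := by
  by_cases h : e a = e b + 1
  · by_cases h' : e c = e d + 1
    · rw [IN1_dO_pos W a b h, IN1_xo_pos W c d h', W.d_mul_x, pderiv_X]
      by_cases hh : a = c ∧ b = d
      · obtain ⟨rfl, rfl⟩ := hh
        rw [if_pos ⟨rfl, rfl, h⟩, Pi.single_eq_same, map_one]
      · rw [if_neg (fun h3 => hh ⟨h3.1, h3.2.1⟩), Pi.single_eq_of_ne, map_zero]
        intro h4
        apply hh
        have h5 := congrArg Subtype.val h4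
        simp only [Prod.mk.injEq] at h5
        first
          | exact h5
          | exact ⟨h5.1.symm, h5.2.symm⟩
    · rw [IN1_xo_neg W c d h', mul_zero, zero_mul, if_neg, add_zero]
      rintro ⟨rfl, rfl, h3⟩
      exact h' h3
  · rw [IN1_dO_neg W a b h, mul_zero, zero_mul, if_neg, add_zero]
    exact fun h3 => h h3.2.2

theorem IN1_dp_ph (W : WMod (Co e) L) (a b m n : ι) :
    W.dp a n * W.ph b m = W.ph b m * W.dp a n +
      if a = b ∧ n = m ∧ (e a = e n + 1 ∨ e n = e a + 1) then 1 else 0 := by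
  have h1 := IN1_dx W a n b m
  have h2 := IN1_dd W a n m b
  have h3 := IN1_xx W n a b m
  have h4 := IN1_dx W m b n a
  have h5 : (if a = b ∧ n = m ∧ (e a = e n + 1 ∨ e n = e a + 1) then (1 : Module.End ℂ L) else 0) =
      (if a = b ∧ n = m ∧ e a = e n + 1 then 1 else 0) + if m = n ∧ b = a ∧ e m = e b + 1 then 1 else 0 := by
    by_cases hab : a = b
    · by_cases hmn : n = m
      · subst hab
        subst hmn
        by_cases q1 : e a = e n + 1
        · have q2 : ¬ e n = e a + 1 := by omega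
          rw [if_pos ⟨rfl, rfl, Or.inl q1⟩, if_pos ⟨rfl, rfl, q1⟩, if_neg (fun h => q2 h.2.2), add_zero]
        · by_cases q2 : e n = e a + 1
          · rw [if_pos ⟨rfl, rfl, Or.inr q2⟩, if_neg (fun h => q1 h.2.2), if_pos ⟨rfl, rfl, q2⟩, zero_add]
          · rw [if_neg (fun h => h.2.2.elim q1 q2), if_neg (fun h => q1 h.2.2), if_neg (fun h => q2 h.2.2), zero_add]
      · have hmn' : ¬ m = n := fun h => hmn h.symm
        simp [hmn, hmn']
    · have hab' : ¬ b = a := fun h => hab h.symm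
      simp [hab, hab']
  rw [h5]
  unfold WMod.dp WMod.ph
  rw [sub_mul, mul_add, mul_add, add_mul, mul_sub, mul_sub, h1, h2, h3]
  rw [h4]
  abel

theorem IN1_con (W : WMod (Co e) L) (m n c : ι) (hmn : e m = e n) :
    W.xo n c * W.dO m c - W.xo c m * W.dO c n =
      - (W.ph c m * W.dp c n) - if m = n ∧ e n = e c + 1 then 1 else 0 := by
  unfold WMod.dp WMod.ph
  by_cases h : e n = e c + 1
  · have e1 : W.xo c m = 0 := IN1_xo_neg W c m (by omega)
    have e2 : W.dO c n = 0 := IN1_dO_neg W c n (by omega)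
    have e3 := IN1_dx W m c n c
    rw [e1, e2, zero_mul, sub_zero, zero_add, zero_sub, mul_neg, neg_neg, e3]
    by_cases hh : m = n
    · rw [if_pos ⟨hh, rfl, by omega⟩, if_pos ⟨hh, h⟩]
      abel
    · rw [if_neg (fun h3 => hh h3.1), if_neg (fun h3 => hh h3.1)]
      abel
  · have e1 : W.xo n c = 0 := IN1_xo_neg W n c h
    have e2 : W.dO m c = 0 := IN1_dO_neg W m c (by omega)
    rw [e1, e2, zero_mul, sub_zero, add_zero, zero_sub, if_neg (fun h3 => h h3.2), sub_zero]

theorem IN1_G (W : WMod (Co e) L) (m n : ι) :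
    W.G m n = ∑ c, (W.xo n c * W.dO m c - W.xo c m * W.dO c n) := by
  rw [WMod.G, Finset.sum_sub_distrib]

end

theorem p_IN1 : Stmt_IN1 := by
  intro ι' C _ _ _ _ e' i L' B _ _ _ _ W' W rx m n hmn hmi
  have hni : e' n ≠ i := by
    rw [← hmn]
    exact hmi
  refine ⟨(Fintype.card C : ℤ) * (if i = e' n + 1 then 1 else 0), fun w => ?_⟩
  -- the old vertices
  have hold : ∀ c : ι', (W.xo (Sum.inl n) (Sum.inl c) * W.dO (Sum.inl m) (Sum.inl c) -
      W.xo (Sum.inl c) (Sum.inl m) * W.dO (Sum.inl c) (Sum.inl n)) (rx.lam w) =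
      rx.lam ((W'.xo n c * W'.dO m c - W'.xo c m * W'.dO c n) w) +
        ∑ a : C, W.ph (Sum.inl c) (Sum.inl m) (W.dp (Sum.inr a) (Sum.inl n) (rx.T a c (rx.lam w))) := by
    intro c
    by_cases hc : e' c = i
    · have hmn2 : addDeg e' C i (Sum.inl m) = addDeg e' C i (Sum.inl n) := hmn
      rw [IN1_con W (Sum.inl m) (Sum.inl n) (Sum.inl c) hmn2, IN1_con W' m n c hmn]
      have h1 := rx.lam_nab c n hc w
      have h2 := rx.lam_ph1 c m hc (W'.dp c n w)
      have h3 : W.dp (Sum.inl c) (Sum.inl n) (rx.lam w) =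
          rx.lam (W'.dp c n w) - ∑ a, W.dp (Sum.inr a) (Sum.inl n) (rx.T a c (rx.lam w)) := by
        rw [← h1, LinearMap.add_apply, LinearMap.sum_apply]
        simp only [Module.End.mul_apply]
        abel
      have h4 : (if Sum.inl m = (Sum.inl n : ι' ⊕ C) ∧
          addDeg e' C i (Sum.inl n) = addDeg e' C i (Sum.inl c) + 1 then (1 : Module.End ℂ B) else 0) (rx.lam w) =
          rx.lam ((if m = n ∧ e' n = e' c + 1 then (1 : Module.End ℂ L') else 0) w) := by
        by_cases hh : m = n ∧ e' n = e' c + 1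
        · rw [if_pos hh, if_pos ⟨congrArg Sum.inl hh.1, hh.2⟩]
          rfl
        · rw [if_neg hh, if_neg (fun h5 => hh ⟨Sum.inl_injective h5.1, h5.2⟩)]
          simp
      rw [LinearMap.sub_apply, LinearMap.neg_apply, Module.End.mul_apply, h3, map_sub, h2, h4]
      rw [LinearMap.sub_apply, LinearMap.neg_apply, Module.End.mul_apply, map_sub, map_neg, map_sum]
      abel
    · have hT : ∀ a : C, rx.T a c = 0 := fun a => rx.T_zero a c hc
      have hs : ∑ a : C, W.ph (Sum.inl c) (Sum.inl m) (W.dp (Sum.inr a) (Sum.inl n) (rx.T a c (rx.lam w))) = 0 := by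
        refine Finset.sum_eq_zero fun a _ => ?_
        rw [hT a, LinearMap.zero_apply, map_zero, map_zero]
      rw [hs, add_zero]
      simp only [LinearMap.sub_apply, Module.End.mul_apply, map_sub]
      rw [rx.lam_d m c hmi hc w, rx.lam_x n c hni hc, rx.lam_d c n hc hni w, rx.lam_x c m hc hmi]
  -- the new vertices
  have hnew : ∀ a : C, (W.xo (Sum.inl n) (Sum.inr a) * W.dO (Sum.inl m) (Sum.inr a) -
      W.xo (Sum.inr a) (Sum.inl m) * W.dO (Sum.inr a) (Sum.inl n)) (rx.lam w) =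
      (if m = n then ((if i = e' n + 1 then 1 else 0 : ℤ) : ℂ) else 0) • rx.lam w -
        ∑ b : ι', W.ph (Sum.inl b) (Sum.inl m) (W.dp (Sum.inr a) (Sum.inl n) (rx.T a b (rx.lam w))) := by
    intro a
    have hmn2 : addDeg e' C i (Sum.inl m) = addDeg e' C i (Sum.inl n) := hmn
    rw [IN1_con W (Sum.inl m) (Sum.inl n) (Sum.inr a) hmn2]
    have h1 := IN1_dp_ph W (Sum.inr a) (Sum.inr a) (Sum.inl m) (Sum.inl n)
    have h2 : W.ph (Sum.inr a) (Sum.inl m) * W.dp (Sum.inr a) (Sum.inl n) =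
        W.dp (Sum.inr a) (Sum.inl n) * W.ph (Sum.inr a) (Sum.inl m) -
        if m = n ∧ (i = e' n + 1 ∨ e' n = i + 1) then 1 else 0 := by
      rw [h1]
      have h3 : (if (Sum.inr a : ι' ⊕ C) = Sum.inr a ∧ (Sum.inl n : ι' ⊕ C) = Sum.inl m ∧
          (addDeg e' C i (Sum.inr a) = addDeg e' C i (Sum.inl n) + 1 ∨
            addDeg e' C i (Sum.inl n) = addDeg e' C i (Sum.inr a) + 1) then (1 : Module.End ℂ B) else 0) =
          if m = n ∧ (i = e' n + 1 ∨ e' n = i + 1) then 1 else 0 := by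
        by_cases hh : m = n ∧ (i = e' n + 1 ∨ e' n = i + 1)
        · rw [if_pos hh, if_pos ⟨rfl, congrArg Sum.inl hh.1.symm, hh.2⟩]
        · rw [if_neg hh, if_neg (fun h5 => hh ⟨(Sum.inl_injective h5.2.1).symm, h5.2.2⟩)]
      rw [h3]
      abel
    have h4 : (W.dp (Sum.inr a) (Sum.inl n) * W.ph (Sum.inr a) (Sum.inl m)) (rx.lam w) =
        ∑ b : ι', W.ph (Sum.inl b) (Sum.inl m) (W.dp (Sum.inr a) (Sum.inl n) (rx.T a b (rx.lam w))) := by
      rw [Module.End.mul_apply, rx.lam_ph2 a m w, map_sum]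
      refine Finset.sum_congr rfl fun b _ => ?_
      by_cases hb : e' b = i
      · rw [if_pos hb, ← rx.lam_ph1 b m hb w]
        have h5 := LinearMap.congr_fun (rx.T_ph a b (Sum.inl b) (Sum.inl m) hb) (rx.lam w)
        rw [Module.End.mul_apply, Module.End.mul_apply] at h5
        rw [h5]
        have h6 := LinearMap.congr_fun (IN1_dp_ph W (Sum.inr a) (Sum.inl b) (Sum.inl m) (Sum.inl n))
          (rx.T a b (rx.lam w))
        rw [if_neg (fun h7 => Sum.inr_ne_inl h7.1), add_zero, Module.End.mul_apply, Module.End.mul_apply] at h6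
        exact h6
      · rw [if_neg hb, rx.T_zero a b hb, LinearMap.zero_apply, map_zero, map_zero]
    rw [LinearMap.sub_apply, LinearMap.neg_apply, h2, LinearMap.sub_apply, h4]
    by_cases hh : m = n
    · by_cases q1 : i = e' n + 1
      · have q2 : ¬ e' n = i + 1 := by omega
        rw [if_pos ⟨hh, Or.inl q1⟩, if_neg (fun h5 => q2 h5.2), if_pos hh, if_pos q1]
        simp
      · by_cases q2 : e' n = i + 1
        · rw [if_pos ⟨hh, Or.inr q2⟩, if_pos ⟨congrArg Sum.inl hh, q2⟩, if_pos hh, if_neg q1]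
          simp
        · rw [if_neg (fun h5 => h5.2.elim q1 q2), if_neg (fun h5 => q2 h5.2), if_pos hh, if_neg q1]
          simp
    · rw [if_neg (fun h5 => hh h5.1), if_neg (fun h5 => hh (Sum.inl_injective h5.1)), if_neg hh]
      simp
  rw [IN1_G W, IN1_G W', LinearMap.sum_apply, Fintype.sum_sum_type]
  rw [Finset.sum_congr rfl fun c _ => hold c, Finset.sum_congr rfl fun a _ => hnew a]
  rw [Finset.sum_add_distrib, Finset.sum_sub_distrib, LinearMap.sum_apply, map_sum]
  have hcomm : ∑ c : ι', ∑ a : C, W.ph (Sum.inl c) (Sum.inl m) (W.dp (Sum.inr a) (Sum.inl n) (rx.T a c (rx.lam w))) =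
      ∑ a : C, ∑ b : ι', W.ph (Sum.inl b) (Sum.inl m) (W.dp (Sum.inr a) (Sum.inl n) (rx.T a b (rx.lam w))) :=
    Finset.sum_comm
  rw [hcomm, Finset.sum_const, Finset.card_univ]
  have hfin : (Fintype.card C) • ((if m = n then ((if i = e' n + 1 then 1 else 0 : ℤ) : ℂ) else 0) • rx.lam w) =
      (if m = n then (((Fintype.card C : ℤ) * (if i = e' n + 1 then 1 else 0) : ℤ) : ℂ) else 0) • rx.lam w := by
    rw [← Nat.cast_smul_eq_nsmul ℂ, smul_smul]
    congr 1
    by_cases hh : m = n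
    · rw [if_pos hh, if_pos hh]
      push_cast
      ring
    · rw [if_neg hh, if_neg hh, mul_zero]
  rw [hfin]
  abel

end Pool.DM
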