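import Pool.Agent.Work.MP_c20ce7_up.Interface

/-!
# Block IN2: the fields of the old rows
-/

set_option autoImplicit false

open MvPolynomial

noncomputable section

namespace Pool.DM

section

set_option linter.unusedSectionVars false

variable {ι : Type} [Fintype ι] [DecidableEq ι] {e : ι → ℤ} {L : Type} [AddCommGroup L] [Module ℂ L]

theorem IN2_xo0 (W : WMod (Co e) L) {a b : ι} (h : e a ≠ e b + 1) : W.xo a b = 0 := by
  unfold WMod.xo
  exact dif_neg h

theorem IN2_dO0 (W : WMod (Co e) L) {a b : ι} (h : e a ≠ e b + 1) : W.dO a b = 0 := by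
  unfold WMod.dO
  exact dif_neg h

theorem IN2_xo1 (W : WMod (Co e) L) {a b : ι} (h : e a = e b + 1) : W.xo a b = W.x (X ⟨(a, b), h⟩) := by
  unfold WMod.xo
  exact dif_pos h

theorem IN2_dO1 (W : WMod (Co e) L) {a b : ι} (h : e a = e b + 1) : W.dO a b = W.d (X ⟨(a, b), h⟩) := by
  unfold WMod.dO
  exact dif_pos h

theorem IN2_comm (W : WMod (Co e) L) {c k l : ι} (h : e c = e l + 1) (h' : e c = e k + 1) :
    W.dO c l * W.xo c k = W.xo c k * W.dO c l + if k = l then 1 else 0 := by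
  rw [IN2_xo1 W h', IN2_dO1 W h]
  have hc := W.comm ⟨(c, l), h⟩ ⟨(c, k), h'⟩
  rw [sub_eq_iff_eq_add] at hc
  rw [hc, add_comm]
  congr 1
  by_cases hkl : k = l
  · subst hkl
    simp
  · have hne : ¬ ((⟨(c, l), h⟩ : Co e) = ⟨(c, k), h'⟩) := by
      intro heq
      have := congrArg (fun p : Co e => p.1.2) heq
      exact hkl this.symm
    rw [if_neg hne, if_neg hkl]

theorem IN2_term (W : WMod (Co e) L) {i : ℤ} {k l : ι} (hk : e k = i) (hl : e l = i) (c : ι) :
    W.xo l c * W.dO k c - W.xo c k * W.dO c l = W.ph l c * W.dp k c + if k = l ∧ e c = i + 1 then 1 else 0 := by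
  unfold WMod.ph WMod.dp
  by_cases hA : e l = e c + 1
  · rw [IN2_xo0 W (a := c) (b := k) (by omega), IN2_dO0 W (a := c) (b := l) (by omega), if_neg (by omega)]
    simp
  · by_cases hB : e c = e l + 1
    · rw [IN2_xo0 W (a := l) (b := c) (by omega), IN2_dO0 W (a := k) (b := c) (by omega)]
      have hcm := IN2_comm W (c := c) (k := k) (l := l) hB (by omega)
      rw [zero_add, zero_sub, zero_mul, zero_sub, mul_neg, hcm]
      by_cases hkl : k = l
      · rw [if_pos hkl, if_pos ⟨hkl, by omega⟩]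
        abel
      · rw [if_neg hkl, if_neg (fun h => hkl h.1)]
        abel
    · rw [IN2_xo0 W (a := c) (b := k) (by omega), IN2_dO0 W (a := c) (b := l) (by omega),
        IN2_xo0 W (a := l) (b := c) (by omega), IN2_dO0 W (a := k) (b := c) (by omega), if_neg (by omega)]
      simp

theorem IN2_G (W : WMod (Co e) L) {i : ℤ} {k l : ι} (hk : e k = i) (hl : e l = i) (v : L) :
    W.G k l v = ∑ c, (W.ph l c (W.dp k c v) + (if k = l ∧ e c = i + 1 then (1 : ℂ) else 0) • v) := by
  have h1 : W.G k l = ∑ c, (W.ph l c * W.dp k c + if k = l ∧ e c = i + 1 then 1 else 0) := by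
    unfold WMod.G
    rw [← Finset.sum_sub_distrib]
    exact Finset.sum_congr rfl fun c _ => IN2_term W hk hl c
  rw [h1, LinearMap.sum_apply]
  refine Finset.sum_congr rfl fun c _ => ?_
  rw [LinearMap.add_apply, Module.End.mul_apply]
  congr 1
  split_ifs <;> simp

end

theorem p_IN2 : Stmt_IN2 := by
  intro ι' C _ _ _ _ e' i L' B _ _ _ _ W' W rx k l hk hl
  refine ⟨-(Fintype.card C : ℤ), fun w => ?_⟩
  have hth : ∀ a, ∑ c : ι', W.ph (Sum.inl l) (Sum.inl c) (W.dp (Sum.inr a) (Sum.inl c) (rx.T a k (rx.lam w))) =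
      (if k = l then (1 : ℂ) else 0) • rx.lam w := by
    intro a
    have h1 := congrArg (fun f : Module.End ℂ B => f (rx.lam w)) (rx.T_th a l a k hl hk)
    simp only [LinearMap.sub_apply, Module.End.mul_apply] at h1
    rw [rx.lam_th a l hl w, map_zero, sub_zero] at h1
    have h2 : W.th a l (rx.T a k (rx.lam w)) =
        ∑ c : ι', W.ph (Sum.inl l) (Sum.inl c) (W.dp (Sum.inr a) (Sum.inl c) (rx.T a k (rx.lam w))) := by
      simp only [WMod.th, LinearMap.sum_apply, Module.End.mul_apply]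
    rw [← h2, h1]
    by_cases h : k = l
    · subst h
      simp
    · have h' : ¬ l = k := fun e => h e.symm
      simp [h, h']
  have hk' : addDeg e' C i (Sum.inl k) = i := hk
  have hl' : addDeg e' C i (Sum.inl l) = i := hl
  rw [IN2_G W hk' hl', Fintype.sum_sum_type]
  have hC : ∑ a : C, (W.ph (Sum.inl l) (Sum.inr a) (W.dp (Sum.inl k) (Sum.inr a) (rx.lam w)) +
      (if (Sum.inl k : ι' ⊕ C) = Sum.inl l ∧ addDeg e' C i (Sum.inr a) = i + 1 then (1 : ℂ) else 0) • rx.lam w) = 0 := by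
    refine Finset.sum_eq_zero fun a _ => ?_
    have h0 : addDeg e' C i (Sum.inr a) = i := rfl
    have h1 : W.ph (Sum.inl l) (Sum.inr a) = 0 := by
      unfold WMod.ph
      rw [IN2_xo0 W (by rw [hl', h0]; omega), IN2_dO0 W (by rw [hl', h0]; omega), add_zero]
    rw [h1, if_neg (by rintro ⟨-, h⟩; rw [h0] at h; omega)]
    simp
  rw [hC, add_zero]
  have hold : ∀ c : ι', W.ph (Sum.inl l) (Sum.inl c) (W.dp (Sum.inl k) (Sum.inl c) (rx.lam w)) +
      (if (Sum.inl k : ι' ⊕ C) = Sum.inl l ∧ addDeg e' C i (Sum.inl c) = i + 1 then (1 : ℂ) else 0) • rx.lam w =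
      rx.lam (W'.ph l c (W'.dp k c w) + (if k = l ∧ e' c = i + 1 then (1 : ℂ) else 0) • w) -
        ∑ a : C, W.ph (Sum.inl l) (Sum.inl c) (W.dp (Sum.inr a) (Sum.inl c) (rx.T a k (rx.lam w))) := by
    intro c
    have h1 := rx.lam_nab k c hk w
    rw [LinearMap.add_apply, LinearMap.sum_apply] at h1
    have h2 : W.dp (Sum.inl k) (Sum.inl c) (rx.lam w) = rx.lam (W'.dp k c w) -
        ∑ a : C, W.dp (Sum.inr a) (Sum.inl c) (rx.T a k (rx.lam w)) := by
      rw [← h1]
      simp only [Module.End.mul_apply]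
      abel
    rw [h2, map_sub, map_sum, rx.lam_ph1 l c hl, map_add, map_smul]
    have h3 : ((Sum.inl k : ι' ⊕ C) = Sum.inl l ∧ addDeg e' C i (Sum.inl c) = i + 1) ↔ (k = l ∧ e' c = i + 1) := by
      constructor
      · rintro ⟨h, h'⟩
        exact ⟨Sum.inl_injective h, h'⟩
      · rintro ⟨h, h'⟩
        exact ⟨congrArg Sum.inl h, h'⟩
    simp only [h3]
    abel
  rw [Finset.sum_congr rfl fun c _ => hold c, Finset.sum_sub_distrib, ← map_sum, ← IN2_G W' hk hl w,
    Finset.sum_comm, Finset.sum_congr rfl fun a _ => hth a, Finset.sum_const, Finset.card_univ,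
    ← Nat.cast_smul_eq_nsmul ℂ, smul_smul]
  push_cast
  by_cases h : k = l
  · rw [if_pos h, if_pos h, mul_one, neg_smul, sub_eq_add_neg]
  · rw [if_neg h, if_neg h, mul_zero, zero_smul, sub_zero, add_zero]

end Pool.DM
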