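import Pool.Agent.Work.MP_c20ce7_up.Interface

/-! Block IN3 (helper58): the fields of the new rows. -/

set_option autoImplicit false

open MvPolynomial

noncomputable section

namespace Pool.DM

section

variable {ι : Type} [Fintype ι] [DecidableEq ι] {e : ι → ℤ} {L : Type} [AddCommGroup L] [Module ℂ L]

theorem IN3_xp (W : WMod (Co e) L) {a b : ι} (h : e a = e b + 1) :
    W.xo a b = W.x (X ⟨(a, b), h⟩) := by
  unfold WMod.xo
  exact dif_pos h

theorem IN3_xn (W : WMod (Co e) L) {a b : ι} (h : e a ≠ e b + 1) : W.xo a b = 0 := by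
  unfold WMod.xo
  exact dif_neg h

theorem IN3_dp (W : WMod (Co e) L) {a b : ι} (h : e a = e b + 1) :
    W.dO a b = W.d (X ⟨(a, b), h⟩) := by
  unfold WMod.dO
  exact dif_pos h

theorem IN3_dn (W : WMod (Co e) L) {a b : ι} (h : e a ≠ e b + 1) : W.dO a b = 0 := by
  unfold WMod.dO
  exact dif_neg h

theorem IN3_ph0 (W : WMod (Co e) L) {b c : ι} (h : e b = e c) : W.ph b c = 0 := by
  unfold WMod.ph
  rw [IN3_xn W (by omega), IN3_dn W (by omega), add_zero]

theorem IN3_com (W : WMod (Co e) L) {a b c : ι} (hab : e a = e b) :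
    W.dp a c * W.ph b c - W.ph b c * W.dp a c =
      if a = b ∧ (e a = e c + 1 ∨ e c = e a + 1) then 1 else 0 := by
  unfold WMod.dp WMod.ph
  by_cases h1 : e a = e c + 1
  · have h1' : e b = e c + 1 := by omega
    rw [IN3_dp W h1, IN3_xn W (a := c) (b := a) (by omega), IN3_xp W h1',
      IN3_dn W (a := c) (b := b) (by omega), sub_zero, add_zero, W.comm]
    by_cases h : a = b
    · subst h
      rw [if_pos rfl, if_pos ⟨rfl, Or.inl h1⟩]
    · rw [if_neg (fun hh => h (congrArg (fun p => p.1.1) hh)), if_neg (fun hh => h hh.1)]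
  · by_cases h2 : e c = e a + 1
    · have h2' : e c = e b + 1 := by omega
      rw [IN3_dn W h1, IN3_xp W h2, IN3_xn W (a := b) (b := c) (by omega), IN3_dp W h2',
        zero_sub, zero_add, neg_mul, mul_neg, sub_neg_eq_add, neg_add_eq_sub, W.comm]
      by_cases h : a = b
      · subst h
        rw [if_pos rfl, if_pos ⟨rfl, Or.inr h2⟩]
      · rw [if_neg (fun hh => h (congrArg (fun p => p.1.2) hh).symm), if_neg (fun hh => h hh.1)]
    · rw [IN3_dn W h1, IN3_xn W h2, IN3_xn W (a := b) (b := c) (by omega),
        IN3_dn W (a := c) (b := b) (by omega), if_neg (fun hh => hh.2.elim h1 h2)]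
      simp

theorem IN3_term (W : WMod (Co e) L) {a b : ι} (c : ι) (hab : e a = e b) :
    W.xo b c * W.dO a c - W.xo c a * W.dO c b =
      W.ph b c * W.dp a c + if a = b ∧ e c = e a + 1 then 1 else 0 := by
  unfold WMod.dp WMod.ph
  by_cases h1 : e a = e c + 1
  · rw [IN3_xn W (a := c) (b := a) (by omega), IN3_dn W (a := c) (b := b) (by omega),
      if_neg (fun hh => by have := hh.2; omega)]
    simp
  · by_cases h2 : e c = e a + 1
    · have h2' : e c = e b + 1 := by omega
      rw [IN3_dn W h1, IN3_xp W h2, IN3_xn W (a := b) (b := c) (by omega), IN3_dp W h2',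
        zero_sub, zero_add, mul_neg, zero_mul, zero_sub]
      have h3 := W.comm ⟨(c, b), h2'⟩ ⟨(c, a), h2⟩
      have h4 : (if (⟨(c, b), h2'⟩ : Co e) = ⟨(c, a), h2⟩ then (1 : Module.End ℂ L) else 0) =
          if a = b ∧ e c = e a + 1 then 1 else 0 := by
        by_cases h : a = b
        · subst h
          rw [if_pos rfl, if_pos ⟨rfl, h2⟩]
        · rw [if_neg (fun hh => h (congrArg (fun p => p.1.2) hh).symm),
            if_neg (fun hh => h hh.1)]
      rw [h4] at h3
      rw [← h3]
      abel
    · rw [IN3_dn W h1, IN3_xn W h2, IN3_xn W (a := b) (b := c) (by omega),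
        IN3_dn W (a := c) (b := b) (by omega), if_neg (fun hh => h2 hh.2)]
      simp

theorem IN3_G (W : WMod (Co e) L) {a b : ι} (hab : e a = e b) (v : L) :
    W.G a b v = ∑ c, W.ph b c (W.dp a c v) +
      if a = b then (Finset.univ.filter fun c => e c = e a + 1).card • v else 0 := by
  unfold WMod.G
  rw [← Finset.sum_sub_distrib, Finset.sum_congr rfl fun c _ => IN3_term W c hab,
    Finset.sum_add_distrib, LinearMap.add_apply, LinearMap.sum_apply, LinearMap.sum_apply]
  refine congrArg₂ (· + ·) (Finset.sum_congr rfl fun c _ => rfl) ?_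
  by_cases h : a = b
  · rw [if_pos h, ← Finset.sum_const, Finset.sum_filter]
    refine Finset.sum_congr rfl fun c _ => ?_
    by_cases h' : e c = e a + 1
    · rw [if_pos ⟨h, h'⟩, if_pos h']
      rfl
    · rw [if_neg (fun hh => h' hh.2), if_neg h']
      rfl
  · rw [if_neg h]
    refine Finset.sum_eq_zero fun c _ => ?_
    rw [if_neg (fun hh => h hh.1)]
    rfl

end

theorem p_IN3 : Stmt_IN3 := by
  intro ι' C _ _ _ _ e' i L' B _ _ _ _ W' W rx a
  refine ⟨?_, ?_⟩
  · intro b w hb
    rw [IN3_G W (a := Sum.inr a) (b := Sum.inl b) (by show i = e' b; exact hb.symm),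
      if_neg (by simp), add_zero, Fintype.sum_sum_type]
    have hz : ∑ c : C, W.ph (Sum.inl b) (Sum.inr c) (W.dp (Sum.inr a) (Sum.inr c) (rx.lam w)) =
        0 := Finset.sum_eq_zero fun c _ => by
      rw [IN3_ph0 W (b := Sum.inl b) (c := Sum.inr c) (by show e' b = i; exact hb)]
      rfl
    rw [hz, add_zero]
    have h1 := rx.lam_th a b hb w
    unfold WMod.th at h1
    rw [LinearMap.sum_apply] at h1
    exact h1
  · intro a'
    refine ⟨((Finset.univ.filter fun b : ι' => e' b = i).card : ℤ) -
      (Finset.univ.filter fun c : ι' => i = e' c + 1 ∨ e' c = i + 1).card +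
      (Finset.univ.filter fun c : ι' ⊕ C => addDeg e' C i c = i + 1).card, fun w => ?_⟩
    rw [IN3_G W (a := Sum.inr a) (b := Sum.inr a') rfl, Fintype.sum_sum_type]
    have hz : ∑ c : C, W.ph (Sum.inr a') (Sum.inr c) (W.dp (Sum.inr a) (Sum.inr c) (rx.lam w)) =
        0 := Finset.sum_eq_zero fun c _ => by
      rw [IN3_ph0 W (b := Sum.inr a') (c := Sum.inr c) rfl]
      rfl
    rw [hz, add_zero]
    have hs1 : ∑ c : ι', W.ph (Sum.inr a') (Sum.inl c) (W.dp (Sum.inr a) (Sum.inl c)
        (rx.lam w)) = ∑ c : ι', W.dp (Sum.inr a) (Sum.inl c) (W.ph (Sum.inr a') (Sum.inl c)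
        (rx.lam w)) - ∑ c : ι', if a = a' ∧ (i = e' c + 1 ∨ e' c = i + 1) then rx.lam w
        else 0 := by
      rw [← Finset.sum_sub_distrib]
      refine Finset.sum_congr rfl fun c _ => ?_
      have h1 := congrArg (fun f : Module.End ℂ B => f (rx.lam w))
        (IN3_com W (a := Sum.inr a) (b := Sum.inr a') (c := Sum.inl c) rfl)
      have h2 : (if (Sum.inr a : ι' ⊕ C) = Sum.inr a' ∧ (addDeg e' C i (Sum.inr a) =
          addDeg e' C i (Sum.inl c) + 1 ∨ addDeg e' C i (Sum.inl c) =
          addDeg e' C i (Sum.inr a) + 1) then (1 : Module.End ℂ B) else 0) (rx.lam w) =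
          if a = a' ∧ (i = e' c + 1 ∨ e' c = i + 1) then rx.lam w else 0 := by
        by_cases h : a = a' ∧ (i = e' c + 1 ∨ e' c = i + 1)
        · rw [if_pos h, if_pos ⟨congrArg Sum.inr h.1, h.2⟩]
          rfl
        · rw [if_neg h, if_neg (fun hh => h ⟨Sum.inr_injective hh.1, hh.2⟩)]
          rfl
      have h3 : W.dp (Sum.inr a) (Sum.inl c) (W.ph (Sum.inr a') (Sum.inl c) (rx.lam w)) -
          W.ph (Sum.inr a') (Sum.inl c) (W.dp (Sum.inr a) (Sum.inl c) (rx.lam w)) =
          if a = a' ∧ (i = e' c + 1 ∨ e' c = i + 1) then rx.lam w else 0 := h1.trans h2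
      rw [← h3]
      abel
    have hs2 : ∑ c : ι', W.dp (Sum.inr a) (Sum.inl c) (W.ph (Sum.inr a') (Sum.inl c)
        (rx.lam w)) = ∑ b : ι', if e' b = i then (if a = a' then rx.lam w else 0) else 0 := by
      calc ∑ c : ι', W.dp (Sum.inr a) (Sum.inl c) (W.ph (Sum.inr a') (Sum.inl c) (rx.lam w))
          = ∑ c : ι', ∑ b : ι', (if e' b = i then W.ph (Sum.inl b) (Sum.inl c)
            (W.dp (Sum.inr a) (Sum.inl c) (rx.T a' b (rx.lam w))) else 0) := by
            refine Finset.sum_congr rfl fun c _ => ?_
            rw [rx.lam_ph2, map_sum]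
            refine Finset.sum_congr rfl fun b _ => ?_
            by_cases hb : e' b = i
            · rw [if_pos hb, if_pos hb, ← rx.lam_ph1 b c hb w]
              have e1 : rx.T a' b (W.ph (Sum.inl b) (Sum.inl c) (rx.lam w)) =
                  W.ph (Sum.inl b) (Sum.inl c) (rx.T a' b (rx.lam w)) :=
                congrArg (fun f : Module.End ℂ B => f (rx.lam w))
                  (rx.T_ph a' b (Sum.inl b) (Sum.inl c) hb)
              rw [e1]
              have e2 := IN3_com W (a := Sum.inr a) (b := Sum.inl b) (c := Sum.inl c)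
                (by show i = e' b; exact hb.symm)
              rw [if_neg (by simp)] at e2
              exact congrArg (fun f : Module.End ℂ B => f (rx.T a' b (rx.lam w)))
                (sub_eq_zero.1 e2)
            · rw [if_neg hb, if_neg hb, map_zero]
        _ = ∑ b : ι', ∑ c : ι', (if e' b = i then W.ph (Sum.inl b) (Sum.inl c)
            (W.dp (Sum.inr a) (Sum.inl c) (rx.T a' b (rx.lam w))) else 0) := Finset.sum_comm
        _ = ∑ b : ι', if e' b = i then (if a = a' then rx.lam w else 0) else 0 := by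
            refine Finset.sum_congr rfl fun b _ => ?_
            by_cases hb : e' b = i
            · simp only [if_pos hb]
              have e3 := congrArg (fun f : Module.End ℂ B => f (rx.lam w))
                (rx.T_th a b a' b hb hb)
              have e4 : W.th a b (rx.T a' b (rx.lam w)) - rx.T a' b (W.th a b (rx.lam w)) =
                  (if a = a' ∧ b = b then (1 : Module.End ℂ B) else 0) (rx.lam w) := e3
              rw [rx.lam_th a b hb w, map_zero, sub_zero] at e4
              have e5 : W.th a b (rx.T a' b (rx.lam w)) = ∑ c : ι', W.ph (Sum.inl b) (Sum.inl c)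
                  (W.dp (Sum.inr a) (Sum.inl c) (rx.T a' b (rx.lam w))) := by
                unfold WMod.th
                rw [LinearMap.sum_apply]
                rfl
              rw [← e5, e4]
              by_cases h : a = a'
              · rw [if_pos h, if_pos ⟨h, rfl⟩]
                rfl
              · rw [if_neg h, if_neg (fun hh => h hh.1)]
                rfl
            · simp only [if_neg hb]
              exact Finset.sum_const_zero
    rw [hs1, hs2]
    by_cases h : a = a'
    · subst h
      simp only [true_and, if_true]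
      rw [← Finset.sum_filter, ← Finset.sum_filter, Finset.sum_const, Finset.sum_const]
      push_cast
      rw [add_smul, sub_smul, Nat.cast_smul_eq_nsmul, Nat.cast_smul_eq_nsmul,
        Nat.cast_smul_eq_nsmul]
      rfl
    · have h' : (Sum.inr a : ι' ⊕ C) ≠ Sum.inr a' := fun hh => h (Sum.inr_injective hh)
      simp [h]

end Pool.DM
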