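import Pool.Agent.Work.MP_c20ce7_up.Interface

set_option autoImplicit false

open MvPolynomial

noncomputable section

namespace Pool.DM

section

variable {ι : Type} [Fintype ι] [DecidableEq ι] {e : ι → ℤ} {L : Type} [AddCommGroup L] [Module ℂ L]

theorem IN5_xx (W : WMod (Co e) L) (a b c d : ι) : W.xo a b * W.xo c d = W.xo c d * W.xo a b := by
  unfold WMod.xo
  split_ifs
  · rw [← map_mul, ← map_mul, mul_comm]
  · simp
  · simp
  · simp

theorem IN5_dd (W : WMod (Co e) L) (a b c d : ι) : W.dO a b * W.dO c d = W.dO c d * W.dO a b := by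
  unfold WMod.dO
  split_ifs
  · rw [← map_mul, ← map_mul, mul_comm]
  · simp
  · simp
  · simp

theorem IN5_dx (W : WMod (Co e) L) (a b c d : ι) :
    W.dO a b * W.xo c d = W.xo c d * W.dO a b + if a = c ∧ b = d ∧ e a = e b + 1 then 1 else 0 := by
  unfold WMod.xo WMod.dO
  by_cases h1 : e a = e b + 1
  · by_cases h2 : e c = e d + 1
    · rw [dif_pos h1, dif_pos h2]
      have h := W.comm ⟨(a, b), h1⟩ ⟨(c, d), h2⟩
      rw [sub_eq_iff_eq_add'] at h
      rw [h]
      congr 1
      by_cases h3 : a = c ∧ b = d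
      · obtain ⟨rfl, rfl⟩ := h3
        simp [h1]
      · have h4 : ¬ (a = c ∧ b = d ∧ e a = e b + 1) := fun h => h3 ⟨h.1, h.2.1⟩
        rw [if_neg h4, if_neg]
        intro h5
        apply h3
        simpa [Subtype.ext_iff, Prod.ext_iff] using h5
    · rw [dif_pos h1, dif_neg h2]
      have h4 : ¬ (a = c ∧ b = d ∧ e a = e b + 1) := by
        rintro ⟨rfl, rfl, h5⟩
        exact h2 h5
      rw [if_neg h4]
      simp
  · rw [dif_neg h1]
    have h4 : ¬ (a = c ∧ b = d ∧ e a = e b + 1) := fun h => h1 h.2.2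
    rw [if_neg h4]
    simp

theorem IN5_x0 (W : WMod (Co e) L) (a b : ι) (h : e a ≠ e b + 1) : W.xo a b = 0 := by
  unfold WMod.xo
  rw [dif_neg h]

theorem IN5_d0 (W : WMod (Co e) L) (a b : ι) (h : e a ≠ e b + 1) : W.dO a b = 0 := by
  unfold WMod.dO
  rw [dif_neg h]

/-- the product `ph b c * dp k c` -/
theorem IN5_phdp (W : WMod (Co e) L) (k b c : ι) (h : e k = e b) :
    W.ph b c * W.dp k c = W.xo b c * W.dO k c - W.xo c k * W.dO c b
      - if k = b ∧ e c = e b + 1 then 1 else 0 := by
  have h1 : W.xo b c * W.xo c k = 0 := by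
    by_cases h3 : e b = e c + 1
    · rw [IN5_x0 W c k (by omega), mul_zero]
    · rw [IN5_x0 W b c h3, zero_mul]
  have h2 : W.dO c b * W.dO k c = 0 := by
    by_cases h3 : e c = e b + 1
    · rw [IN5_d0 W k c (by omega), mul_zero]
    · rw [IN5_d0 W c b h3, zero_mul]
  have h3 : W.dO c b * W.xo c k = W.xo c k * W.dO c b + if k = b ∧ e c = e b + 1 then 1 else 0 := by
    rw [IN5_dx]
    congr 1
    by_cases h5 : k = b ∧ e c = e b + 1
    · rw [if_pos h5, if_pos ⟨rfl, h5.1.symm, h5.2⟩]
    · rw [if_neg h5, if_neg]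
      rintro ⟨_, h6, h7⟩
      exact h5 ⟨h6.symm, h7⟩
  unfold WMod.ph WMod.dp
  rw [add_mul, mul_sub, mul_sub, h1, h2, h3]
  abel

/-- `[dp a' c, ph b c]` -/
theorem IN5_comm (W : WMod (Co e) L) (a b c : ι) (h : e a = e b) :
    W.ph b c * W.dp a c = W.dp a c * W.ph b c -
      if a = b ∧ (e b = e c + 1 ∨ e c = e b + 1) then 1 else 0 := by
  rw [IN5_phdp W a b c h]
  have h1 : W.xo c a * W.xo b c = 0 := by
    by_cases h3 : e b = e c + 1
    · rw [IN5_x0 W c a (by omega), zero_mul]
    · rw [IN5_x0 W b c h3, mul_zero]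
  have h2 : W.dO a c * W.dO c b = 0 := by
    by_cases h3 : e c = e b + 1
    · rw [IN5_d0 W a c (by omega), zero_mul]
    · rw [IN5_d0 W c b h3, mul_zero]
  have h4 : W.dO a c * W.xo b c = W.xo b c * W.dO a c + if a = b ∧ e b = e c + 1 then 1 else 0 := by
    rw [IN5_dx]
    congr 1
    by_cases h5 : a = b ∧ e b = e c + 1
    · rw [if_pos h5, if_pos ⟨h5.1, rfl, by rw [h5.1]; exact h5.2⟩]
    · rw [if_neg h5, if_neg]
      rintro ⟨h6, _, h7⟩
      exact h5 ⟨h6, by rw [← h6]; exact h7⟩
  unfold WMod.ph WMod.dp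
  rw [sub_mul, mul_add, mul_add, h1, h2, h4]
  by_cases h5 : a = b
  · by_cases h6 : e b = e c + 1
    · have h7 : ¬ e c = e b + 1 := by omega
      rw [if_neg (fun h => h7 h.2), if_pos ⟨h5, h6⟩, if_pos ⟨h5, Or.inl h6⟩]
      abel
    · by_cases h8 : e c = e b + 1
      · rw [if_pos ⟨h5, h8⟩, if_neg (fun h => h6 h.2), if_pos ⟨h5, Or.inr h8⟩]
        abel
      · rw [if_neg (fun h => h8 h.2), if_neg (fun h => h6 h.2),
          if_neg (fun h => h.2.elim h6 h8)]
        abel
  · rw [if_neg (fun h => h5 h.1), if_neg (fun h => h5 h.1), if_neg (fun h => h5 h.1)]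
    abel

/-- `G k b` through `ph`, `dp`. -/
theorem IN5_G (W : WMod (Co e) L) (k b : ι) (h : e k = e b) :
    ∑ c, W.ph b c * W.dp k c = W.G k b -
      ((if k = b then (Finset.card (Finset.univ.filter fun c => e c = e b + 1) : ℂ) else 0) •
        (1 : Module.End ℂ L)) := by
  unfold WMod.G
  rw [← Finset.sum_sub_distrib]
  rw [Finset.sum_congr rfl fun c _ => IN5_phdp W k b c h, Finset.sum_sub_distrib]
  congr 1
  by_cases h1 : k = b
  · simp only [h1, true_and, if_true]
    rw [Finset.sum_ite, Finset.sum_const_zero, add_zero, Finset.sum_const, ← Nat.cast_smul_eq_nsmul ℂ]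
  · simp [h1]

end

section

variable {ι' C : Type} [Fintype ι'] [DecidableEq ι'] [Fintype C] [DecidableEq C] {e' : ι' → ℤ} {i : ℤ}
variable {L' B : Type} [AddCommGroup L'] [Module ℂ L'] [AddCommGroup B] [Module ℂ B]
variable {W' : WMod (Co e') L'} {W : WMod (Co (addDeg e' C i)) B}

/-- operators which commute with the `T` pass through `Tmon`. -/
theorem IN5_pass (T : C → ι' → Module.End ℂ B) (a : C) (F : Module.End ℂ B)
    (hF : ∀ b, T a b * F = F * T a b) (l : List ι') (v : B) :
    F (Tmon T a l v) = Tmon T a l (F v) := by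
  unfold Tmon
  induction l with
  | nil => simp
  | cons b l ih =>
    simp only [List.map_cons, List.prod_cons, Module.End.mul_apply]
    rw [← ih]
    have := congrArg (fun f => f ((List.map (T a) l).prod v)) (hF b)
    simpa using this.symm

theorem IN5_cons (T : C → ι' → Module.End ℂ B) (a : C) (b : ι') (l : List ι') (v : B) :
    Tmon T a (b :: l) v = T a b (Tmon T a l v) := by
  simp [Tmon]

/-- `th a' b` for `a' ≠ a` kills the `T a`-multiples of `lam`. -/
theorem IN5_th0 (rx : RowExt (C := C) (i := i) W' W) (a a' : C) (haa : a' ≠ a) (b : ι') (hb : e' b = i)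
    (l : List ι') (hl : ∀ b ∈ l, e' b = i) (w : L') :
    W.th a' b (Tmon rx.T a l (rx.lam w)) = 0 := by
  induction l with
  | nil => simpa [Tmon] using rx.lam_th a' b hb w
  | cons c l ih =>
    rw [IN5_cons]
    have h1 := rx.T_th a' b a c hb (hl c (by simp))
    rw [if_neg (fun h => haa h.1), sub_eq_zero] at h1
    have h2 := congrArg (fun f => f (Tmon rx.T a l (rx.lam w))) h1
    simp only [Module.End.mul_apply] at h2
    rw [h2, ih (fun b hb => hl b (by simp [hb])), map_zero]

/-- Euler operator. -/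
theorem IN5_euler (rx : RowExt (C := C) (i := i) W' W) (a : C)
    (l : List ι') (hl : ∀ b ∈ l, e' b = i) (w : L') :
    (∑ b : ι', if e' b = i then rx.T a b (W.th a b (Tmon rx.T a l (rx.lam w))) else 0) =
      (l.length : ℂ) • Tmon rx.T a l (rx.lam w) := by
  induction l with
  | nil =>
    simp only [Tmon, List.map_nil, List.prod_nil, List.length_nil, Nat.cast_zero, zero_smul]
    apply Finset.sum_eq_zero
    intro b _
    split_ifs with hb
    · rw [Module.End.one_apply, rx.lam_th a b hb w, map_zero]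
    · rfl
  | cons c l ih =>
    have hc := hl c (by simp)
    have ih' := ih (fun b hb => hl b (by simp [hb]))
    have h0 : ∀ b, (if e' b = i then rx.T a b (W.th a b (Tmon rx.T a (c :: l) (rx.lam w))) else 0) =
        rx.T a c (if e' b = i then rx.T a b (W.th a b (Tmon rx.T a l (rx.lam w))) else 0) +
          if b = c then rx.T a c (Tmon rx.T a l (rx.lam w)) else 0 := by
      intro b
      by_cases hb : e' b = i
      · rw [if_pos hb, if_pos hb, IN5_cons]
        have h1 := rx.T_th a b a c hb hc
        rw [sub_eq_iff_eq_add'] at h1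
        have h2 := congrArg (fun f => f (Tmon rx.T a l (rx.lam w))) h1
        simp only [Module.End.mul_apply, LinearMap.add_apply, true_and] at h2
        rw [h2, map_add]
        have h3 := congrArg (fun f => f (W.th a b (Tmon rx.T a l (rx.lam w)))) (rx.T_comm a b a c)
        simp only [Module.End.mul_apply] at h3
        rw [h3]
        congr 1
        by_cases hbc : b = c
        · subst hbc
          simp
        · simp [hbc]
      · have hbc : b ≠ c := fun h => hb (h ▸ hc)
        rw [if_neg hb, if_neg hb, if_neg hbc]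
        simp
    rw [Finset.sum_congr rfl fun b _ => h0 b, Finset.sum_add_distrib, ← map_sum, ih',
      Finset.sum_ite_eq' Finset.univ c, if_pos (Finset.mem_univ c), IN5_cons, map_smul]
    simp only [List.length_cons, Nat.cast_add, Nat.cast_one, add_smul, one_smul]

end

/-- `∑_b th a' b (T a b (T a' k v))`. -/
theorem IN5_sum1 {ι' C : Type} [Fintype ι'] [DecidableEq ι'] [Fintype C] [DecidableEq C] {e' : ι' → ℤ}
    {i : ℤ} {L' B : Type} [AddCommGroup L'] [Module ℂ L'] [AddCommGroup B] [Module ℂ B]
    {W' : WMod (Co e') L'} {W : WMod (Co (addDeg e' C i)) B} (rx : RowExt (C := C) (i := i) W' W)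
    (a a' : C) (k : ι') (hk : e' k = i) (l : List ι') (hl : ∀ b ∈ l, e' b = i) (w : L') :
    (∑ b : ι', if e' b = i then W.th a' b (rx.T a b (rx.T a' k (Tmon rx.T a l (rx.lam w)))) else 0) =
      ((1 : ℂ) + if a' = a then ((Finset.card (Finset.univ.filter fun b => e' b = i) : ℂ) + l.length)
        else 0) • rx.T a k (Tmon rx.T a l (rx.lam w)) := by
  by_cases haa : a' = a
  · subst haa
    have h0 : ∀ b, (if e' b = i then
        W.th a' b (rx.T a' b (rx.T a' k (Tmon rx.T a' l (rx.lam w)))) else 0) =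
        (if e' b = i then rx.T a' b (W.th a' b (Tmon rx.T a' (k :: l) (rx.lam w))) else 0) +
          if e' b = i then rx.T a' k (Tmon rx.T a' l (rx.lam w)) else 0 := by
      intro b
      by_cases hb : e' b = i
      · rw [if_pos hb, if_pos hb, if_pos hb, IN5_cons]
        have h1 := rx.T_th a' b a' b hb hb
        rw [sub_eq_iff_eq_add'] at h1
        have h2 := congrArg (fun f => f (rx.T a' k (Tmon rx.T a' l (rx.lam w)))) h1
        simp only [Module.End.mul_apply, LinearMap.add_apply, and_self, if_true,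
          Module.End.one_apply] at h2
        exact h2
      · rw [if_neg hb, if_neg hb, if_neg hb, add_zero]
    rw [Finset.sum_congr rfl fun b _ => h0 b, Finset.sum_add_distrib,
      IN5_euler rx a' (k :: l) (by
        intro b hb
        rcases List.mem_cons.1 hb with rfl | hb
        · exact hk
        · exact hl b hb) w, IN5_cons, Finset.sum_ite, Finset.sum_const_zero, add_zero,
      Finset.sum_const, ← Nat.cast_smul_eq_nsmul ℂ, ← add_smul]
    congr 1
    simp only [List.length_cons, if_true]
    push_cast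
    ring
  · rw [if_neg haa, add_zero, one_smul]
    have h0 : ∀ b, (if e' b = i then
        W.th a' b (rx.T a b (rx.T a' k (Tmon rx.T a l (rx.lam w)))) else 0) =
          if b = k then rx.T a k (Tmon rx.T a l (rx.lam w)) else 0 := by
      intro b
      by_cases hb : e' b = i
      · rw [if_pos hb]
        have h1 := rx.T_th a' b a b hb hb
        rw [if_neg (fun h => haa h.1), sub_eq_zero] at h1
        have h2 := congrArg (fun f => f (rx.T a' k (Tmon rx.T a l (rx.lam w)))) h1
        simp only [Module.End.mul_apply] at h2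
        rw [h2]
        have h3 := rx.T_th a' b a' k hb hk
        rw [sub_eq_iff_eq_add'] at h3
        have h4 := congrArg (fun f => f (Tmon rx.T a l (rx.lam w))) h3
        simp only [Module.End.mul_apply, LinearMap.add_apply, true_and] at h4
        rw [h4, IN5_th0 rx a a' haa b hb l hl w, map_zero, zero_add]
        by_cases hbk : b = k
        · subst hbk
          simp
        · simp [hbk]
      · have hbk : b ≠ k := fun h => hb (h ▸ hk)
        rw [if_neg hb, if_neg hbk]
    rw [Finset.sum_congr rfl fun b _ => h0 b, Finset.sum_ite_eq' Finset.univ k,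
      if_pos (Finset.mem_univ k)]

/-- `∑_c ph (a, c) dp (a', c) v` for `v = T a' k (Tmon a l (lam w))`. -/
theorem IN5_sum2 {ι' C : Type} [Fintype ι'] [DecidableEq ι'] [Fintype C] [DecidableEq C] {e' : ι' → ℤ}
    {i : ℤ} {L' B : Type} [AddCommGroup L'] [Module ℂ L'] [AddCommGroup B] [Module ℂ B]
    {W' : WMod (Co e') L'} {W : WMod (Co (addDeg e' C i)) B} (rx : RowExt (C := C) (i := i) W' W)
    (a a' : C) (k : ι') (hk : e' k = i) (l : List ι') (hl : ∀ b ∈ l, e' b = i) (w : L') :
    (∑ c : ι', W.ph (Sum.inr a) (Sum.inl c) (W.dp (Sum.inr a') (Sum.inl c)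
      (rx.T a' k (Tmon rx.T a l (rx.lam w))))) =
      ((1 : ℂ) + if a' = a then ((Finset.card (Finset.univ.filter fun b => e' b = i) : ℂ) + l.length
        - (Finset.card (Finset.univ.filter fun c => i = e' c + 1 ∨ e' c = i + 1) : ℂ))
        else 0) • rx.T a k (Tmon rx.T a l (rx.lam w)) := by
  have hT : ∀ b c, rx.T b c * 1 = 1 * rx.T b c := fun b c => by simp
  set v := rx.T a' k (Tmon rx.T a l (rx.lam w)) with hv
  -- the commutator
  have h1 : ∀ c : ι', W.ph (Sum.inr a) (Sum.inl c) (W.dp (Sum.inr a') (Sum.inl c) v) =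
      W.dp (Sum.inr a') (Sum.inl c) (W.ph (Sum.inr a) (Sum.inl c) v) -
        if a' = a ∧ (i = e' c + 1 ∨ e' c = i + 1) then v else 0 := by
    intro c
    have h2 := congrArg (fun f => f v) (IN5_comm W (Sum.inr a') (Sum.inr a) (Sum.inl c) rfl)
    simp only [Module.End.mul_apply, LinearMap.sub_apply, Sum.elim_inl, Sum.elim_inr,
      Sum.inr.injEq] at h2
    rw [h2]
    congr 1
    split_ifs <;> simp
  have h3 : ∀ c : ι', W.ph (Sum.inr a) (Sum.inl c) v =
      ∑ b : ι', if e' b = i then W.ph (Sum.inl b) (Sum.inl c) (rx.T a b v) else 0 := by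
    intro c
    have hp : ∀ b' c', rx.T b' c' * W.ph (Sum.inr a) (Sum.inl c) =
        W.ph (Sum.inr a) (Sum.inl c) * rx.T b' c' := fun b' c' => rx.T_ph b' c' _ _ rfl
    have h4 : W.ph (Sum.inr a) (Sum.inl c) v =
        rx.T a' k (Tmon rx.T a l (W.ph (Sum.inr a) (Sum.inl c) (rx.lam w))) := by
      have h5 := congrArg (fun f => f (Tmon rx.T a l (rx.lam w))) (hp a' k)
      simp only [Module.End.mul_apply] at h5
      rw [hv, ← h5, IN5_pass rx.T a _ (hp a) l]
    rw [h4, rx.lam_ph2, map_sum, map_sum]
    apply Finset.sum_congr rfl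
    intro b _
    by_cases hb : e' b = i
    · rw [if_pos hb, if_pos hb]
      have hq : ∀ b' c', rx.T b' c' * W.ph (Sum.inl b) (Sum.inl c) =
          W.ph (Sum.inl b) (Sum.inl c) * rx.T b' c' := fun b' c' => rx.T_ph b' c' _ _ hb
      have h5 := congrArg (fun f => f v) (hq a b)
      have h6 := congrArg (fun f => f (Tmon rx.T a l (rx.lam w))) (hq a' k)
      simp only [Module.End.mul_apply] at h5 h6
      rw [← h5, hv, ← h6, IN5_pass rx.T a _ (hq a) l, rx.lam_ph1 b c hb,
        ← IN5_pass rx.T a (rx.T a b) (fun b' => rx.T_comm a b' a b) l]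
      have h7 := congrArg (fun f => f (Tmon rx.T a l (rx.lam (W'.ph b c w)))) (rx.T_comm a' k a b)
      simpa only [Module.End.mul_apply] using h7
    · rw [if_neg hb, if_neg hb, map_zero, map_zero]
  have h8 : ∑ c : ι', W.dp (Sum.inr a') (Sum.inl c) (W.ph (Sum.inr a) (Sum.inl c) v) =
      ∑ b : ι', if e' b = i then W.th a' b (rx.T a b v) else 0 := by
    rw [Finset.sum_congr rfl fun c _ => by rw [h3 c, map_sum], Finset.sum_comm]
    apply Finset.sum_congr rfl
    intro b _
    by_cases hb : e' b = i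
    · rw [if_pos hb]
      unfold WMod.th
      rw [LinearMap.sum_apply]
      apply Finset.sum_congr rfl
      intro c _
      rw [if_pos hb, Module.End.mul_apply]
      have h2 := congrArg (fun f => f (rx.T a b v))
        (IN5_comm W (Sum.inr a') (Sum.inl b) (Sum.inl c) hb.symm)
      rw [if_neg (fun h => by simpa using h.1), sub_zero] at h2
      exact h2.symm
    · rw [if_neg hb]
      apply Finset.sum_eq_zero
      intro c _
      rw [if_neg hb, map_zero]
  rw [Finset.sum_congr rfl fun c _ => h1 c, Finset.sum_sub_distrib, h8, hv,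
    IN5_sum1 rx a a' k hk l hl w]
  by_cases haa : a' = a
  · subst haa
    simp only [true_and, if_true]
    rw [Finset.sum_ite, Finset.sum_const_zero, add_zero, Finset.sum_const,
      ← Nat.cast_smul_eq_nsmul ℂ, ← sub_smul]
    congr 1
    ring
  · simp [haa]

theorem p_IN5 : Stmt_IN5 := by
  intro ι' C _ _ _ _ e' i L' B _ _ _ _ W' W rx a k hk
  refine ⟨(Finset.card (Finset.univ.filter fun c => i = e' c + 1) : ℤ)
    - (Finset.card (Finset.univ.filter fun b => e' b = i) : ℤ) - (Fintype.card C : ℤ), ?_⟩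
  intro l w hl
  set p := Tmon rx.T a l with hp
  -- the field in terms of ph, dp
  have hG : W.G (Sum.inl k) (Sum.inr a) (p (rx.lam w)) =
      ∑ c : ι', W.ph (Sum.inr a) (Sum.inl c) (W.dp (Sum.inl k) (Sum.inl c) (p (rx.lam w))) := by
    have h1 := IN5_G W (Sum.inl k) (Sum.inr a) (by simpa using hk)
    rw [if_neg (by simp), zero_smul, sub_zero, Fintype.sum_sum_type] at h1
    have h2 : ∑ c : C, W.ph (Sum.inr a) (Sum.inr c) * W.dp (Sum.inl k) (Sum.inr c) = 0 := by
      apply Finset.sum_eq_zero
      intro c _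
      have h3 : W.ph (Sum.inr a) (Sum.inr c) = 0 := by
        unfold WMod.ph
        rw [IN5_x0 W _ _ (by simp), IN5_d0 W _ _ (by simp), add_zero]
      rw [h3, zero_mul]
    rw [h2, add_zero] at h1
    rw [← h1, LinearMap.sum_apply]
    rfl
  have hnab : ∀ c : ι', W.dp (Sum.inl k) (Sum.inl c) (p (rx.lam w)) =
      p (rx.lam (W'.dp k c w)) -
        ∑ a' : C, W.dp (Sum.inr a') (Sum.inl c) (rx.T a' k (p (rx.lam w))) := by
    intro c
    have h1 := IN5_pass rx.T a
      (W.dp (Sum.inl k) (Sum.inl c) + ∑ a, W.dp (Sum.inr a) (Sum.inl c) * rx.T a k)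
      (fun b => (rx.T_nab k c a b hk).symm) l (rx.lam w)
    rw [rx.lam_nab k c hk w] at h1
    rw [LinearMap.add_apply, LinearMap.sum_apply] at h1
    rw [hp, ← h1]
    simp only [Module.End.mul_apply]
    abel
  rw [hG, Finset.sum_congr rfl fun c _ => by rw [hnab c, map_sub, map_sum],
    Finset.sum_sub_distrib, Finset.sum_comm,
    Finset.sum_congr rfl fun a' _ => IN5_sum2 rx a a' k hk l hl w]
  -- first sum
  have hph : ∀ (c : ι') (u : L'), W.ph (Sum.inr a) (Sum.inl c) (p (rx.lam u)) =
      ∑ b : ι', if e' b = i then rx.T a b (p (rx.lam (W'.ph b c u))) else 0 := by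
    intro c u
    rw [hp, IN5_pass rx.T a _ (fun b' => rx.T_ph a b' _ _ rfl) l, rx.lam_ph2, map_sum]
    apply Finset.sum_congr rfl
    intro b _
    by_cases hb : e' b = i
    · rw [if_pos hb, if_pos hb, IN5_pass rx.T a (rx.T a b) (fun b' => rx.T_comm a b' a b) l]
    · rw [if_neg hb, if_neg hb, map_zero]
  have hfirst : ∑ c : ι', W.ph (Sum.inr a) (Sum.inl c) (p (rx.lam (W'.dp k c w))) =
      (∑ b : ι', if e' b = i then rx.T a b (p (rx.lam (W'.G k b w))) else 0) -
        (Finset.card (Finset.univ.filter fun c => e' c = i + 1) : ℂ) •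
          rx.T a k (p (rx.lam w)) := by
    rw [Finset.sum_congr rfl fun c _ => hph c _, Finset.sum_comm]
    have h0 : ∀ b : ι', (∑ c : ι', if e' b = i then
        rx.T a b (p (rx.lam (W'.ph b c (W'.dp k c w)))) else 0) =
        (if e' b = i then rx.T a b (p (rx.lam (W'.G k b w))) else 0) -
          if b = k then (Finset.card (Finset.univ.filter fun c => e' c = i + 1) : ℂ) •
            rx.T a k (p (rx.lam w)) else 0 := by
      intro b
      by_cases hb : e' b = i
      · simp only [if_pos hb]
        rw [← map_sum, ← map_sum, ← map_sum]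
        have h1 := congrArg (fun f => f w) (IN5_G W' k b (by rw [hk, hb]))
        simp only [LinearMap.sum_apply, Module.End.mul_apply, LinearMap.sub_apply,
          LinearMap.smul_apply, Module.End.one_apply] at h1
        rw [h1, map_sub, map_sub, map_sub, map_smul, map_smul, map_smul, hb]
        congr 1
        by_cases hbk : b = k
        · subst hbk
          simp
        · rw [if_neg hbk, if_neg (fun h => hbk h.symm), zero_smul]
      · have hbk : b ≠ k := fun h => hb (h ▸ hk)
        simp [hb, hbk]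
    rw [Finset.sum_congr rfl fun b _ => h0 b, Finset.sum_sub_distrib,
      Finset.sum_ite_eq' Finset.univ k, if_pos (Finset.mem_univ k)]
  rw [hfirst, ← Finset.sum_smul, sub_sub, ← add_smul, sub_eq_add_neg, ← neg_smul]
  congr 2
  rw [Finset.sum_add_distrib, Finset.sum_ite_eq' Finset.univ a, if_pos (Finset.mem_univ a)]
  have hcard : (Finset.card (Finset.univ.filter fun c => i = e' c + 1 ∨ e' c = i + 1) : ℂ) =
      (Finset.card (Finset.univ.filter fun c => i = e' c + 1) : ℂ) +
        (Finset.card (Finset.univ.filter fun c => e' c = i + 1) : ℂ) := by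
    rw [Finset.filter_or, Finset.card_union_of_disjoint, Nat.cast_add]
    rw [Finset.disjoint_filter]
    intro c _ h1 h2
    omega
  rw [hcard]
  simp only [Finset.sum_const, Finset.card_univ, nsmul_eq_mul, mul_one]
  push_cast
  ring

end Pool.DM
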