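import Pool.Agent.Work.MP_c20ce7_up.Interface

set_option autoImplicit false

/-!
# Block `IN6`: nilpotency of the last field
-/

open MvPolynomial

noncomputable section

namespace Pool.DM

section Brackets

variable {ι : Type} {e : ι → ℤ} {L : Type} [AddCommGroup L] [Module ℂ L]

theorem IN6_dx [DecidableEq ι] (W : WMod (Co e) L) (a c a' c' : ι) :
    W.dO a c * W.xo a' c' - W.xo a' c' * W.dO a c =
      if a = a' ∧ c = c' ∧ e a = e c + 1 then 1 else 0 := by
  unfold WMod.dO WMod.xo
  by_cases h : e a = e c + 1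
  · by_cases h' : e a' = e c' + 1
    · rw [dif_pos h, dif_pos h', W.comm]
      by_cases h1 : a = a' ∧ c = c'
      · obtain ⟨rfl, rfl⟩ := h1
        rw [if_pos rfl, if_pos ⟨rfl, rfl, h⟩]
      · rw [if_neg, if_neg (fun h2 => h1 ⟨h2.1, h2.2.1⟩)]
        intro h2
        rw [Subtype.mk.injEq, Prod.mk.injEq] at h2
        exact h1 h2
    · rw [dif_neg h', mul_zero, zero_mul, sub_zero, if_neg]
      rintro ⟨rfl, rfl, h2⟩
      exact h' h2
  · rw [dif_neg h, zero_mul, mul_zero, sub_zero, if_neg (fun h2 => h h2.2.2)]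

theorem IN6_xx [DecidableEq ι] (W : WMod (Co e) L) (a c a' c' : ι) :
    W.xo a c * W.xo a' c' = W.xo a' c' * W.xo a c := by
  unfold WMod.xo
  by_cases h : e a = e c + 1
  · by_cases h' : e a' = e c' + 1
    · rw [dif_pos h, dif_pos h', ← map_mul, ← map_mul, mul_comm]
    · rw [dif_neg h', mul_zero, zero_mul]
  · rw [dif_neg h, mul_zero, zero_mul]

theorem IN6_dd [DecidableEq ι] (W : WMod (Co e) L) (a c a' c' : ι) :
    W.dO a c * W.dO a' c' = W.dO a' c' * W.dO a c := by
  unfold WMod.dO
  by_cases h : e a = e c + 1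
  · by_cases h' : e a' = e c' + 1
    · rw [dif_pos h, dif_pos h', ← map_mul, ← map_mul, mul_comm]
    · rw [dif_neg h', mul_zero, zero_mul]
  · rw [dif_neg h, mul_zero, zero_mul]

theorem IN6_xz [DecidableEq ι] (W : WMod (Co e) L) (p q : ι) :
    W.xo p q * (if e p = e q + 1 then 1 else 0) = W.xo p q := by
  by_cases h : e p = e q + 1
  · rw [if_pos h, mul_one]
  · unfold WMod.xo
    rw [dif_neg h, zero_mul]

theorem IN6_dz [DecidableEq ι] (W : WMod (Co e) L) (p q : ι) :
    (if e p = e q + 1 then 1 else 0) * W.dO p q = W.dO p q := by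
  by_cases h : e p = e q + 1
  · rw [if_pos h, one_mul]
  · unfold WMod.dO
    rw [dif_neg h, mul_zero]

/-- The bracket of one term with a function. -/
theorem IN6_tx [DecidableEq ι] (W : WMod (Co e) L) (a c p q : ι) :
    W.xo a c * W.dO a c * W.xo p q - W.xo p q * (W.xo a c * W.dO a c) =
      if a = p ∧ c = q then W.xo p q else 0 := by
  have h1 : W.xo a c * W.dO a c * W.xo p q - W.xo p q * (W.xo a c * W.dO a c) =
      W.xo a c * (W.dO a c * W.xo p q - W.xo p q * W.dO a c) := by
    rw [mul_sub, ← mul_assoc, ← mul_assoc, ← mul_assoc, IN6_xx W p q a c]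
  rw [h1, IN6_dx]
  by_cases h : a = p ∧ c = q
  · obtain ⟨rfl, rfl⟩ := h
    rw [if_pos (show a = a ∧ c = c from ⟨rfl, rfl⟩)]
    by_cases h2 : e a = e c + 1
    · rw [if_pos ⟨rfl, rfl, h2⟩, mul_one]
    · rw [if_neg (fun h3 => h2 h3.2.2), mul_zero]
      unfold WMod.xo
      rw [dif_neg h2]
  · rw [if_neg h, if_neg (fun h3 => h ⟨h3.1, h3.2.1⟩), mul_zero]

/-- The bracket of one term with a derivation. -/
theorem IN6_td [DecidableEq ι] (W : WMod (Co e) L) (a c p q : ι) :
    W.xo a c * W.dO a c * W.dO p q - W.dO p q * (W.xo a c * W.dO a c) =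
      if a = p ∧ c = q then - W.dO p q else 0 := by
  have h1 : W.xo a c * W.dO a c * W.dO p q - W.dO p q * (W.xo a c * W.dO a c) =
      - ((W.dO p q * W.xo a c - W.xo a c * W.dO p q) * W.dO a c) := by
    rw [sub_mul, neg_sub, mul_assoc (W.xo a c) (W.dO a c), IN6_dd W a c p q, mul_assoc, mul_assoc]
  rw [h1, IN6_dx]
  by_cases h : a = p ∧ c = q
  · obtain ⟨rfl, rfl⟩ := h
    rw [if_pos (show a = a ∧ c = c from ⟨rfl, rfl⟩)]
    by_cases h2 : e a = e c + 1
    · rw [if_pos ⟨rfl, rfl, h2⟩, one_mul]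
    · rw [if_neg (fun h3 => h2 h3.2.2), zero_mul]
      unfold WMod.dO
      rw [dif_neg h2]
  · rw [if_neg h, if_neg (fun h3 => h ⟨h3.1.symm, h3.2.1.symm⟩), zero_mul, neg_zero]

theorem IN6_Ex [Fintype ι] [DecidableEq ι] (W : WMod (Co e) L) (k p q : ι) :
    W.G k k * W.xo p q - W.xo p q * W.G k k =
      (if p = k then W.xo p q else 0) - (if q = k then W.xo p q else 0) := by
  have h1 : (∑ c, W.xo k c * W.dO k c) * W.xo p q - W.xo p q * ∑ c, W.xo k c * W.dO k c =
      if p = k then W.xo p q else 0 := by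
    rw [Finset.sum_mul, Finset.mul_sum, ← Finset.sum_sub_distrib,
      Finset.sum_congr rfl fun c _ => IN6_tx W k c p q]
    by_cases h : p = k
    · subst h
      rw [if_pos rfl, Finset.sum_eq_single q]
      · rw [if_pos ⟨rfl, rfl⟩]
      · intro c _ hc
        rw [if_neg (fun h3 => hc h3.2)]
      · intro h
        exact absurd (Finset.mem_univ q) h
    · rw [if_neg h]
      exact Finset.sum_eq_zero fun c _ => if_neg fun h3 => h h3.1.symm
  have h2 : (∑ c, W.xo c k * W.dO c k) * W.xo p q - W.xo p q * ∑ c, W.xo c k * W.dO c k =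
      if q = k then W.xo p q else 0 := by
    rw [Finset.sum_mul, Finset.mul_sum, ← Finset.sum_sub_distrib,
      Finset.sum_congr rfl fun c _ => IN6_tx W c k p q]
    by_cases h : q = k
    · subst h
      rw [if_pos rfl, Finset.sum_eq_single p]
      · rw [if_pos ⟨rfl, rfl⟩]
      · intro c _ hc
        rw [if_neg (fun h3 => hc h3.1)]
      · intro h
        exact absurd (Finset.mem_univ p) h
    · rw [if_neg h]
      exact Finset.sum_eq_zero fun c _ => if_neg fun h3 => h h3.2.symm
  unfold WMod.G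
  rw [← h1, ← h2, sub_mul, mul_sub]
  abel

theorem IN6_Ed [Fintype ι] [DecidableEq ι] (W : WMod (Co e) L) (k p q : ι) :
    W.G k k * W.dO p q - W.dO p q * W.G k k =
      (if p = k then - W.dO p q else 0) - (if q = k then - W.dO p q else 0) := by
  have h1 : (∑ c, W.xo k c * W.dO k c) * W.dO p q - W.dO p q * ∑ c, W.xo k c * W.dO k c =
      if p = k then - W.dO p q else 0 := by
    rw [Finset.sum_mul, Finset.mul_sum, ← Finset.sum_sub_distrib,
      Finset.sum_congr rfl fun c _ => IN6_td W k c p q]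
    by_cases h : p = k
    · subst h
      rw [if_pos rfl, Finset.sum_eq_single q]
      · rw [if_pos ⟨rfl, rfl⟩]
      · intro c _ hc
        rw [if_neg (fun h3 => hc h3.2)]
      · intro h
        exact absurd (Finset.mem_univ q) h
    · rw [if_neg h]
      exact Finset.sum_eq_zero fun c _ => if_neg fun h3 => h h3.1.symm
  have h2 : (∑ c, W.xo c k * W.dO c k) * W.dO p q - W.dO p q * ∑ c, W.xo c k * W.dO c k =
      if q = k then - W.dO p q else 0 := by
    rw [Finset.sum_mul, Finset.mul_sum, ← Finset.sum_sub_distrib,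
      Finset.sum_congr rfl fun c _ => IN6_td W c k p q]
    by_cases h : q = k
    · subst h
      rw [if_pos rfl, Finset.sum_eq_single p]
      · rw [if_pos ⟨rfl, rfl⟩]
      · intro c _ hc
        rw [if_neg (fun h3 => hc h3.1)]
      · intro h
        exact absurd (Finset.mem_univ p) h
    · rw [if_neg h]
      exact Finset.sum_eq_zero fun c _ => if_neg fun h3 => h h3.2.symm
  unfold WMod.G
  rw [← h1, ← h2, sub_mul, mul_sub]
  abel

/-- A bracket with a product. -/
theorem IN6_br {R : Type*} [Ring R] (A x y : R) :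
    A * (x * y) - x * y * A = (A * x - x * A) * y + x * (A * y - y * A) := by
  noncomm_ring

theorem IN6_EG [Fintype ι] [DecidableEq ι] (W : WMod (Co e) L) (k b : ι) (hb : b ≠ k) :
    W.G k k * W.G k b - W.G k b * W.G k k = - W.G k b := by
  have h1 : ∀ c, W.G k k * (W.xo b c * W.dO k c) - W.xo b c * W.dO k c * W.G k k =
      - (W.xo b c * W.dO k c) := by
    intro c
    rw [IN6_br, IN6_Ex, IN6_Ed, if_neg hb, if_pos rfl]
    by_cases h : c = k
    · rw [if_pos h, if_pos h]
      noncomm_ring
    · rw [if_neg h, if_neg h]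
      noncomm_ring
  have h2 : ∀ c, W.G k k * (W.xo c k * W.dO c b) - W.xo c k * W.dO c b * W.G k k =
      - (W.xo c k * W.dO c b) := by
    intro c
    rw [IN6_br, IN6_Ex, IN6_Ed, if_neg hb, if_pos rfl]
    by_cases h : c = k
    · rw [if_pos h, if_pos h]
      noncomm_ring
    · rw [if_neg h, if_neg h]
      noncomm_ring
  have h3 : W.G k b = ∑ c, W.xo b c * W.dO k c - ∑ c, W.xo c k * W.dO c b := rfl
  have h4 : W.G k k * W.G k b - W.G k b * W.G k k =
      ∑ c, (W.G k k * (W.xo b c * W.dO k c) - W.xo b c * W.dO k c * W.G k k) -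
        ∑ c, (W.G k k * (W.xo c k * W.dO c b) - W.xo c k * W.dO c b * W.G k k) := by
    rw [Finset.sum_sub_distrib, Finset.sum_sub_distrib, ← Finset.mul_sum, ← Finset.mul_sum,
      ← Finset.sum_mul, ← Finset.sum_mul]
    conv_lhs => rw [h3]
    noncomm_ring
  rw [h4, Finset.sum_congr rfl fun c _ => h1 c, Finset.sum_congr rfl fun c _ => h2 c,
    Finset.sum_neg_distrib, Finset.sum_neg_distrib, h3]
  abel

theorem IN6_eig [Fintype ι] [DecidableEq ι] (W : WMod (Co e) L) (k b : ι) (hb : b ≠ k) (w : L)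
    (j : ℂ) (hw : W.G k k w = j • w) : W.G k k (W.G k b w) = (j - 1) • W.G k b w := by
  have h1 := congrArg (fun f : Module.End ℂ L => f w) (IN6_EG W k b hb)
  simp only [LinearMap.sub_apply, Module.End.mul_apply, LinearMap.neg_apply] at h1
  rw [hw, map_smul] at h1
  rw [sub_smul, one_smul, sub_eq_iff_eq_add.1 h1]
  abel

end Brackets

section Main

variable {ι' C : Type} [Fintype ι'] [DecidableEq ι'] [Fintype C] [DecidableEq C] {e' : ι' → ℤ} {i : ℤ}
variable {L' B : Type} [AddCommGroup L'] [Module ℂ L'] [AddCommGroup B] [Module ℂ B]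
variable {W' : WMod (Co e') L'} {W : WMod (Co (addDeg e' C i)) B}

/-- The sum of `T_{ab_s} .. T_{ab_1} T^l lam (G'_{kb_s} .. G'_{kb_1} w)`, all `b_j ≠ k` of degree `i`. -/
def IN6_Y (rx : RowExt (C := C) (i := i) W' W) (a : C) (k : ι') : ℕ → List ι' → L' → B
  | 0, l, w => Tmon rx.T a l (rx.lam w)
  | s + 1, l, w => ∑ b : ι', if e' b = i ∧ b ≠ k then IN6_Y rx a k s (b :: l) (W'.G k b w) else 0

theorem IN6_Tperm (rx : RowExt (C := C) (i := i) W' W) (a : C) {l l' : List ι'} (h : l.Perm l') :
    Tmon rx.T a l = Tmon rx.T a l' := by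
  unfold Tmon
  refine (h.map (rx.T a)).prod_eq' ?_
  rw [List.pairwise_map]
  exact List.pairwise_of_forall fun x y => rx.T_comm a x a y

theorem IN6_Yperm (rx : RowExt (C := C) (i := i) W' W) (a : C) (k : ι') (s : ℕ) :
    ∀ (l l' : List ι') (w : L'), l.Perm l' → IN6_Y rx a k s l w = IN6_Y rx a k s l' w := by
  induction s with
  | zero =>
    intro l l' w h
    show Tmon rx.T a l (rx.lam w) = Tmon rx.T a l' (rx.lam w)
    rw [IN6_Tperm rx a h]
  | succ s ih =>
    intro l l' w h
    refine Finset.sum_congr rfl fun b _ => ?_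
    rw [ih (b :: l) (b :: l') (W'.G k b w) (h.cons b)]

theorem IN6_Yzero (rx : RowExt (C := C) (i := i) W' W) (a : C) (k : ι') (s : ℕ) :
    ∀ (l : List ι') (w : L'),
      (∀ lb : List ι', (∀ b ∈ lb, e' b = i ∧ b ≠ k) → lb.length = s → (lb.map (W'.G k)).prod w = 0) →
      IN6_Y rx a k s l w = 0 := by
  induction s with
  | zero =>
    intro l w h
    have h1 := h [] (by simp) rfl
    have h2 : w = 0 := h1
    show Tmon rx.T a l (rx.lam w) = 0
    rw [h2, map_zero, map_zero]
  | succ s ih =>
    intro l w h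
    refine Finset.sum_eq_zero fun b _ => ?_
    by_cases hb : e' b = i ∧ b ≠ k
    · rw [if_pos hb]
      refine ih (b :: l) (W'.G k b w) ?_
      intro lb hlb hlen
      have h1 := h (lb ++ [b]) (by
        intro c hc
        rw [List.mem_append, List.mem_singleton] at hc
        rcases hc with hc | rfl
        · exact hlb c hc
        · exact hb) (by rw [List.length_append, hlen]; rfl)
      rw [List.map_append, List.prod_append, List.map_singleton, List.prod_singleton] at h1
      exact h1
    · rw [if_neg hb]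

/-- The action of the field. -/
theorem IN6_act (rx : RowExt (C := C) (i := i) W' W) (a : C) (k : ι') (hk : e' k = i) (M : ℤ)
    (hM : ∀ (l : List ι') (w : L'), (∀ b ∈ l, e' b = i) →
      W.G (Sum.inl k) (Sum.inr a) (Tmon rx.T a l (rx.lam w)) =
        (∑ b : ι', if e' b = i then rx.T a b (Tmon rx.T a l (rx.lam (W'.G k b w))) else 0) +
          ((M : ℂ) - l.length) • rx.T a k (Tmon rx.T a l (rx.lam w))) (s : ℕ) :
    ∀ (l : List ι') (w : L') (j : ℂ), (∀ b ∈ l, e' b = i) → W'.G k k w = j • w →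
      W.G (Sum.inl k) (Sum.inr a) (IN6_Y rx a k s l w) =
        IN6_Y rx a k (s + 1) l w +
          (j + M - l.length - 2 * s) • IN6_Y rx a k s (k :: l) w := by
  induction s with
  | zero =>
    intro l w j hl hw
    show W.G (Sum.inl k) (Sum.inr a) (Tmon rx.T a l (rx.lam w)) = _
    rw [hM l w hl]
    have h1 : (∑ b : ι', if e' b = i then rx.T a b (Tmon rx.T a l (rx.lam (W'.G k b w))) else 0) =
        IN6_Y rx a k 1 l w + j • IN6_Y rx a k 0 (k :: l) w := by
      have h2 : ∀ b : ι', (if e' b = i then rx.T a b (Tmon rx.T a l (rx.lam (W'.G k b w))) else 0) =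
          (if e' b = i ∧ b ≠ k then IN6_Y rx a k 0 (b :: l) (W'.G k b w) else 0) +
            (if b = k then j • IN6_Y rx a k 0 (k :: l) w else 0) := by
        intro b
        by_cases hb : e' b = i
        · by_cases hbk : b = k
          · subst hbk
            rw [if_pos hb, if_neg (fun h => h.2 rfl), if_pos rfl, zero_add, hw, map_smul, map_smul,
              map_smul]
            rfl
          · rw [if_pos hb, if_pos ⟨hb, hbk⟩, if_neg hbk, add_zero]
            rfl
        · have hbk : b ≠ k := fun h => hb (h ▸ hk)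
          rw [if_neg hb, if_neg (fun h => hb h.1), if_neg hbk, add_zero]
      rw [Finset.sum_congr rfl fun b _ => h2 b, Finset.sum_add_distrib]
      congr 1
      rw [Finset.sum_ite_eq' Finset.univ k, if_pos (Finset.mem_univ k)]
    rw [h1]
    have h3 : rx.T a k (Tmon rx.T a l (rx.lam w)) = IN6_Y rx a k 0 (k :: l) w := rfl
    rw [h3, add_assoc, ← add_smul]
    congr 2
    push_cast
    ring
  | succ s ih =>
    intro l w j hl hw
    have h0 : IN6_Y rx a k (s + 1) l w =
        ∑ b : ι', if e' b = i ∧ b ≠ k then IN6_Y rx a k s (b :: l) (W'.G k b w) else 0 := rfl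
    rw [h0, map_sum]
    have h1 : ∀ b : ι', W.G (Sum.inl k) (Sum.inr a)
        (if e' b = i ∧ b ≠ k then IN6_Y rx a k s (b :: l) (W'.G k b w) else 0) =
        (if e' b = i ∧ b ≠ k then IN6_Y rx a k (s + 1) (b :: l) (W'.G k b w) else 0) +
        (j + M - l.length - 2 * (s + 1)) •
          (if e' b = i ∧ b ≠ k then IN6_Y rx a k s (b :: k :: l) (W'.G k b w) else 0) := by
      intro b
      by_cases hb : e' b = i ∧ b ≠ k
      · rw [if_pos hb, if_pos hb, if_pos hb]
        rw [ih (b :: l) (W'.G k b w) (j - 1) (by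
          intro c hc
          rcases List.mem_cons.1 hc with rfl | hc
          · exact hb.1
          · exact hl c hc) (IN6_eig W' k b hb.2 w j hw)]
        rw [IN6_Yperm rx a k s (k :: b :: l) (b :: k :: l) (W'.G k b w) (List.Perm.swap b k l)]
        congr 2
        rw [List.length_cons]
        push_cast
        ring
      · rw [if_neg hb, if_neg hb, if_neg hb, map_zero, smul_zero, add_zero]
    rw [Finset.sum_congr rfl fun b _ => h1 b, Finset.sum_add_distrib, ← Finset.smul_sum]
    push_cast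
    rfl

end Main

/-- The coefficients. -/
def IN6_c (m : ℂ) (n s : ℕ) : ℂ := (n.choose s : ℂ) * ∏ t ∈ Finset.Ico s n, (m - t)

theorem IN6_c_succ (m : ℂ) (n s : ℕ) (hs : s ≤ n) :
    IN6_c m (n + 1) (s + 1) = IN6_c m n (s + 1) * (m - n - (s + 1)) + IN6_c m n s := by
  unfold IN6_c
  rcases Nat.lt_or_ge s n with h | h
  · have h1 : ∏ t ∈ Finset.Ico s n, (m - (t : ℂ)) = (m - s) * ∏ t ∈ Finset.Ico (s + 1) n, (m - (t : ℂ)) :=
      Finset.prod_eq_prod_Ico_succ_bot h _
    have h2 : ∏ t ∈ Finset.Ico (s + 1) (n + 1), (m - (t : ℂ)) =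
        (∏ t ∈ Finset.Ico (s + 1) n, (m - (t : ℂ))) * (m - n) :=
      Finset.prod_Ico_succ_top (by omega) _
    have h3 : ((n.choose (s + 1) : ℕ) : ℂ) * (s + 1) = (n.choose s : ℕ) * ((n : ℂ) - s) := by
      have h4 := Nat.choose_succ_right_eq n s
      have h5 : ((n - s : ℕ) : ℂ) = (n : ℂ) - s := by
        rw [Nat.cast_sub hs]
      rw [← h5]
      exact_mod_cast h4
    rw [h1, h2, Nat.choose_succ_succ]
    push_cast
    linear_combination (-(∏ t ∈ Finset.Ico (s + 1) n, (m - (t : ℂ)))) * h3 * (-1)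
  · have h1 : s = n := le_antisymm hs h
    subst h1
    rw [Nat.choose_self, Nat.choose_self, Nat.choose_succ_self]
    simp

theorem IN6_c_zero (m : ℂ) (n : ℕ) : IN6_c m (n + 1) 0 = IN6_c m n 0 * (m - n) := by
  unfold IN6_c
  rw [Finset.prod_Ico_succ_top (Nat.zero_le n), Nat.choose_zero_right, Nat.choose_zero_right, mul_assoc]

theorem p_IN6 : Stmt_IN6 := by
  intro ι' C _ _ _ _ e' i L' B _ _ _ _ W' W rx a k hk M hM w j S hw hS hjM
  set m : ℂ := (j : ℂ) + M with hm
  -- the formula for the powers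
  have key : ∀ n : ℕ, (W.G (Sum.inl k) (Sum.inr a) ^ n) (rx.lam w) =
      ∑ s ∈ Finset.range (n + 1), IN6_c m n s • IN6_Y rx a k s (List.replicate (n - s) k) w := by
    intro n
    induction n with
    | zero =>
      rw [pow_zero, Module.End.one_apply, Finset.sum_range_one]
      unfold IN6_c
      simp [IN6_Y, Tmon]
    | succ n ih =>
      rw [pow_succ', Module.End.mul_apply, ih, map_sum]
      have h1 : ∀ s ∈ Finset.range (n + 1), W.G (Sum.inl k) (Sum.inr a)
          (IN6_c m n s • IN6_Y rx a k s (List.replicate (n - s) k) w) =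
          IN6_c m n s • IN6_Y rx a k (s + 1) (List.replicate (n + 1 - (s + 1)) k) w +
          (IN6_c m n s * (m - n - s)) • IN6_Y rx a k s (List.replicate (n + 1 - s) k) w := by
        intro s hs
        have hsn : s ≤ n := Nat.lt_succ_iff.1 (Finset.mem_range.1 hs)
        rw [map_smul, IN6_act rx a k hk M hM s (List.replicate (n - s) k) w j (by
          intro b hb
          rw [List.eq_of_mem_replicate hb]
          exact hk) hw, smul_add, smul_smul]
        have h2 : k :: List.replicate (n - s) k = List.replicate (n + 1 - s) k := by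
          rw [Nat.succ_sub hsn]
          rfl
        rw [h2, Nat.add_sub_add_right]
        congr 3
        rw [List.length_replicate, Nat.cast_sub hsn, hm]
        ring
      rw [Finset.sum_congr rfl h1, Finset.sum_add_distrib]
      rw [Finset.sum_range_succ' (fun s => IN6_c m (n + 1) s •
        IN6_Y rx a k s (List.replicate (n + 1 - s) k) w) (n + 1)]
      rw [Finset.sum_range_succ' (fun s => (IN6_c m n s * (m - n - s)) •
        IN6_Y rx a k s (List.replicate (n + 1 - s) k) w) n]
      have h3 : ∑ s ∈ Finset.range (n + 1), IN6_c m (n + 1) (s + 1) •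
          IN6_Y rx a k (s + 1) (List.replicate (n + 1 - (s + 1)) k) w =
          ∑ s ∈ Finset.range (n + 1), (IN6_c m n s •
            IN6_Y rx a k (s + 1) (List.replicate (n + 1 - (s + 1)) k) w +
            (IN6_c m n (s + 1) * (m - n - (s + 1))) •
              IN6_Y rx a k (s + 1) (List.replicate (n + 1 - (s + 1)) k) w) := by
        refine Finset.sum_congr rfl fun s hs => ?_
        have hsn : s ≤ n := Nat.lt_succ_iff.1 (Finset.mem_range.1 hs)
        rw [IN6_c_succ m n s hsn, ← add_smul, add_comm]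
      rw [h3, Finset.sum_add_distrib]
      have h4 : ∑ s ∈ Finset.range (n + 1), (IN6_c m n (s + 1) * (m - n - (s + 1))) •
          IN6_Y rx a k (s + 1) (List.replicate (n + 1 - (s + 1)) k) w =
          ∑ s ∈ Finset.range n, (IN6_c m n (s + 1) * (m - n - ((s + 1 : ℕ) : ℂ))) •
          IN6_Y rx a k (s + 1) (List.replicate (n + 1 - (s + 1)) k) w := by
        rw [Finset.sum_range_succ]
        have h5 : IN6_c m n (n + 1) = 0 := by
          unfold IN6_c
          rw [Nat.choose_succ_self, Nat.cast_zero, zero_mul]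
        rw [h5, zero_mul, zero_smul, add_zero]
        refine Finset.sum_congr rfl fun s _ => ?_
        push_cast
        rfl
      rw [h4, IN6_c_zero, Nat.cast_zero, sub_zero, add_assoc]
  obtain ⟨q, hq⟩ := Int.eq_ofNat_of_zero_le ((Int.natCast_nonneg S).trans hjM)
  have hmq : m = (q : ℂ) := by
    rw [hm]
    exact_mod_cast hq
  have hSq : S ≤ q := by
    rw [hq] at hjM
    exact_mod_cast hjM
  refine ⟨q + 1, ?_⟩
  rw [key (q + 1)]
  refine Finset.sum_eq_zero fun s hs => ?_
  rcases Nat.lt_or_ge S s with h | h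
  · rw [IN6_Yzero rx a k s (List.replicate (q + 1 - s) k) w (fun lb hlb hlen => hS lb hlb (hlen ▸ h)),
      smul_zero]
  · have h1 : IN6_c m (q + 1) s = 0 := by
      unfold IN6_c
      rw [Finset.prod_eq_zero (i := q) (Finset.mem_Ico.2 ⟨h.trans hSq, Nat.lt_succ_self q⟩)
        (by rw [hmq, sub_self]), mul_zero]
    rw [h1, zero_smul]

end Pool.DM
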