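import Pool.Agent.Work.MP_c20ce7_up.Interface

/-!
# Block INT: integrability of `lam (Q ^ N w)` for large `N`
-/

set_option autoImplicit false

open MvPolynomial

noncomputable section

namespace Pool.DM

section

set_option linter.unusedSectionVars false

variable {ι : Type} [Fintype ι] [DecidableEq ι] {e : ι → ℤ} {L : Type} [AddCommGroup L] [Module ℂ L]

theorem INT_xo0 (W : WMod (Co e) L) {a b : ι} (h : e a ≠ e b + 1) : W.xo a b = 0 := by
  unfold WMod.xo
  exact dif_neg h

theorem INT_dO0 (W : WMod (Co e) L) {a b : ι} (h : e a ≠ e b + 1) : W.dO a b = 0 := by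
  unfold WMod.dO
  exact dif_neg h

theorem INT_xo1 (W : WMod (Co e) L) {a b : ι} (h : e a = e b + 1) : W.xo a b = W.x (X ⟨(a, b), h⟩) := by
  unfold WMod.xo
  exact dif_pos h

theorem INT_dO1 (W : WMod (Co e) L) {a b : ι} (h : e a = e b + 1) : W.dO a b = W.d (X ⟨(a, b), h⟩) := by
  unfold WMod.dO
  exact dif_pos h

theorem INT_xx (W : WMod (Co e) L) (a b c d : ι) : Commute (W.xo a b) (W.xo c d) := by
  by_cases h : e a = e b + 1
  · by_cases h' : e c = e d + 1
    · rw [INT_xo1 W h, INT_xo1 W h']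
      show _ * _ = _ * _
      rw [← map_mul, ← map_mul, mul_comm]
    · rw [INT_xo0 W h']
      exact Commute.zero_right _
  · rw [INT_xo0 W h]
    exact Commute.zero_left _

theorem INT_dd (W : WMod (Co e) L) (a b c d : ι) : Commute (W.dO a b) (W.dO c d) := by
  by_cases h : e a = e b + 1
  · by_cases h' : e c = e d + 1
    · rw [INT_dO1 W h, INT_dO1 W h']
      show _ * _ = _ * _
      rw [← map_mul, ← map_mul, mul_comm]
    · rw [INT_dO0 W h']
      exact Commute.zero_right _
  · rw [INT_dO0 W h]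
    exact Commute.zero_left _

/-- different coordinates -/
theorem INT_dx (W : WMod (Co e) L) {a b c d : ι} (hne : a = c → b = d → False) :
    Commute (W.dO a b) (W.xo c d) := by
  by_cases h : e a = e b + 1
  · by_cases h' : e c = e d + 1
    · rw [INT_dO1 W h, INT_xo1 W h']
      have hc := W.comm ⟨(a, b), h⟩ ⟨(c, d), h'⟩
      have hn : ¬ ((⟨(a, b), h⟩ : Co e) = ⟨(c, d), h'⟩) := by
        intro heq
        exact hne (congrArg (fun p : Co e => p.1.1) heq) (congrArg (fun p : Co e => p.1.2) heq)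
      rw [if_neg hn, sub_eq_zero] at hc
      exact hc
    · rw [INT_xo0 W h']
      exact Commute.zero_right _
  · rw [INT_dO0 W h]
    exact Commute.zero_left _

/-- the fields `G k b`, `b ≠ k`, commute -/
theorem INT_term (W : WMod (Co e) L) {i : ℤ} {k b b' : ι} (hk : e k = i) (hb : e b = i) (_hb' : e b' = i)
    (hbk : b ≠ k) (hbk' : b' ≠ k) (c c' : ι) :
    Commute (W.xo b c * W.dO k c) (W.xo b' c' * W.dO k c') ∧
    Commute (W.xo b c * W.dO k c) (W.xo c' k * W.dO c' b') ∧
    Commute (W.xo c k * W.dO c b) (W.xo c' k * W.dO c' b') := by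
  refine ⟨?_, ?_, ?_⟩
  · refine Commute.mul_left (Commute.mul_right (INT_xx W _ _ _ _) ?_) (Commute.mul_right ?_ (INT_dd W _ _ _ _))
    · exact (INT_dx W (fun h _ => hbk h.symm)).symm
    · exact INT_dx W (fun h _ => hbk' h.symm)
  · by_cases hc : e c' = e k + 1
    · refine Commute.mul_left (Commute.mul_right (INT_xx W _ _ _ _) ?_) (Commute.mul_right ?_ (INT_dd W _ _ _ _))
      · refine (INT_dx W (fun h _ => ?_)).symm
        rw [h, hb] at hc
        omega
      · refine INT_dx W (fun h _ => ?_)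
        rw [← h] at hc
        omega
    · rw [INT_xo0 W hc, zero_mul]
      exact Commute.zero_right _
  · refine Commute.mul_left (Commute.mul_right (INT_xx W _ _ _ _) ?_) (Commute.mul_right ?_ (INT_dd W _ _ _ _))
    · exact (INT_dx W (fun _ h => hbk' h)).symm
    · exact INT_dx W (fun _ h => hbk h)

theorem INT_GG (W : WMod (Co e) L) {i : ℤ} {k b b' : ι} (hk : e k = i) (hb : e b = i) (hb' : e b' = i)
    (hbk : b ≠ k) (hbk' : b' ≠ k) : Commute (W.G k b) (W.G k b') := by
  unfold WMod.G
  refine Commute.sub_left (Commute.sub_right ?_ ?_) (Commute.sub_right ?_ ?_)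
  · exact Commute.sum_left _ _ _ fun c _ => Commute.sum_right _ _ _ fun c' _ =>
      (INT_term W hk hb hb' hbk hbk' c c').1
  · exact Commute.sum_left _ _ _ fun c _ => Commute.sum_right _ _ _ fun c' _ =>
      (INT_term W hk hb hb' hbk hbk' c c').2.1
  · exact Commute.sum_left _ _ _ fun c _ => Commute.sum_right _ _ _ fun c' _ =>
      (INT_term W hk hb' hb hbk' hbk c' c).2.1.symm
  · exact Commute.sum_left _ _ _ fun c _ => Commute.sum_right _ _ _ fun c' _ =>
      (INT_term W hk hb hb' hbk hbk' c c').2.2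

end

section Nil

variable {L : Type} [AddCommGroup L] [Module ℂ L]

theorem INT_mono (f : Module.End ℂ L) {m n : ℕ} (h : m ≤ n) {v : L} (hv : (f ^ m) v = 0) : (f ^ n) v = 0 := by
  obtain ⟨d, rfl⟩ := Nat.exists_eq_add_of_le h
  rw [add_comm, pow_add, Module.End.mul_apply, hv, map_zero]

/-- long products of commuting operators which are nilpotent on `w` kill `w` -/
theorem INT_prod {β : Type} [DecidableEq β] (A : β → Module.End ℂ L) (s : Finset β) (n : β → ℕ) (w : L)
    (hc : ∀ b ∈ s, ∀ b' ∈ s, Commute (A b) (A b')) (hn : ∀ b ∈ s, (A b ^ n b) w = 0) (l : List β)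
    (hl : ∀ b ∈ l, b ∈ s) (hlen : ∑ b ∈ s, n b < l.length) : (l.map A).prod w = 0 := by
  have hsum : l.length = ∑ b ∈ s, l.count b := by
    have h := Multiset.sum_count_eq_card (s := s) (m := (l : Multiset β)) (fun a ha => hl a (by simpa using ha))
    simpa using h.symm
  obtain ⟨b, hbs, hb⟩ : ∃ b ∈ s, n b < l.count b := by
    by_contra hcon
    push Not at hcon
    have := Finset.sum_le_sum hcon
    omega
  have hperm : (l.filter (fun x => !(decide (x = b))) ++ l.filter (fun x => decide (x = b))).Perm l := by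
    have h := List.filter_append_perm (fun x => decide (x = b)) l
    exact List.perm_append_comm.trans h
  have hrep : l.filter (fun x => decide (x = b)) = List.replicate (l.count b) b := List.filter_eq b
  have hp2 := (hperm.map A).prod_eq' (by
    refine List.pairwise_of_forall_mem_list ?_
    intro x hx y hy
    obtain ⟨x', hx', rfl⟩ := List.mem_map.1 hx
    obtain ⟨y', hy', rfl⟩ := List.mem_map.1 hy
    exact hc _ (hl _ (hperm.subset hx')) _ (hl _ (hperm.subset hy')))
  rw [← hp2, List.map_append, List.prod_append, hrep, List.map_replicate, List.prod_replicate,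
    Module.End.mul_apply, INT_mono (A b) hb.le (hn b hbs), map_zero]

theorem INT_Q {G Q : Module.End ℂ L} {c : ℂ} (h : G * Q = Q * (G + algebraMap ℂ _ c)) (N : ℕ) :
    G * Q ^ N = Q ^ N * (G + algebraMap ℂ _ (N * c)) := by
  induction N with
  | zero => simp
  | succ N ih =>
    rw [pow_succ, ← mul_assoc, ih, mul_assoc, add_mul, h, mul_assoc]
    rw [Algebra.commutes ((N : ℂ) * c) Q, ← mul_add, add_assoc, ← map_add]
    congr 4
    push_cast
    ring

theorem INT_eig {L' B : Type} [AddCommGroup L'] [Module ℂ L'] [AddCommGroup B] [Module ℂ B] (lam : L' →ₗ[ℂ] B)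
    (G' : Module.End ℂ L') (G : Module.End ℂ B) (κ : ℤ) (h : ∀ w, G (lam w) = lam (G' w) + (κ : ℂ) • lam w) {v : L'}
    (hv : v ∈ ⨆ n : ℤ, Module.End.eigenspace G' (n : ℂ)) : lam v ∈ ⨆ n : ℤ, Module.End.eigenspace G (n : ℂ) := by
  refine Submodule.iSup_induction _ (motive := fun v => lam v ∈ ⨆ n : ℤ, Module.End.eigenspace G (n : ℂ)) hv
    ?_ ?_ ?_
  · intro n x hx
    rw [Module.End.mem_eigenspace_iff] at hx
    refine Submodule.mem_iSup_of_mem (n + κ) ?_
    rw [Module.End.mem_eigenspace_iff, h, hx, map_smul, ← add_smul]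
    push_cast
    rfl
  · show lam 0 ∈ _
    rw [map_zero]
    exact Submodule.zero_mem _
  · intro x y hx hy
    show lam (x + y) ∈ _
    rw [map_add]
    exact Submodule.add_mem _ hx hy

theorem INT_pow {L' B : Type} [AddCommGroup L'] [Module ℂ L'] [AddCommGroup B] [Module ℂ B] (lam : L' →ₗ[ℂ] B)
    (G' : Module.End ℂ L') (G : Module.End ℂ B) (h : ∀ w, G (lam w) = lam (G' w)) (k : ℕ) (w : L') :
    (G ^ k) (lam w) = lam ((G' ^ k) w) := by
  induction k with
  | zero => simp
  | succ k ih => rw [pow_succ', pow_succ', Module.End.mul_apply, Module.End.mul_apply, ih, h]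

end Nil

theorem p_INT (h1 : Stmt_IN1) (h2 : Stmt_IN2) (h3 : Stmt_IN3) (h4 : Stmt_IN5) (h5 : Stmt_IN6) : Stmt_INT := by
  intro ι' C _ _ _ _ e' i L' B _ _ _ _ W' W rx hE Q hQ w
  have hard : ∀ (k : ι') (a : C), ∃ N₀ : ℕ, e' k = i → ∀ N ≥ N₀, ∃ n : ℕ,
      (W.G (Sum.inl k) (Sum.inr a) ^ n) (rx.lam ((Q ^ N) w)) = 0 := by
    intro k a
    by_cases hk : e' k = i
    swap
    · exact ⟨0, fun h => absurd h hk⟩
    obtain ⟨M, hM⟩ := h4 ι' C e' i L' B W' W rx a k hk
    have key : ∀ v, v ∈ ⨆ n : ℤ, Module.End.eigenspace (W'.G k k) (n : ℂ) → ∃ N₀ : ℕ, ∀ N ≥ N₀, ∃ n : ℕ,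
        (W.G (Sum.inl k) (Sum.inr a) ^ n) (rx.lam ((Q ^ N) v)) = 0 := by
      intro v hv
      refine Submodule.iSup_induction _ (motive := fun v => ∃ N₀ : ℕ, ∀ N ≥ N₀, ∃ n : ℕ,
        (W.G (Sum.inl k) (Sum.inr a) ^ n) (rx.lam ((Q ^ N) v)) = 0) hv ?_ ?_ ?_
      · intro j v hv
        rw [Module.End.mem_eigenspace_iff] at hv
        have hex : ∀ b : ι', ∃ n : ℕ, e' b = i ∧ b ≠ k → (W'.G k b ^ n) v = 0 := by
          intro b
          by_cases hb : e' b = i ∧ b ≠ k
          · obtain ⟨n, hn⟩ := hE.nil k b (Ne.symm hb.2) (hk.trans hb.1.symm) v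
            exact ⟨n, fun _ => hn⟩
          · exact ⟨0, fun h => absurd h hb⟩
        choose nb hnb using hex
        let s : Finset ι' := Finset.univ.filter (fun b => e' b = i ∧ b ≠ k)
        have hs : ∀ b, b ∈ s ↔ e' b = i ∧ b ≠ k := fun b => by
          show b ∈ Finset.univ.filter _ ↔ _
          rw [Finset.mem_filter]
          exact ⟨fun h => h.2, fun h => ⟨Finset.mem_univ _, h⟩⟩
        refine ⟨(((∑ b ∈ s, nb b : ℕ) : ℤ) - j - M).toNat, fun N hN => ?_⟩
        refine h5 ι' C e' i L' B W' W rx a k hk M hM ((Q ^ N) v) (j + N) (∑ b ∈ s, nb b) ?_ ?_ (by omega)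
        · have hq := hQ k k hk hk
          rw [if_pos rfl, ← map_one (algebraMap ℂ (Module.End ℂ L'))] at hq
          have hq2 := congrArg (fun f : Module.End ℂ L' => f v) (INT_Q hq N)
          simp only [Module.End.mul_apply, LinearMap.add_apply, Module.algebraMap_end_apply] at hq2
          rw [hq2, hv, ← add_smul, map_smul]
          push_cast
          rw [mul_one]
        · intro l hl hlen
          have hcom : Commute (l.map (W'.G k)).prod (Q ^ N) := by
            refine Commute.pow_right ?_ N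
            refine Commute.list_prod_left _ _ fun y hy => ?_
            obtain ⟨b, hb, rfl⟩ := List.mem_map.1 hy
            have hb' := hl b hb
            have hq := hQ k b hk hb'.1
            rw [if_neg (Ne.symm hb'.2), add_zero] at hq
            exact hq
          have hz := INT_prod (W'.G k) s nb v (fun b hb b' hb' =>
            INT_GG W' hk ((hs b).1 hb).1 ((hs b').1 hb').1 ((hs b).1 hb).2 ((hs b').1 hb').2)
            (fun b hb => hnb b ((hs b).1 hb)) l (fun b hb => (hs b).2 (hl b hb)) hlen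
          have h6 := congrArg (fun f : Module.End ℂ L' => f v) hcom.eq
          simp only [Module.End.mul_apply] at h6
          rw [h6, hz, map_zero]
      · exact ⟨0, fun N _ => ⟨0, by simp⟩⟩
      · rintro x y ⟨N1, hN1⟩ ⟨N2, hN2⟩
        refine ⟨max N1 N2, fun N hN => ?_⟩
        obtain ⟨n1, hn1⟩ := hN1 N (le_trans (le_max_left _ _) hN)
        obtain ⟨n2, hn2⟩ := hN2 N (le_trans (le_max_right _ _) hN)
        refine ⟨max n1 n2, ?_⟩
        rw [map_add, map_add, map_add, INT_mono _ (le_max_left n1 n2) hn1, INT_mono _ (le_max_right n1 n2) hn2,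
          add_zero]
    obtain ⟨N₀, hN₀⟩ := key w (hE.diag k w)
    exact ⟨N₀, fun _ => hN₀⟩
  choose F hF using hard
  refine ⟨Finset.univ.sup (fun p : ι' × C => F p.1 p.2), fun N hN => ?_⟩
  constructor
  · rintro (m | a)
    · by_cases hm : e' m = i
      · obtain ⟨κ, hκ⟩ := h2 ι' C e' i L' B W' W rx m m hm hm
        simp only [if_true] at hκ
        exact INT_eig rx.lam (W'.G m m) (W.G (Sum.inl m) (Sum.inl m)) κ hκ (hE.diag m _)
      · obtain ⟨κ, hκ⟩ := h1 ι' C e' i L' B W' W rx m m rfl hm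
        simp only [if_true] at hκ
        exact INT_eig rx.lam (W'.G m m) (W.G (Sum.inl m) (Sum.inl m)) κ hκ (hE.diag m _)
    · obtain ⟨κ, hκ⟩ := (h3 ι' C e' i L' B W' W rx a).2 a
      simp only [if_true] at hκ
      refine Submodule.mem_iSup_of_mem κ ?_
      rw [Module.End.mem_eigenspace_iff]
      exact hκ _
  · rintro (m | a) (n | b) hab he
    · have hmn : m ≠ n := fun h => hab (congrArg Sum.inl h)
      have he' : e' m = e' n := he
      obtain ⟨k, hk⟩ := hE.nil m n hmn he' ((Q ^ N) w)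
      refine ⟨k, ?_⟩
      by_cases hm : e' m = i
      · obtain ⟨κ, hκ⟩ := h2 ι' C e' i L' B W' W rx m n hm (he'.symm.trans hm)
        simp only [if_neg hmn, zero_smul, add_zero] at hκ
        rw [INT_pow rx.lam _ _ hκ, hk, map_zero]
      · obtain ⟨κ, hκ⟩ := h1 ι' C e' i L' B W' W rx m n he' hm
        simp only [if_neg hmn, zero_smul, add_zero] at hκ
        rw [INT_pow rx.lam _ _ hκ, hk, map_zero]
    · have hm : e' m = i := he
      refine hF m b hm N (le_trans ?_ hN)
      exact Finset.le_sup (f := fun p : ι' × C => F p.1 p.2) (Finset.mem_univ (m, b))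
    · have hn : e' n = i := he.symm
      refine ⟨1, ?_⟩
      rw [pow_one]
      exact (h3 ι' C e' i L' B W' W rx a).1 n _ hn
    · have hne : a ≠ b := fun h => hab (congrArg Sum.inr h)
      obtain ⟨κ, hκ⟩ := (h3 ι' C e' i L' B W' W rx a).2 b
      refine ⟨1, ?_⟩
      rw [pow_one, hκ, if_neg hne, zero_smul]

end Pool.DM
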