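import Pool.Agent.Work.MP_c20ce7_up.Interface

set_option autoImplicit false

/-! The vectors on which a function is nilpotent are a stable subspace. -/

open MvPolynomial

noncomputable section

namespace Pool.DM

theorem p_NIL : Stmt_NIL := by
  intro σ _ _ L _ _ W g
  refine ⟨W.tors g, W.tors_stable g, fun u => ?_⟩
  rw [W.mem_tors]
  simp only [map_pow]

end Pool.DM
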