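import Pool.Agent.Work.MP_c20ce7_up.Interface

set_option autoImplicit false

open MvPolynomial

noncomputable section

namespace Pool.DM

theorem QJM_entry {ι' : Type} [Fintype ι'] [DecidableEq ι'] (e' : ι' → ℤ) (i : ℤ)
    (x ξ : Co e' → ℂ) (b c : ι') (hb : e' b = i) (hc : e' c = i - 1 ∨ e' c = i + 1) :
    eval (sx e' i x ξ) (pol e' b c) = if e' c = i - 1 then mat e' x b c else ymat e' ξ b c := by
  classical
  rcases hc with hc | hc
  · have h1 : e' b = e' c + 1 := by omega
    have h2 : ¬ e' c = i := by omega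
    rw [if_pos hc]
    unfold pol mat
    rw [dif_pos h1, dif_pos h1, eval_X]
    unfold sx
    exact if_neg h2
  · have h1 : ¬ e' b = e' c + 1 := by omega
    have h2 : e' c = e' b + 1 := by omega
    have h3 : ¬ e' c = i - 1 := by omega
    rw [if_neg h3]
    unfold pol ymat
    rw [dif_neg h1, dif_pos h2, dif_pos h2, eval_X]
    unfold sx
    exact if_pos hb

theorem QJM_det {n R S : Type} [Fintype n] [DecidableEq n] [CommRing R] [CommRing S] (f : R →+* S)
    (M : Matrix n n R) (N : Matrix n n S) (h : ∀ a b, f (M a b) = N a b) :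
    f (Matrix.det M) = Matrix.det N := by
  rw [RingHom.map_det]
  congr 1
  funext a b
  exact h a b

theorem p_QJM : Stmt_QJM := by
  intro ι' _ _ e' i J hJ x ξ
  exact QJM_det (eval (sx e' i x ξ)) _ _ fun b k => QJM_entry e' i x ξ b.1 (J k) b.2 (hJ k)

end Pool.DM
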