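import Pool.Agent.Work.MP_c20ce7_up.Interface

set_option autoImplicit false

/-!
# The block relation in the linear orientation is the relation `Rel` in the sink orientations
-/

open MvPolynomial

noncomputable section

namespace Pool.DM

section Gen

variable {ι : Type} [Fintype ι] [DecidableEq ι]

omit [Fintype ι] [DecidableEq ι] in
theorem REL_mat (e : ι → ℤ) (x : Co e → ℂ) (a b : ι) (h : e a = e b + 1) : mat e x a b = x ⟨(a, b), h⟩ := by
  unfold mat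
  rw [dif_pos h]

omit [Fintype ι] [DecidableEq ι] in
theorem REL_mat0 (e : ι → ℤ) (x : Co e → ℂ) (a b : ι) (h : e a ≠ e b + 1) : mat e x a b = 0 := by
  unfold mat
  rw [dif_neg h]

omit [Fintype ι] [DecidableEq ι] in
theorem REL_ymat (e : ι → ℤ) (ξ : Co e → ℂ) (a b : ι) (h : e a = e b + 1) : ymat e ξ b a = ξ ⟨(a, b), h⟩ := by
  unfold ymat
  rw [dif_pos h]

omit [Fintype ι] [DecidableEq ι] in
theorem REL_ymat0 (e : ι → ℤ) (ξ : Co e → ℂ) (a b : ι) (h : e a ≠ e b + 1) : ymat e ξ b a = 0 := by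
  unfold ymat
  rw [dif_neg h]

omit [Fintype ι] [DecidableEq ι] in
theorem REL_ent1 (e : ι → ℤ) (x : Co e → ℂ) (b c : ι) (h : e b = e c + 1) : ent e x b c = x ⟨(b, c), h⟩ := by
  unfold ent
  rw [dif_pos h]

omit [Fintype ι] [DecidableEq ι] in
theorem REL_ent2 (e : ι → ℤ) (x : Co e → ℂ) (b c : ι) (h : e c = e b + 1) : ent e x b c = x ⟨(c, b), h⟩ := by
  unfold ent
  rw [dif_neg (by omega), dif_pos h]

omit [Fintype ι] [DecidableEq ι] in
theorem REL_ent0 (e : ι → ℤ) (x : Co e → ℂ) (b c : ι) (h : e b ≠ e c + 1) (h' : e c ≠ e b + 1) :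
    ent e x b c = 0 := by
  unfold ent
  rw [dif_neg h, dif_neg h']

theorem REL_sx (e : ι → ℤ) (i : ℤ) (x ξ : Co e → ℂ) (b c : ι) (hb : e b = i) :
    ent e (sx e i x ξ) b c = mat e x b c + ymat e ξ b c := by
  by_cases h1 : e b = e c + 1
  · have h2 : e c ≠ i := by omega
    rw [REL_ent1 e _ b c h1, REL_mat e x b c h1, REL_ymat0 e ξ c b (by omega), add_zero]
    exact if_neg h2
  · by_cases h2 : e c = e b + 1
    · rw [REL_ent2 e _ b c h2, REL_mat0 e x b c h1, REL_ymat e ξ c b h2, zero_add]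
      exact if_pos hb
    · rw [REL_ent0 e _ b c h1 h2, REL_mat0 e x b c h1, REL_ymat0 e ξ c b h2, add_zero]

theorem REL_sxi (e : ι → ℤ) (i : ℤ) (x ξ : Co e → ℂ) (b c : ι) (hb : e b = i) :
    ent e (sxi e i x ξ) b c = ymat e ξ c b - mat e x c b := by
  by_cases h1 : e b = e c + 1
  · have h2 : e c ≠ i := by omega
    rw [REL_ent1 e _ b c h1, REL_ymat e ξ b c h1, REL_mat0 e x c b (by omega), sub_zero]
    exact if_neg h2
  · by_cases h2 : e c = e b + 1
    · rw [REL_ent2 e _ b c h2, REL_ymat0 e ξ b c h1, REL_mat e x c b h2, zero_sub]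
      exact if_pos hb
    · rw [REL_ent0 e _ b c h1 h2, REL_ymat0 e ξ b c h1, REL_mat0 e x c b h2, sub_zero]

end Gen

section Bl

variable {ι' C : Type} [Fintype ι'] [DecidableEq ι'] [Fintype C] [DecidableEq C]

omit [DecidableEq C] in
theorem REL_mul_emb (M : Matrix (ι' ⊕ C) (ι' ⊕ C) ℂ) (a : ι' ⊕ C) (b : ι') :
    (M * emb (0 : Matrix C ι' ℂ)) a b = M a (Sum.inl b) := by
  rw [Matrix.mul_apply, Fintype.sum_sum_type]
  simp [emb]

omit [Fintype C] [DecidableEq C] in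
theorem REL_emb_mul1 (M : Matrix ι' ι' ℂ) (a b : ι') :
    (emb (0 : Matrix C ι' ℂ) * M) (Sum.inl a) b = M a b := by
  rw [Matrix.mul_apply]
  simp [emb]

omit [Fintype C] [DecidableEq C] in
theorem REL_emb_mul2 (M : Matrix ι' ι' ℂ) (a : C) (b : ι') :
    (emb (0 : Matrix C ι' ℂ) * M) (Sum.inr a) b = 0 := by
  rw [Matrix.mul_apply]
  simp [emb]

theorem REL_inl (M : Matrix (ι' ⊕ C) (ι' ⊕ C) ℂ) (M' : Matrix ι' ι' ℂ)
    (h : M * emb (0 : Matrix C ι' ℂ) = emb (0 : Matrix C ι' ℂ) * M') (a b : ι') :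
    M (Sum.inl a) (Sum.inl b) = M' a b := by
  rw [← REL_mul_emb M, h, REL_emb_mul1]

theorem REL_inr (M : Matrix (ι' ⊕ C) (ι' ⊕ C) ℂ) (M' : Matrix ι' ι' ℂ)
    (h : M * emb (0 : Matrix C ι' ℂ) = emb (0 : Matrix C ι' ℂ) * M') (a : C) (b : ι') :
    M (Sum.inr a) (Sum.inl b) = 0 := by
  rw [← REL_mul_emb M, h, REL_emb_mul2]

end Bl

theorem p_REL : Stmt_REL := by
  intro ι' C _ _ _ _ e' i x' ξ' x ξ h
  have hx1 := REL_inl _ _ h.hx
  have hx2 := REL_inr _ _ h.hx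
  have hy1 := REL_inl _ _ h.hy
  have hy2 := REL_inr _ _ h.hy
  have hmom := h.mom
  refine ⟨?_, ?_, ?_, ?_, ?_, ?_⟩
  · intro p h1 h2
    have e1 : sx (addDeg e' C i) i x ξ ⟨(Sum.inl p.1.1, Sum.inl p.1.2), p.2⟩ =
      x ⟨(Sum.inl p.1.1, Sum.inl p.1.2), p.2⟩ := if_neg h2
    have e2 : sx e' i x' ξ' p = x' p := if_neg h2
    rw [e1, e2]
    have h3 := hx1 p.1.1 p.1.2
    rw [REL_mat (addDeg e' C i) x (Sum.inl p.1.1) (Sum.inl p.1.2) p.2, REL_mat e' x' p.1.1 p.1.2 p.2] at h3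
    exact h3
  · intro p h1 h2
    have e1 : sxi (addDeg e' C i) i x ξ ⟨(Sum.inl p.1.1, Sum.inl p.1.2), p.2⟩ =
      ξ ⟨(Sum.inl p.1.1, Sum.inl p.1.2), p.2⟩ := if_neg h2
    have e2 : sxi e' i x' ξ' p = ξ' p := if_neg h2
    rw [e1, e2]
    have h3 := hy1 p.1.2 p.1.1
    rw [REL_ymat (addDeg e' C i) ξ (Sum.inl p.1.1) (Sum.inl p.1.2) p.2, REL_ymat e' ξ' p.1.1 p.1.2 p.2] at h3
    exact h3
  · intro b c hb
    rw [REL_sx (addDeg e' C i) i x ξ (Sum.inl b) (Sum.inl c) hb, REL_sx e' i x' ξ' b c hb, hx1, hy1]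
  · intro b c hb
    rw [REL_sxi (addDeg e' C i) i x ξ (Sum.inl b) (Sum.inl c) hb, REL_sxi e' i x' ξ' b c hb, hx1, hy1]
  · intro a c
    rw [REL_sx (addDeg e' C i) i x ξ (Sum.inr a) (Sum.inl c) rfl, hx2, hy2, add_zero]
  · intro a b hb
    have h1 := hmom (Sum.inl b) (Sum.inr a) hb rfl
    rw [Matrix.sub_apply, Matrix.mul_apply, Matrix.mul_apply, Fintype.sum_sum_type, Fintype.sum_sum_type] at h1
    have hc1 : ∑ c : C, mat (addDeg e' C i) x (Sum.inl b) (Sum.inr c) *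
        ymat (addDeg e' C i) ξ (Sum.inr c) (Sum.inr a) = 0 := by
      refine Finset.sum_eq_zero fun c _ => ?_
      rw [REL_mat0 (addDeg e' C i) x (Sum.inl b) (Sum.inr c) (by simp only [addDeg, Sum.elim_inl, Sum.elim_inr]; omega),
        zero_mul]
    have hc2 : ∑ c : C, ymat (addDeg e' C i) ξ (Sum.inl b) (Sum.inr c) *
        mat (addDeg e' C i) x (Sum.inr c) (Sum.inr a) = 0 := by
      refine Finset.sum_eq_zero fun c _ => ?_
      rw [REL_mat0 (addDeg e' C i) x (Sum.inr c) (Sum.inr a) (by simp only [addDeg, Sum.elim_inr]; omega),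
        mul_zero]
    rw [hc1, hc2, add_zero, add_zero, ← Finset.sum_sub_distrib] at h1
    rw [← h1]
    refine Finset.sum_congr rfl fun c _ => ?_
    rw [REL_sx e' i x' ξ' b c hb, REL_sxi (addDeg e' C i) i x ξ (Sum.inr a) (Sum.inl c) rfl, ← hx1, ← hy1]
    have z1 : mat (addDeg e' C i) x (Sum.inl b) (Sum.inl c) *
        mat (addDeg e' C i) x (Sum.inl c) (Sum.inr a) = 0 := by
      by_cases h2 : e' b = e' c + 1
      · rw [REL_mat0 (addDeg e' C i) x (Sum.inl c) (Sum.inr a)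
          (by simp only [addDeg, Sum.elim_inl, Sum.elim_inr]; omega), mul_zero]
      · rw [REL_mat0 (addDeg e' C i) x (Sum.inl b) (Sum.inl c) h2, zero_mul]
    have z2 : ymat (addDeg e' C i) ξ (Sum.inl b) (Sum.inl c) *
        ymat (addDeg e' C i) ξ (Sum.inl c) (Sum.inr a) = 0 := by
      by_cases h2 : e' c = e' b + 1
      · rw [REL_ymat0 (addDeg e' C i) ξ (Sum.inr a) (Sum.inl c)
          (by simp only [addDeg, Sum.elim_inl, Sum.elim_inr]; omega), mul_zero]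
      · rw [REL_ymat0 (addDeg e' C i) ξ (Sum.inl c) (Sum.inl b) h2, zero_mul]
    linear_combination z2 - z1

end Pool.DM
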