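import Pool.Agent.Work.MP_c20ce7_up.B_EX
import Pool.Agent.Work.MP_c20ce7_up.B_GOO
import Pool.Agent.Work.MP_c20ce7_up.B_DET
import Pool.Agent.Work.MP_c20ce7_up.B_IN1
import Pool.Agent.Work.MP_c20ce7_up.B_IN2
import Pool.Agent.Work.MP_c20ce7_up.B_IN3
import Pool.Agent.Work.MP_c20ce7_up.B_IN5
import Pool.Agent.Work.MP_c20ce7_up.B_IN6
import Pool.Agent.Work.MP_c20ce7_up.B_INT
import Pool.Agent.Work.MP_c20ce7_up.B_FOU
import Pool.Agent.Work.MP_c20ce7_up.B_FEX
import Pool.Agent.Work.MP_c20ce7_up.B_NIL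
import Pool.Agent.Work.MP_c20ce7_up.B_REL
import Pool.Agent.Work.MP_c20ce7_up.B_QJM
import Pool.Agent.Work.MP_c20ce7_up.B_BLT
import Pool.Agent.Work.MP_c20ce7_dm8.A6

set_option autoImplicit false
set_option linter.unusedSectionVars false
set_option linter.unusedVariables false

/-!
# The up-step: assembly
-/

open MvPolynomial

noncomputable section

namespace Pool.DM

section Restrict

variable {B : Type} [AddCommGroup B] [Module ℂ B]

theorem up_eig_mem {T : Module.End ℂ B} {S : Submodule ℂ B} (hS : ∀ u ∈ S, T u ∈ S) (s : Finset ℤ) :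
    ∀ v : ℤ → B, (∀ n ∈ s, T (v n) = (n : ℂ) • v n) → ∑ n ∈ s, v n ∈ S → ∀ n ∈ s, v n ∈ S := by
  classical
  induction s using Finset.induction_on with
  | empty => intro v _ _ n hn; exact absurd hn (Finset.notMem_empty n)
  | insert a s ha ih =>
    intro v hv hsum
    have h4 : ∑ n ∈ s, ((n : ℂ) - a) • v n =
        T (∑ n ∈ insert a s, v n) - (a : ℂ) • ∑ n ∈ insert a s, v n := by
      rw [map_sum, Finset.smul_sum, ← Finset.sum_sub_distrib, Finset.sum_insert ha,
        hv a (Finset.mem_insert_self a s), sub_self, zero_add]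
      refine Finset.sum_congr rfl fun n hn => ?_
      rw [hv n (Finset.mem_insert_of_mem hn), sub_smul]
    have h1 : ∀ n ∈ s, v n ∈ S := by
      have h2 := ih (fun n => ((n : ℂ) - a) • v n)
        (fun n hn => by rw [map_smul, hv n (Finset.mem_insert_of_mem hn), smul_comm])
        (by rw [h4]; exact S.sub_mem (hS _ hsum) (S.smul_mem _ hsum))
      intro n hn
      have hne : ((n : ℂ) - a) ≠ 0 := by
        rw [sub_ne_zero]
        intro h
        have h5 : n = a := by exact_mod_cast h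
        exact ha (h5 ▸ hn)
      exact (S.smul_mem_iff hne).1 (h2 n hn)
    intro n hn
    rcases Finset.mem_insert.1 hn with rfl | hn
    · rw [Finset.sum_insert ha] at hsum
      exact (S.add_mem_iff_left (S.sum_mem h1)).1 hsum
    · exact h1 n hn

theorem up_res_diag {T : Module.End ℂ B} {S : Submodule ℂ B} (T' : Module.End ℂ S)
    (hT : ∀ u : S, ((T' u : S) : B) = T u) (u : S)
    (hu : (u : B) ∈ ⨆ n : ℤ, Module.End.eigenspace T (n : ℂ)) :
    u ∈ ⨆ n : ℤ, Module.End.eigenspace T' (n : ℂ) := by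
  classical
  obtain ⟨f, hf, hfu⟩ := (Submodule.mem_iSup_iff_exists_finsupp _ _).1 hu
  have h1 : ∀ n ∈ f.support, f n ∈ S := by
    refine up_eig_mem (T := T) (fun v hv => ?_) f.support f
      (fun n _ => Module.End.mem_eigenspace_iff.1 (hf n)) ?_
    · have := (T' ⟨v, hv⟩).2
      rwa [hT] at this
    · have h2 : ∑ n ∈ f.support, f n = u := hfu
      rw [h2]
      exact u.2
  have h1' : ∀ n, f n ∈ S := by
    intro n
    by_cases hn : n ∈ f.support
    · exact h1 n hn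
    · rw [Finsupp.notMem_support_iff.1 hn]
      exact S.zero_mem
  have h2 : u = ∑ n ∈ f.support, (⟨f n, h1' n⟩ : S) := by
    apply Subtype.ext
    rw [Submodule.coe_sum]
    exact hfu.symm
  rw [h2]
  refine Submodule.sum_mem _ fun n _ => Submodule.mem_iSup_of_mem n
    (Module.End.mem_eigenspace_iff.2 (Subtype.ext ?_))
  rw [hT]
  exact Module.End.mem_eigenspace_iff.1 (hf n)

theorem up_res_pow {T : Module.End ℂ B} {S : Submodule ℂ B} (T' : Module.End ℂ S)
    (hT : ∀ u : S, ((T' u : S) : B) = T u) (k : ℕ) : ∀ u : S, (((T' ^ k) u : S) : B) = (T ^ k) u := by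
  induction k with
  | zero => intro u; rfl
  | succ k ih =>
    intro u
    rw [pow_succ, pow_succ, Module.End.mul_apply, Module.End.mul_apply, ih, hT]

end Restrict

section ResG

variable {ι : Type} [Fintype ι] [DecidableEq ι] {e : ι → ℤ}
variable {B : Type} [AddCommGroup B] [Module ℂ B]

theorem up_res_xo (W : WMod (Co e) B) (S : Submodule ℂ B) (h : W.Stable S) (a b : ι) (u : S) :
    (((W.res S h).xo a b u : S) : B) = W.xo a b u := by
  by_cases hab : e a = e b + 1
  · rw [WMod.xo_of _ hab, WMod.xo_of _ hab]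
    rfl
  · rw [WMod.xo_of_not _ hab, WMod.xo_of_not _ hab]
    rfl

theorem up_res_dO (W : WMod (Co e) B) (S : Submodule ℂ B) (h : W.Stable S) (a b : ι) (u : S) :
    (((W.res S h).dO a b u : S) : B) = W.dO a b u := by
  by_cases hab : e a = e b + 1
  · rw [WMod.dO_of _ hab, WMod.dO_of _ hab]
    rfl
  · rw [WMod.dO_of_not _ hab, WMod.dO_of_not _ hab]
    rfl

theorem up_res_G (W : WMod (Co e) B) (S : Submodule ℂ B) (h : W.Stable S) (a b : ι) (u : S) :
    (((W.res S h).G a b u : S) : B) = W.G a b u := by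
  unfold WMod.G
  simp only [LinearMap.sub_apply, LinearMap.sum_apply, Module.End.mul_apply, Submodule.coe_sub,
    Submodule.coe_sum, up_res_xo, up_res_dO]

/-- Integrable vectors give an equivariant module. -/
theorem up_equi (W : WMod (Co e) B) (S : Submodule ℂ B) (h : W.Stable S) (hg : ∀ u ∈ S, W.Good u) :
    (W.res S h).Equivariant where
  diag := fun a u => up_res_diag _ (up_res_G W S h a a) u ((hg u u.2).1 a)
  nil := fun a b hab he u => by
    obtain ⟨k, hk⟩ := (hg u u.2).2 a b hab he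
    refine ⟨k, Subtype.ext ?_⟩
    rw [up_res_pow _ (up_res_G W S h a b) k u, hk]
    rfl

end ResG

section Four

variable {σ : Type} [Fintype σ] [DecidableEq σ] {B : Type} [AddCommGroup B] [Module ℂ B]

theorem IsFour.res {A : σ → Prop} {W V : WMod σ B} (h : IsFour A W V) (S : Submodule ℂ B)
    (hW : W.Stable S) (hV : V.Stable S) : IsFour A (W.res S hW) (V.res S hV) where
  xA := fun k hk => LinearMap.ext fun u => Subtype.ext (by
    rw [WMod.res_x, WMod.res_d, h.xA k hk])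
  dA := fun k hk => LinearMap.ext fun u => Subtype.ext (by
    rw [WMod.res_d, LinearMap.neg_apply, Submodule.coe_neg, WMod.res_x, h.dA k hk]
    rfl)
  xN := fun k hk => LinearMap.ext fun u => Subtype.ext (by
    rw [WMod.res_x, WMod.res_x, h.xN k hk])
  dN := fun k hk => LinearMap.ext fun u => Subtype.ext (by
    rw [WMod.res_d, WMod.res_d, h.dN k hk])

end Four

theorem p_UP (hSUP : Stmt_USUP) : Stmt_UPSTEP := by
  intro ι' C _ _ _ _ e' i L' _ _ W' hS hG hE J hJ hex
  classical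
  obtain ⟨x0, ξ0, hCh0, hQ0⟩ := hex
  obtain ⟨V', h'⟩ := p_FEX (Co e') L' W' (Src e' i)
  have hchar : ∀ x ξ, W'.InCh x ξ → V'.InCh (sx e' i x ξ) (sxi e' i x ξ) := fun x ξ h =>
    (p_FOU ι' e' i L' W' V' hS hE h' x ξ).1 h
  have hVS : V'.Simple := h'.simple.1 hS
  have hn : ¬ LocNil (V'.x (minor e' i J)) := by
    intro h
    have h1 := stmt_SCH (Co e') L' V' (minor e' i J) hVS h _ _ (hchar x0 ξ0 hCh0)
    rw [p_QJM ι' e' i J hJ] at h1
    exact hQ0 h1
  have hinj : Function.Injective (V'.x (minor e' i J)) := by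
    rcases V'.nilp_or_inj hVS (minor e' i J) with h | h
    · exact absurd (fun u => by
        obtain ⟨k, hk⟩ := h u
        exact ⟨k, by rwa [map_pow] at hk⟩) hn
    · exact h
  obtain ⟨B, _, _, W, V, rx, hF, hWG, hlam, hdesc, hin⟩ := p_EX ι' C e' i L' W' V' hS hG h' J hn
  obtain ⟨F, hFs, hFg⟩ := p_GOO (ι' ⊕ C) (addDeg e' C i) B W
  have hF0 : F ≠ ⊥ := by
    obtain ⟨w0, -, hw0⟩ := Submodule.exists_mem_ne_zero_of_ne_bot hS.2.1
    obtain ⟨N0, hN0⟩ := p_INT p_IN1 p_IN2 p_IN3 p_IN5 p_IN6 ι' C e' i L' B W' W rx hE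
      (V'.x (minor e' i J)) (fun k b hk hb => p_DET ι' e' i L' W' V' h' J k b hk hb) w0
    have h1 : rx.lam ((V'.x (minor e' i J) ^ N0) w0) ∈ F := (hFg _).2 (hN0 N0 le_rfl)
    intro h2
    rw [h2, Submodule.mem_bot] at h1
    have h3 : (V'.x (minor e' i J) ^ N0) w0 = 0 := hlam (by rw [h1, map_zero])
    rw [← map_pow] at h3
    exact hw0 (V'.x_pow_inj hinj N0 (by rw [h3, map_zero]))
  obtain ⟨S, hSS, hSF⟩ := W.exists_simple hWG F hFs hF0
  have hSV : V.Stable S := (hF.stable S).1 hSS.1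
  have hEq : (W.res S hSS.1).Equivariant := up_equi W S hSS.1 fun u hu => (hFg u).1 (hSF hu)
  have hSi : (W.res S hSS.1).Simple := hSS.simple
  have hIF := hF.res S hSS.1 hSV
  refine ⟨S, inferInstance, inferInstance, W.res S hSS.1, hSi, hWG.res S hSS.1, hEq, ?_, ?_⟩
  · intro x' ξ' hCh hQ T x ξ hT hx hξ hm
    obtain ⟨g, h, x1, ξ1, hgh, hhg, hg, hh, hblk, hx1, hξ1⟩ :=
      p_BLT ι' C e' i x' ξ' T x ξ hT hx hξ hm
    refine stmt_HST (ι' ⊕ C) (addDeg e' C i) S (W.res S hSS.1) hSi hEq g h hgh hhg hg hh x1 ξ1 x ξ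
      ?_ hx1 hξ1
    rw [p_FOU (ι' ⊕ C) (addDeg e' C i) i S (W.res S hSS.1) (V.res S hSV) hSi hEq hIF]
    refine WMod.InCh.res (hin _ _ (hchar x' ξ' hCh) ?_ _ _ (p_REL ι' C e' i x' ξ' x1 ξ1 hblk)) S hSV
    rw [p_QJM ι' e' i J hJ]
    exact hQ
  · intro Z' hZ' g hg u
    have h1 := hSUP ι' C e' i L' B W' W rx Z' hZ' g hg
    obtain ⟨F', hF's, hF'⟩ := p_NIL _ B W g
    obtain ⟨w, hw, hwS⟩ := hdesc S hSS.1 hSS.2.1
    have h2 : S ⊓ F' = ⊥ ∨ S ⊓ F' = S := hSS.2.2 (S ⊓ F') (fun v hv =>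
      ⟨fun j => ⟨(hSS.1 v hv.1).1 j, (hF's v hv.2).1 j⟩,
        fun j => ⟨(hSS.1 v hv.1).2 j, (hF's v hv.2).2 j⟩⟩) inf_le_left
    have h3 : S ⊓ F' = S := by
      rcases h2 with h2 | h2
      · exfalso
        have h4 : rx.lam w ∈ S ⊓ F' := ⟨hwS, (hF' _).2 (h1 w)⟩
        rw [h2, Submodule.mem_bot] at h4
        exact hw (hlam (by rw [h4, map_zero]))
      · exact h2
    have h5 : (u : B) ∈ S ⊓ F' := by rw [h3]; exact u.2
    obtain ⟨k, hk⟩ := (hF' u).1 h5.2
    refine ⟨k, Subtype.ext ?_⟩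
    rw [up_res_pow ((W.res S hSS.1).x g) (fun v => W.res_x S hSS.1 g v) k u, hk]
    rfl

end Pool.DM
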