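import Pool.Agent.Work.MP_c20ce7_up.Defs

set_option autoImplicit false

/-!
# The up-step: statements with proofs in words

NOTATION. Vertex `i`; `R` = the basis vectors `b` of `ι'` of degree `i`; `C` = the new basis vectors (degree `i`).
`φ_{bc} = ph b c`, `D_{bc} = dp b c` for `b` of degree `i`: `[D_{bc}, φ_{b'c'}] = δ`, the `φ` commute, the `D` commute
(`ph b c = dp b c = 0` unless `c` has degree `i - 1` or `i + 1`; if `e c = i - 1` then `φ_{bc} = x_{bc}`, `D_{bc} = ∂_{bc}`,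
if `e c = i + 1` then `φ_{bc} = ∂_{cb}`, `D_{bc} = - x_{cb}`).
-/

open MvPolynomial

noncomputable section

namespace Pool.DM

/-- The relation between the points of the sink orientations in the up-step: the new rows of `φ` vanish, the
moment map condition holds. -/
structure Rel {ι' : Type} [Fintype ι'] (e' : ι' → ℤ) (C : Type) (i : ℤ) (x' ξ' : Co e' → ℂ)
    (x ξ : Co (addDeg e' C i) → ℂ) : Prop where
  x0 : ∀ p : Co e', e' p.1.1 ≠ i → e' p.1.2 ≠ i → x ⟨(Sum.inl p.1.1, Sum.inl p.1.2), p.2⟩ = x' p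
  xi0 : ∀ p : Co e', e' p.1.1 ≠ i → e' p.1.2 ≠ i → ξ ⟨(Sum.inl p.1.1, Sum.inl p.1.2), p.2⟩ = ξ' p
  x1 : ∀ b c, e' b = i → ent (addDeg e' C i) x (Sum.inl b) (Sum.inl c) = ent e' x' b c
  xi1 : ∀ b c, e' b = i → ent (addDeg e' C i) ξ (Sum.inl b) (Sum.inl c) = ent e' ξ' b c
  x2 : ∀ a c, ent (addDeg e' C i) x (Sum.inr a) (Sum.inl c) = 0
  mom : ∀ a b, e' b = i → ∑ c, ent e' x' b c * ent (addDeg e' C i) ξ (Sum.inr a) (Sum.inl c) = 0

/-- The block relation in the linear orientation: `x = [x', α; 0, 0]`, `y = [y', β; 0, 0]` with `x' β = y' α`. -/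
structure Blk {ι' C : Type} [Fintype ι'] [DecidableEq ι'] [Fintype C] [DecidableEq C] (e' : ι' → ℤ) (i : ℤ)
    (x' ξ' : Co e' → ℂ) (x ξ : Co (addDeg e' C i) → ℂ) : Prop where
  hx : mat (addDeg e' C i) x * emb (0 : Matrix C ι' ℂ) = emb (0 : Matrix C ι' ℂ) * mat e' x'
  hy : ymat (addDeg e' C i) ξ * emb (0 : Matrix C ι' ℂ) = emb (0 : Matrix C ι' ℂ) * ymat e' ξ'
  mom : ∀ a b, addDeg e' C i a = i → addDeg e' C i b = i →
    (mat (addDeg e' C i) x * ymat (addDeg e' C i) ξ - ymat (addDeg e' C i) ξ * mat (addDeg e' C i) x) a b = 0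

/-- The points `(1 + T) [x', α; 0, 0] (1 + T)⁻¹` with `x' ∈ Z'`. -/
def ZExt {ι' : Type} [Fintype ι'] [DecidableEq ι'] (e' : ι' → ℤ) (C : Type) [Fintype C] [DecidableEq C] (i : ℤ)
    (Z' : Set (Co e' → ℂ)) : Set (Co (addDeg e' C i) → ℂ) :=
  {x | ∃ x' ∈ Z', ∃ T : Matrix C ι' ℂ, TDeg e' i T ∧ mat _ x * emb T = emb T * mat e' x'}

/-! ## The existence of the row extension (P3) -/

/-- EX. `L'` simple of growth type, the minor `Q = minor e' i J` of `φ'` not locally nilpotent (hence injective,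
`nilp_or_inj`). Model: `B = (C × R →₀ ℕ) × (C × Jc →₀ ℕ) →₀ L'_Q`, i.e. `L'_Q ⊗ O_T ⊗ δ_ρ` over the coordinates
`K'' = Co e' (sink orientation) + C × R + C × Jc` and the change of coordinates
`φ_{ac} = ∑_b T_{ab} φ_{bc} + R_{ac}`; `lam w = Q^(-|C|) (1 ⊗ δ ⊗ w)`. -/
def Stmt_EX : Prop :=
  ∀ (ι' C : Type) [Fintype ι'] [DecidableEq ι'] [Fintype C] [DecidableEq C] (e' : ι' → ℤ) (i : ℤ)
    (L' : Type) [AddCommGroup L'] [Module ℂ L'] (W' V' : WMod (Co e') L'), W'.Simple → W'.Growth →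
    IsFour (Src e' i) W' V' → ∀ J : {b // e' b = i} → ι', ¬ LocNil (V'.x (minor e' i J)) →
    ∃ (B : Type) (_ : AddCommGroup B) (_ : Module ℂ B) (W V : WMod (Co (addDeg e' C i)) B)
      (rx : RowExt (C := C) (i := i) W' W),
      IsFour (Src (addDeg e' C i) i) W V ∧ W.Growth ∧ Function.Injective rx.lam ∧
      (∀ N : Submodule ℂ B, W.Stable N → N ≠ ⊥ → ∃ w : L', w ≠ 0 ∧ rx.lam w ∈ N) ∧
      ∀ (x' ξ' : Co e' → ℂ), V'.InCh x' ξ' → eval x' (minor e' i J) ≠ 0 →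
        ∀ x ξ : Co (addDeg e' C i) → ℂ, Rel e' C i x' ξ' x ξ → V.InCh x ξ

/-! ## Integrability (P4) -/

/-- GOO (100 lines). The integrable vectors are a stable subspace. For each pair `(a, b)` of the same degree the
operator `G a b` satisfies `[G a b, x_{cd}] = `(combination of coordinates), `[G a b, ∂_{cd}]` likewise, and
`ad (G a b)` is nilpotent (`ad^3 = 0`) on the span of the coordinates for `a ≠ b`: so `{u | ∃ k, (G a b)^k u = 0}` is
stable. `G a a` has `x_{cd}`, `∂_{cd}` as eigenvectors with eigenvalues in `{-1, 0, 1}`: so the sum of the integral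
eigenspaces is stable. Intersect. -/
def Stmt_GOO : Prop :=
  ∀ (ι : Type) [Fintype ι] [DecidableEq ι] (e : ι → ℤ) (L : Type) [AddCommGroup L] [Module ℂ L]
    (W : WMod (Co e) L), ∃ F : Submodule ℂ L, W.Stable F ∧ ∀ u, u ∈ F ↔ W.Good u

/-- DET (80 lines). `Q = ` the minor of `φ` with the columns `J` as an operator: `G k b Q = Q (G k b + δ_{kb})` for
`k, b` of degree `i`. Indeed `G k b = ∑_c φ_{bc} D_{kc} + (constant) δ_{kb}` and `[D_{kc}, ·]` is the derivative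
with respect to `φ_{kc}`: the derivation `∑_c φ_{bc} ∂/∂φ_{kc}` replaces the row `k` by the row `b` in the
determinant. -/
def Stmt_DET : Prop :=
  ∀ (ι' : Type) [Fintype ι'] [DecidableEq ι'] (e' : ι' → ℤ) (i : ℤ)
    (L' : Type) [AddCommGroup L'] [Module ℂ L'] (W' V' : WMod (Co e') L'), IsFour (Src e' i) W' V' →
    ∀ (J : {b // e' b = i} → ι') (k b : ι'), e' k = i → e' b = i →
      W'.G k b * V'.x (minor e' i J) = V'.x (minor e' i J) * (W'.G k b + if k = b then 1 else 0)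

/-- IN1 (100 lines). The fields of the other vertices. `m, n` of degree `j ≠ i`. `W.G m n = ∑ x_{nc} ∂_{mc} - ∑ x_{cm} ∂_{cn}`;
the terms with `c` of degree `i` are `- ∑_{c of degree i} φ_{cm} D_{cn} - δ_{mn} (number of c)` if `j = i + 1` and
`- ∑ φ_{cm} D_{cn}` if `j = i - 1`; the other terms commute with `lam`. For `c ∈ R`:
`φ_{cm} D_{cn} lam w = φ_{cm} (lam (D'_{cn} w) - ∑_a D_{an} T_{ac} lam w)` and for the new rows
`∑_a φ_{am} D_{an} lam w = ∑_a (D_{an} φ_{am} - δ_{mn}) lam w = ∑_a D_{an} ∑_c T_{ac} φ_{cm} lam w - |C| δ_{mn} lam w`: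
the `T`-terms cancel (`T` commutes with `φ`, `φ_{cm}` commutes with `D_{an}`). -/
def Stmt_IN1 : Prop :=
  ∀ (ι' C : Type) [Fintype ι'] [DecidableEq ι'] [Fintype C] [DecidableEq C] (e' : ι' → ℤ) (i : ℤ)
    (L' B : Type) [AddCommGroup L'] [Module ℂ L'] [AddCommGroup B] [Module ℂ B] (W' : WMod (Co e') L')
    (W : WMod (Co (addDeg e' C i)) B) (rx : RowExt (C := C) (i := i) W' W) (m n : ι'), e' m = e' n → e' m ≠ i →
    ∃ κ : ℤ, ∀ w : L', W.G (Sum.inl m) (Sum.inl n) (rx.lam w) =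
      rx.lam (W'.G m n w) + (if m = n then (κ : ℂ) else 0) • rx.lam w

/-- IN2 (80 lines). The fields of the old rows. `k, l ∈ R`: `G k l = ∑_c φ_{lc} D_{kc} + δ_{kl} #{c : e c = i + 1}` (sum over
all neighbours `c`, all of them are old). `∑_c φ_{lc} D_{kc} lam w = ∑_c φ_{lc} (lam (D'_{kc} w) - ∑_a D_{ac} T_{ak} lam w)
= lam (∑ φ'_{lc} D'_{kc} w) - ∑_a th a l T_{ak} lam w`, and `th a l T_{ak} lam w = δ_{kl} lam w` by `T_th`, `lam_th`. -/
def Stmt_IN2 : Prop :=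
  ∀ (ι' C : Type) [Fintype ι'] [DecidableEq ι'] [Fintype C] [DecidableEq C] (e' : ι' → ℤ) (i : ℤ)
    (L' B : Type) [AddCommGroup L'] [Module ℂ L'] [AddCommGroup B] [Module ℂ B] (W' : WMod (Co e') L')
    (W : WMod (Co (addDeg e' C i)) B) (rx : RowExt (C := C) (i := i) W' W) (k l : ι'), e' k = i → e' l = i →
    ∃ κ : ℤ, ∀ w : L', W.G (Sum.inl k) (Sum.inl l) (rx.lam w) =
      rx.lam (W'.G k l w) + (if k = l then (κ : ℂ) else 0) • rx.lam w

/-- IN3 (80 lines). The new rows: `G (inr a) (inl b) lam w = th a b lam w = 0` for `b ∈ R`, and for `a, a' ∈ C`: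
`G (inr a) (inr a') = ∑_c φ_{a'c} D_{ac} + δ #{c : e c = i + 1}`, `∑_c φ_{a'c} D_{ac} lam w =
∑_c (D_{ac} φ_{a'c} - δ_{aa'}) lam w = ∑_b th a b T_{a'b} lam w - δ_{aa'} #{neighbours} lam w =
δ_{aa'} (|R| - #{neighbours}) lam w`. -/
def Stmt_IN3 : Prop :=
  ∀ (ι' C : Type) [Fintype ι'] [DecidableEq ι'] [Fintype C] [DecidableEq C] (e' : ι' → ℤ) (i : ℤ)
    (L' B : Type) [AddCommGroup L'] [Module ℂ L'] [AddCommGroup B] [Module ℂ B] (W' : WMod (Co e') L')
    (W : WMod (Co (addDeg e' C i)) B) (rx : RowExt (C := C) (i := i) W' W) (a : C),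
    (∀ (b : ι') (w : L'), e' b = i → W.G (Sum.inr a) (Sum.inl b) (rx.lam w) = 0) ∧
    ∀ a' : C, ∃ κ : ℤ, ∀ w : L', W.G (Sum.inr a) (Sum.inr a') (rx.lam w) =
      (if a = a' then (κ : ℂ) else 0) • rx.lam w

/-- The product of the operators `T a b`, `b ∈ l`. -/
def Tmon {B : Type} [AddCommGroup B] [Module ℂ B] {ι' C : Type} (T : C → ι' → Module.End ℂ B) (a : C)
    (l : List ι') : Module.End ℂ B := (l.map (T a)).prod

/-- IN5 (150 lines). The remaining fields, `k ∈ R`, `a ∈ C`: `G (inl k) (inr a) = ∑_c φ_{ac} D_{kc}` (`k ≠ a`). On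
`p = T_{ab_1} .. T_{ab_n}` applied to `lam w` (`n = l.length`, all `b_j ∈ R`):
`∑_c φ_{ac} D_{kc} p lam w = ∑_c φ_{ac} (p lam (D'_{kc} w) - ∑_{a'} D_{a'c} T_{a'k} p lam w)`
(`nab` commutes with `T`), `∑_c φ_{ac} p lam (D'_{kc} w) = ∑_b T_{ab} p lam (∑_c φ'_{bc} D'_{kc} w)`
(`ph` of the new row on `T`-multiples of `lam`: `T` commutes with `ph`, then `lam_ph2`), and
`∑_c φ_{ac} D_{a'c} v = ∑_c D_{a'c} φ_{ac} v - δ_{aa'} N v`, `N = #{neighbours}`,
`∑_c D_{a'c} φ_{ac} v = ∑_b th a' b T_{ab} v` for `v = T_{a'k} p lam w`, and by `T_th`, `lam_th`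
`∑_{a',b} th a' b T_{ab} T_{a'k} p lam w = (|R| + |C| + n) T_{ak} p lam w`. Together
`G p lam w = ∑_b T_{ab} p lam (G'_{kb} w) + (M - n) T_{ak} p lam w` with the integer
`M = #{c : e' c = i - 1} - |R| - |C|` (`∑ φ'_{bc} D'_{kc} = G'_{kb} - δ_{kb} #{c : e' c = i + 1}`). -/
def Stmt_IN5 : Prop :=
  ∀ (ι' C : Type) [Fintype ι'] [DecidableEq ι'] [Fintype C] [DecidableEq C] (e' : ι' → ℤ) (i : ℤ)
    (L' B : Type) [AddCommGroup L'] [Module ℂ L'] [AddCommGroup B] [Module ℂ B] (W' : WMod (Co e') L')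
    (W : WMod (Co (addDeg e' C i)) B) (rx : RowExt (C := C) (i := i) W' W) (a : C) (k : ι'), e' k = i →
    ∃ M : ℤ, ∀ (l : List ι') (w : L'), (∀ b ∈ l, e' b = i) →
      W.G (Sum.inl k) (Sum.inr a) (Tmon rx.T a l (rx.lam w)) =
        (∑ b : ι', if e' b = i then rx.T a b (Tmon rx.T a l (rx.lam (W'.G k b w))) else 0) +
          ((M : ℂ) - l.length) • rx.T a k (Tmon rx.T a l (rx.lam w))

/-- IN6 (150 lines). `w` an eigenvector of `G'_{kk}` with the integral eigenvalue `j`, killed by every product of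
more than `S` of the commuting operators `G'_{kb}` (`b ∈ R`, `b ≠ k`), `j + M ≥ S`, `M` as in IN5: then
`G (inl k) (inr a)` is nilpotent on `lam w`. Proof: `[G'_{kk}, G'_{kb}] = - G'_{kb}`; after `n` steps
`G^n lam w` is a combination of `T_{ak}^(n-s) T_{ab_1} .. T_{ab_s} lam (G'_{kb_1} .. G'_{kb_s} w)`, with the coefficients
`c(n,s)`, `c(n+1,s) = c(n,s) (j - s + M - n + ..) + c(n,s-1)`; better: put `V_n` = span of the
`T_{ak}^(n-s) T_{ab_1} .. T_{ab_s} lam (G'_{kb_1} .. G'_{kb_s} w)`, the exact statement is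
`G^n lam w = sum over s of (n choose s) (j+M-s)(j+M-s-1)..(j+M-n+1) T_{ak}^(n-s) Y^s`, `Y = ∑_{b ≠ k} T_{ab} ⊗ G'_{kb}`
(generating function `(1 + t T_{ak})^(j+M) exp (t Y / (1 + t T_{ak}))`), which is zero for `n > j + M` because the
factor `j + M - (j + M)` occurs for `s ≤ S ≤ j + M`. -/
def Stmt_IN6 : Prop :=
  ∀ (ι' C : Type) [Fintype ι'] [DecidableEq ι'] [Fintype C] [DecidableEq C] (e' : ι' → ℤ) (i : ℤ)
    (L' B : Type) [AddCommGroup L'] [Module ℂ L'] [AddCommGroup B] [Module ℂ B] (W' : WMod (Co e') L')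
    (W : WMod (Co (addDeg e' C i)) B) (rx : RowExt (C := C) (i := i) W' W) (a : C) (k : ι'), e' k = i →
    ∀ M : ℤ, (∀ (l : List ι') (w : L'), (∀ b ∈ l, e' b = i) →
      W.G (Sum.inl k) (Sum.inr a) (Tmon rx.T a l (rx.lam w)) =
        (∑ b : ι', if e' b = i then rx.T a b (Tmon rx.T a l (rx.lam (W'.G k b w))) else 0) +
          ((M : ℂ) - l.length) • rx.T a k (Tmon rx.T a l (rx.lam w))) →
    ∀ (w : L') (j : ℤ) (S : ℕ), W'.G k k w = (j : ℂ) • w →
      (∀ l : List ι', (∀ b ∈ l, e' b = i ∧ b ≠ k) → S < l.length → (l.map (W'.G k)).prod w = 0) →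
      (S : ℤ) ≤ j + M → ∃ n : ℕ, (W.G (Sum.inl k) (Sum.inr a) ^ n) (rx.lam w) = 0

/-- INT (120 lines). Assembly from IN1, IN2, IN3, IN5, IN6: for every `w` all `lam (Q^N w)`, `N` large, are integrable.
`G'` is diagonalizable / locally nilpotent on `L'` (in particular on `Q^N w`), so IN1, IN2, IN3 give every field
except `G (inl k) (inr a)` for every `N`. For this one write `w` as a finite sum of eigenvectors `w_j` of `G'_{kk}`; the
`G'_{kb}`, `b ≠ k`, commute and are locally nilpotent, so every product of more than `S` of them kills `w_j`; they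
commute with `Q` and `G'_{kk} Q^N w_j = (j + N) Q^N w_j`: apply IN6 for `N ≥ S - j - M`. (A diagonal field
`G b b`, applied to `lam w`, `w = ∑ w_j`: `lam w_j` is an eigenvector for the eigenvalue `j + κ`.) -/
def Stmt_INT : Prop :=
  ∀ (ι' C : Type) [Fintype ι'] [DecidableEq ι'] [Fintype C] [DecidableEq C] (e' : ι' → ℤ) (i : ℤ)
    (L' B : Type) [AddCommGroup L'] [Module ℂ L'] [AddCommGroup B] [Module ℂ B] (W' : WMod (Co e') L')
    (W : WMod (Co (addDeg e' C i)) B) (rx : RowExt (C := C) (i := i) W' W), W'.Equivariant →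
    ∀ Q : Module.End ℂ L', (∀ k b : ι', e' k = i → e' b = i →
      W'.G k b * Q = Q * (W'.G k b + if k = b then 1 else 0)) →
    ∀ w : L', ∃ N₀ : ℕ, ∀ N ≥ N₀, W.Good (rx.lam ((Q ^ N) w))

/-! ## The support in the linear orientation (P5) -/

/-- The polynomials in `x'`, `T_{ab}` and `η_{ac}`. -/
abbrev SR {ι' : Type} (e' : ι' → ℤ) (C : Type) : Type := MvPolynomial (Co e' ⊕ (C × ι') ⊕ (C × ι')) ℂ

/-- The value of a function on `V` at `(1 + T) [x', α; 0, 0] (1 + T)⁻¹`, `α (c, a) = - η_{ac}`. -/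
def kap {ι' : Type} [Fintype ι'] (e' : ι' → ℤ) (C : Type) [Fintype C] (i : ℤ) :
    MvPolynomial (Co (addDeg e' C i)) ℂ →ₐ[ℂ] SR e' C :=
  aeval fun p => match p with
    | ⟨(Sum.inl b, Sum.inl c), h⟩ =>
        X (Sum.inl ⟨(b, c), h⟩) +
          if e' c = i then ∑ a : C, X (Sum.inr (Sum.inr (a, b))) * X (Sum.inr (Sum.inl (a, c))) else 0
    | ⟨(Sum.inr a, Sum.inl c), _⟩ =>
        ∑ b : ι', if hb : e' b = e' c + 1 then X (Sum.inr (Sum.inl (a, b))) * X (Sum.inl ⟨(b, c), hb⟩) else 0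
    | ⟨(Sum.inl c, Sum.inr a), _⟩ => - X (Sum.inr (Sum.inr (a, c)))
    | ⟨(Sum.inr _, Sum.inr _), _⟩ => 0

/-- SU1 (200 lines). There is a linear map `Λ : SR → (L' → B)` with `Λ 1 w = lam w`, `Λ (x'-polynomial f) w = lam (f w)`,
and `W.x g (Λ s w) = Λ (kap g * s) w`. Definition: `Λ (x'^γ T^α η^β) w = D^β T^α lam (x'^γ w)` where `η_{ac}` stands for
`D_{ac}` (only `c` of degree `i + 1` is used, then `D_{ac} = - x_{ca}`; define `η_{ac}` as `0` otherwise) and the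
derivations stand to the left. Check on generators of the functions (all commute with the `D_{ac}`, `e c = i + 1`):
`x_{bc}`, `b, c` old, `e' c ≠ i`: commutes with `D_{ac}` (`e c = i + 1`) and with `T`, and `x_{bc} lam w = lam (x'_{bc} w)`
(`lam_x`, and `lam_ph1` if `e' b = i`);
`x_{ac}`, `a` new, `e' c = i - 1`: `= φ_{ac}` commutes with these `D` and with `T`, `lam_ph2`;
`x_{cb}`, `e' b = i`, `e' c = i + 1`: `= - D_{bc} = - nab + ∑_a D_{ac} T_{ab}`, `nab` commutes with `T`, `lam_nab`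
(`- D'_{bc} = x'_{cb}`); `x_{ca}`, `a` new: `= - D_{ac}`. -/
def Stmt_SU1 : Prop :=
  ∀ (ι' C : Type) [Fintype ι'] [DecidableEq ι'] [Fintype C] [DecidableEq C] (e' : ι' → ℤ) (i : ℤ)
    (L' B : Type) [AddCommGroup L'] [Module ℂ L'] [AddCommGroup B] [Module ℂ B] (W' : WMod (Co e') L')
    (W : WMod (Co (addDeg e' C i)) B) (rx : RowExt (C := C) (i := i) W' W),
    ∃ Λ : SR e' C →ₗ[ℂ] (L' →ₗ[ℂ] B), (∀ w, Λ 1 w = rx.lam w) ∧
      (∀ (f : MvPolynomial (Co e') ℂ) (s : SR e' C) (w : L'), Λ (rename Sum.inl f * s) w = Λ s (W'.x f w)) ∧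
      ∀ (g : MvPolynomial (Co (addDeg e' C i)) ℂ) (s : SR e' C) (w : L'), W.x g (Λ s w) = Λ (kap e' C i g * s) w

/-- SU2 (100 lines). If `g` vanishes on `ZExt Z'` then `kap g = ∑ f_m · (monomials in T, η)` with functions `f_m`
vanishing on `Z'`: for `x' ∈ Z'` the polynomial `kap g` in `T, η` vanishes identically, because its value at
`(x', T, η)` is the value of `g` at a point of `ZExt Z'`. -/
def Stmt_SU2 : Prop :=
  ∀ (ι' C : Type) [Fintype ι'] [DecidableEq ι'] [Fintype C] [DecidableEq C] (e' : ι' → ℤ) (i : ℤ)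
    (Z' : Set (Co e' → ℂ)) (g : MvPolynomial (Co (addDeg e' C i)) ℂ),
    (∀ x ∈ ZExt e' C i Z', eval x g = 0) →
    ∃ (n : ℕ) (f : Fin n → MvPolynomial (Co e') ℂ) (s : Fin n → SR e' C),
      (∀ j, ∀ x' ∈ Z', eval x' (f j) = 0) ∧ kap e' C i g = ∑ j, rename Sum.inl (f j) * s j

/-- SUP (80 lines). Assembly: `(W.x g)^k lam w = Λ ((kap g)^k) w`, `kap g = ∑_j f_j s_j` with `f_j` locally nilpotent on
`L'`: expand the power, every term with `k > n N` contains some `f_j^N` which kills `w` (functions commute). -/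
def Stmt_USUP : Prop :=
  ∀ (ι' C : Type) [Fintype ι'] [DecidableEq ι'] [Fintype C] [DecidableEq C] (e' : ι' → ℤ) (i : ℤ)
    (L' B : Type) [AddCommGroup L'] [Module ℂ L'] [AddCommGroup B] [Module ℂ B] (W' : WMod (Co e') L')
    (W : WMod (Co (addDeg e' C i)) B) (rx : RowExt (C := C) (i := i) W' W) (Z' : Set (Co e' → ℂ)),
    (∀ g : MvPolynomial (Co e') ℂ, (∀ x ∈ Z', eval x g = 0) → LocNil (W'.x g)) →
    ∀ g : MvPolynomial (Co (addDeg e' C i)) ℂ, (∀ x ∈ ZExt e' C i Z', eval x g = 0) →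
      ∀ w : L', ∃ k : ℕ, (W.x g ^ k) (rx.lam w) = 0

/-! ## From the library -/

/-- IND (helper93 / helper70). In a simple module the characteristic variety may be tested on one vector. -/
def Stmt_UIND : Prop :=
  ∀ (σ : Type) [Fintype σ] [DecidableEq σ] (L : Type) [AddCommGroup L] [Module ℂ L] (W : WMod σ L),
    W.Simple → ∀ u : L, u ≠ 0 → ∀ x ξ, W.InChAt u x ξ → W.InCh x ξ

/-- FOU (helper93). Characteristic variety and sink orientation. The Euler operator of the coordinates with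
source of degree `i` is a combination of the diagonal fields: `∑_{e a ≤ i} G a a = - ∑_{e b = i} x_{cb} ∂_{cb}`. -/
def Stmt_FOU : Prop :=
  ∀ (ι : Type) [Fintype ι] [DecidableEq ι] (e : ι → ℤ) (i : ℤ) (L : Type) [AddCommGroup L] [Module ℂ L]
    (W V : WMod (Co e) L), W.Simple → W.Equivariant → IsFour (Src e i) W V →
    ∀ x ξ : Co e → ℂ, W.InCh x ξ ↔ V.InCh (sx e i x ξ) (sxi e i x ξ)

/-- FEX (40 lines). The partial Fourier transform exists. -/
def Stmt_FEX : Prop :=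
  ∀ (σ : Type) [Fintype σ] [DecidableEq σ] (L : Type) [AddCommGroup L] [Module ℂ L] (W : WMod σ L)
    (A : σ → Prop), ∃ V : WMod σ L, IsFour A W V

/-- NIL (60 lines). The vectors on which a function is nilpotent are a stable subspace. -/
def Stmt_NIL : Prop :=
  ∀ (σ : Type) [Fintype σ] [DecidableEq σ] (L : Type) [AddCommGroup L] [Module ℂ L] (W : WMod σ L)
    (g : MvPolynomial σ ℂ), ∃ F : Submodule ℂ L, W.Stable F ∧ ∀ u, u ∈ F ↔ ∃ k : ℕ, (W.x g ^ k) u = 0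

/-- REL (80 lines). The block relation in the linear orientation is the relation `Rel` in the sink orientations. -/
def Stmt_REL : Prop :=
  ∀ (ι' C : Type) [Fintype ι'] [DecidableEq ι'] [Fintype C] [DecidableEq C] (e' : ι' → ℤ) (i : ℤ)
    (x' ξ' : Co e' → ℂ) (x ξ : Co (addDeg e' C i) → ℂ), Blk e' i x' ξ' x ξ →
    Rel e' C i (sx e' i x' ξ') (sxi e' i x' ξ') (sx (addDeg e' C i) i x ξ) (sxi (addDeg e' C i) i x ξ)

/-! ## The theorem -/

/-- QJM (40 lines). The polynomial minor in the sink orientation and the number `QJ`. -/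
def Stmt_QJM : Prop :=
  ∀ (ι' : Type) [Fintype ι'] [DecidableEq ι'] (e' : ι' → ℤ) (i : ℤ) (J : {a // e' a = i} → ι'),
    (∀ k, e' (J k) = i - 1 ∨ e' (J k) = i + 1) → ∀ x ξ : Co e' → ℂ,
    eval (sx e' i x ξ) (minor e' i J) = QJ e' i J x ξ

/-- BLT (80 lines). A point as in `Stmt_UPSTEP` is `(1 + T)`-conjugate to a block point: with
`g = [1, 0; T, 1]`, `h = [1, 0; -T, 1]` (degree preserving, inverse to each other) the point `(x1, ξ1)` with
`mat x1 = h * mat x * g`, `ymat ξ1 = h * ymat ξ * g` satisfies `Blk` (`emb T = g * emb 0`). -/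
def Stmt_BLT : Prop :=
  ∀ (ι' C : Type) [Fintype ι'] [DecidableEq ι'] [Fintype C] [DecidableEq C] (e' : ι' → ℤ) (i : ℤ)
    (x' ξ' : Co e' → ℂ) (T : Matrix C ι' ℂ) (x ξ : Co (addDeg e' C i) → ℂ), TDeg e' i T →
    mat _ x * emb T = emb T * mat e' x' → ymat _ ξ * emb T = emb T * ymat e' ξ' →
    (∀ a b, addDeg e' C i a = i → addDeg e' C i b = i → (mat _ x * ymat _ ξ - ymat _ ξ * mat _ x) a b = 0) →
    ∃ (g h : Matrix (ι' ⊕ C) (ι' ⊕ C) ℂ) (x1 ξ1 : Co (addDeg e' C i) → ℂ), g * h = 1 ∧ h * g = 1 ∧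
      (∀ a b, g a b ≠ 0 → addDeg e' C i a = addDeg e' C i b) ∧
      (∀ a b, h a b ≠ 0 → addDeg e' C i a = addDeg e' C i b) ∧ Blk e' i x' ξ' x1 ξ1 ∧
      mat _ x = g * mat _ x1 * h ∧ ymat _ ξ = g * ymat _ ξ1 * h

/-- UP (150 lines). THE UP-STEP. Uses `Stmt_HST` and BLT to reduce to `T = 0`. Assembly: EX gives `B`, `lam`; the integrable vectors `F` of `B` (GOO) are stable and
nonzero (INT with DET, `lam` injective, `Q` injective on the simple `L'`); `exists_simple` and `Growth` give a simple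
`S ≤ F`; the answer is `W.res S`. Equivariant: `F`. Growth: `Growth.res`. Characteristic variety: `S` contains
`lam w`, `w ≠ 0` (EX); `W'.InCh x' ξ'` gives `V'.InCh (sx ..) (sxi ..)` (FOU), hence `V.InCh` on `B` by EX and REL, hence on `S`,
hence `W.res S`.InCh by FOU. Support: NIL, SUP. -/
def Stmt_UP : Prop := Stmt_UPSTEP

end Pool.DM
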